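import Mathlib

set_option autoImplicit false

open Finset Filter

namespace A53

private theorem asy1_ev (ε : ℝ) (hε : 0 < ε) : ∀ᶠ x : ℝ in atTop,
    Real.log 3 + 2 * Real.log x + 2 * (x ^ (1 - ε) * Real.log x) ≤ ε * x := by
  have h1 : ∀ᶠ x : ℝ in atTop, Real.log 3 ≤ (ε / 3) * x := by
    have ht : Tendsto (fun x : ℝ => (ε / 3) * x) atTop atTop :=
      tendsto_id.const_mul_atTop (by positivity)
    exact ht.eventually_ge_atTop _
  have h2 : ∀ᶠ x : ℝ in atTop, ‖Real.log x‖ ≤ (ε / 6) * ‖id x‖ :=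
    Real.isLittleO_log_id_atTop.bound (by positivity)
  have h3 : ∀ᶠ x : ℝ in atTop, ‖Real.log x‖ ≤ (ε / 6) * ‖x ^ ε‖ :=
    (isLittleO_log_rpow_atTop hε).bound (by positivity)
  filter_upwards [h1, h2, h3, eventually_ge_atTop (1 : ℝ)] with x h1 h2 h3 hx
  have hx0 : (0 : ℝ) < x := by linarith
  have hp : 0 ≤ x ^ ε := Real.rpow_nonneg hx0.le _
  have hq : 0 ≤ x ^ (1 - ε) := Real.rpow_nonneg hx0.le _
  rw [Real.norm_of_nonneg hp] at h3
  simp only [id, Real.norm_of_nonneg hx0.le] at h2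
  have h2' : Real.log x ≤ (ε / 6) * x := (Real.le_norm_self _).trans h2
  have h3' : Real.log x ≤ (ε / 6) * x ^ ε := (Real.le_norm_self _).trans h3
  have hmul : x ^ (1 - ε) * x ^ ε = x := by
    rw [← Real.rpow_add hx0]
    simp
  have h4 : x ^ (1 - ε) * Real.log x ≤ (ε / 6) * x := by
    calc x ^ (1 - ε) * Real.log x ≤ x ^ (1 - ε) * ((ε / 6) * x ^ ε) :=
          mul_le_mul_of_nonneg_left h3' hq
      _ = (ε / 6) * (x ^ (1 - ε) * x ^ ε) := by ring
      _ = (ε / 6) * x := by rw [hmul]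
  linarith

/-- helper48: first asymptotic estimate. -/
theorem asy1 (ε : ℝ) (hε : 0 < ε) : ∀ᶠ x : ℝ in atTop, ∀ k : ℕ,
    (k : ℝ) ≤ (1 - ε) * Real.log x / Real.log 2 →
    2 + 4 ^ k * (1 + x) ^ (2 ^ k) ≤ Real.exp (ε * x) := by
  filter_upwards [asy1_ev ε hε, eventually_ge_atTop (2 : ℝ)] with x hx hx2 k hk
  have hx0 : (0 : ℝ) < x := by linarith
  have hx1 : (1 : ℝ) ≤ x := by linarith
  have hl2 : 0 < Real.log 2 := Real.log_pos (by norm_num)
  have hlx : 0 ≤ Real.log x := Real.log_nonneg hx1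
  have hk' : (k : ℝ) * Real.log 2 ≤ (1 - ε) * Real.log x := by
    rwa [le_div_iff₀ hl2] at hk
  -- `2 ^ k ≤ x ^ (1 - ε)`
  have h2k : (2 : ℝ) ^ k ≤ x ^ (1 - ε) := by
    have e1 : (2 : ℝ) ^ k = Real.exp ((k : ℝ) * Real.log 2) := by
      rw [mul_comm, Real.exp_mul, Real.exp_log (by norm_num), Real.rpow_natCast]
    have e2 : x ^ (1 - ε) = Real.exp ((1 - ε) * Real.log x) := by
      rw [Real.rpow_def_of_pos hx0, mul_comm]
    rw [e1, e2]
    exact Real.exp_le_exp.mpr hk'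
  have hxe : x ^ (1 - ε) ≤ x := by
    calc x ^ (1 - ε) ≤ x ^ (1 : ℝ) :=
          Real.rpow_le_rpow_of_exponent_le hx1 (by linarith)
      _ = x := Real.rpow_one x
  have h4k : (4 : ℝ) ^ k ≤ x ^ 2 := by
    have e : (4 : ℝ) ^ k = ((2 : ℝ) ^ k) ^ 2 := by
      rw [← pow_mul, mul_comm, pow_mul]; norm_num
    rw [e]
    exact pow_le_pow_left₀ (by positivity) (h2k.trans hxe) 2
  have hlog1 : Real.log (1 + x) ≤ 2 * Real.log x := by
    have : 1 + x ≤ x ^ 2 := by nlinarith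
    calc Real.log (1 + x) ≤ Real.log (x ^ 2) := Real.log_le_log (by linarith) this
      _ = 2 * Real.log x := by rw [Real.log_pow]; norm_num
  have hlog0 : 0 ≤ Real.log (1 + x) := Real.log_nonneg (by linarith)
  have hpow : (1 + x) ^ (2 ^ k) ≤ Real.exp (2 * (x ^ (1 - ε) * Real.log x)) := by
    have e1 : (1 + x) ^ (2 ^ k) = Real.exp ((2 : ℝ) ^ k * Real.log (1 + x)) := by
      rw [mul_comm, Real.exp_mul, Real.exp_log (by linarith)]
      rw [← Real.rpow_natCast]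
      push_cast
      rfl
    rw [e1]
    apply Real.exp_le_exp.mpr
    calc (2 : ℝ) ^ k * Real.log (1 + x) ≤ x ^ (1 - ε) * (2 * Real.log x) :=
          mul_le_mul h2k hlog1 hlog0 (Real.rpow_nonneg hx0.le _)
      _ = 2 * (x ^ (1 - ε) * Real.log x) := by ring
  have hY1 : (1 : ℝ) ≤ 4 ^ k * (1 + x) ^ (2 ^ k) := by
    have a1 : (1 : ℝ) ≤ 4 ^ k := one_le_pow₀ (by norm_num)
    have a2 : (1 : ℝ) ≤ (1 + x) ^ (2 ^ k) := one_le_pow₀ (by linarith)
    nlinarith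
  have hY2 : 4 ^ k * (1 + x) ^ (2 ^ k) ≤
      x ^ 2 * Real.exp (2 * (x ^ (1 - ε) * Real.log x)) :=
    mul_le_mul h4k hpow (by positivity) (by positivity)
  have hx2e : x ^ 2 = Real.exp (2 * Real.log x) := by
    rw [mul_comm, Real.exp_mul, Real.exp_log hx0]
    norm_num
  have h3e : (3 : ℝ) = Real.exp (Real.log 3) := (Real.exp_log (by norm_num)).symm
  calc 2 + 4 ^ k * (1 + x) ^ (2 ^ k) ≤ 3 * (4 ^ k * (1 + x) ^ (2 ^ k)) := by linarith
    _ ≤ 3 * (x ^ 2 * Real.exp (2 * (x ^ (1 - ε) * Real.log x))) := by linarith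
    _ = Real.exp (Real.log 3 + 2 * Real.log x + 2 * (x ^ (1 - ε) * Real.log x)) := by
        rw [Real.exp_add, Real.exp_add, ← hx2e, ← h3e]; ring
    _ ≤ Real.exp (ε * x) := Real.exp_le_exp.mpr hx

end A53
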