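import Mathlib

set_option autoImplicit false

open Finset Filter

namespace A53

/-- second asymptotic estimate. -/
theorem asy2 (ε η : ℝ) (hε : 0 ≤ ε) (hη : ε < η) :
    ∃ δ : ℝ, 0 < δ ∧ ∃ M : ℝ, 1 ≤ M ∧ ∀ᶠ x : ℝ in atTop, ∀ k : ℕ,
      (k : ℝ) ≤ (1 + δ) * x / Real.log x →
      1 ≤ M * x ^ ε ∧
      2 + (M * x ^ ε) ^ k * Real.exp (3 * x ^ (1 + ε) / (M * x ^ ε)) * (1 + x) ≤
        Real.exp (η * x) := by
  obtain ⟨θ, hθ, rfl⟩ : ∃ θ : ℝ, 0 < θ ∧ η = ε + θ := ⟨η - ε, by linarith, by ring⟩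
  set δ : ℝ := min 1 (θ / (4 * ε + 1)) with hδdef
  have h4 : (0 : ℝ) < 4 * ε + 1 := by linarith
  have hδ0 : 0 < δ := lt_min one_pos (div_pos hθ h4)
  have hδ1 : δ ≤ 1 := min_le_left _ _
  have hεδ : ε * δ ≤ θ / 4 := by
    have h1 : δ ≤ θ / (4 * ε + 1) := min_le_right _ _
    have h2 : ε * δ ≤ ε * (θ / (4 * ε + 1)) := mul_le_mul_of_nonneg_left h1 hε
    have h3 : ε * (θ / (4 * ε + 1)) ≤ θ / 4 := by
      rw [mul_div_assoc', div_le_div_iff₀ h4 (by norm_num)]
      nlinarith
    linarith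
  set M : ℝ := 12 / θ + 1 with hMdef
  have hM1 : 1 ≤ M := by
    have : 0 < 12 / θ := by positivity
    linarith
  have hMθ : 12 ≤ M * θ := by
    have : 12 / θ * θ = 12 := by field_simp
    nlinarith
  have hM0 : 0 < M := by linarith
  have hlogM : 0 ≤ Real.log M := Real.log_nonneg hM1
  refine ⟨δ, hδ0, M, hM1, ?_⟩
  have e1 : ∀ᶠ x : ℝ in atTop, Real.log x ≤ θ / 8 * x := by
    have h := Real.isLittleO_log_id_atTop.def (show (0 : ℝ) < θ / 8 by positivity)
    filter_upwards [h, eventually_gt_atTop (0 : ℝ)] with x hx hx0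
    have h1 : ‖(id x : ℝ)‖ = x := by simp [abs_of_pos hx0]
    rw [h1] at hx
    exact (le_abs_self _).trans hx
  have e2 : ∀ᶠ x : ℝ in atTop, Real.log 6 ≤ θ / 8 * x := by
    filter_upwards [eventually_ge_atTop (Real.log 6 / (θ / 8))] with x hx
    rw [div_le_iff₀ (by positivity)] at hx
    linarith
  have e3 : ∀ᶠ x : ℝ in atTop, 2 * Real.log M ≤ θ / 4 * Real.log x := by
    have h := Real.tendsto_log_atTop.eventually_ge_atTop (2 * Real.log M / (θ / 4))
    filter_upwards [h] with x hx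
    rw [div_le_iff₀ (by positivity)] at hx
    linarith
  filter_upwards [e1, e2, e3, eventually_gt_atTop (Real.exp 1)] with x h1 h2 h3 hx k hk
  have hx1 : 1 < x := lt_of_le_of_lt (Real.one_le_exp zero_le_one) hx
  have hx0 : 0 < x := by linarith
  have hlogx : 0 < Real.log x := Real.log_pos hx1
  have hxε : 1 ≤ x ^ ε := Real.one_le_rpow hx1.le hε
  have hxε0 : 0 < x ^ ε := by linarith
  have hB : 1 ≤ M * x ^ ε := by nlinarith
  refine ⟨hB, ?_⟩
  have hB0 : 0 < M * x ^ ε := by linarith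
  have hL : Real.log (M * x ^ ε) = Real.log M + ε * Real.log x := by
    rw [Real.log_mul hM0.ne' hxε0.ne', Real.log_rpow hx0]
  have hLn : 0 ≤ Real.log M + ε * Real.log x := by positivity
  -- the power
  have hpow : (M * x ^ ε) ^ k ≤
      Real.exp ((1 + δ) * x / Real.log x * (Real.log M + ε * Real.log x)) := by
    have : (M * x ^ ε) ^ k = Real.exp (k * Real.log (M * x ^ ε)) := by
      rw [Real.exp_nat_mul, Real.exp_log hB0]
    rw [this, hL]
    exact Real.exp_le_exp.mpr (mul_le_mul_of_nonneg_right hk hLn)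
  -- the exponential
  have hexp : Real.exp (3 * x ^ (1 + ε) / (M * x ^ ε)) ≤ Real.exp (θ / 4 * x) := by
    apply Real.exp_le_exp.mpr
    rw [Real.rpow_add hx0, Real.rpow_one]
    have : 3 * (x * x ^ ε) / (M * x ^ ε) = 3 * x / M := by
      field_simp
    rw [this, div_le_iff₀ hM0]
    nlinarith
  set A : ℝ := (1 + δ) * x / Real.log x * (Real.log M + ε * Real.log x) with hA
  have hAle : A ≤ θ / 4 * x + ε * x + θ / 4 * x := by
    have hA1 : A = (1 + δ) * Real.log M * (x / Real.log x) + (1 + δ) * ε * x := by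
      rw [hA]; field_simp
    have h5 : (1 + δ) * Real.log M * (x / Real.log x) ≤ θ / 4 * x := by
      have h6 : (1 + δ) * Real.log M ≤ θ / 4 * Real.log x := by nlinarith
      have h7 : 0 < x / Real.log x := div_pos hx0 hlogx
      calc (1 + δ) * Real.log M * (x / Real.log x)
          ≤ θ / 4 * Real.log x * (x / Real.log x) := mul_le_mul_of_nonneg_right h6 h7.le
        _ = θ / 4 * x := by field_simp
    have h8 : (1 + δ) * ε * x ≤ ε * x + θ / 4 * x := by nlinarith
    linarith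
  have hxx : (1 + x) ≤ Real.exp (Real.log (2 * x)) := by
    rw [Real.exp_log (by positivity)]; linarith
  have hprod : (M * x ^ ε) ^ k * Real.exp (3 * x ^ (1 + ε) / (M * x ^ ε)) * (1 + x) ≤
      Real.exp A * Real.exp (θ / 4 * x) * Real.exp (Real.log (2 * x)) := by
    gcongr
  have hone : (1 : ℝ) ≤ Real.exp A * Real.exp (θ / 4 * x) * Real.exp (Real.log (2 * x)) := by
    rw [← Real.exp_add, ← Real.exp_add]
    apply Real.one_le_exp
    have hA0 : 0 ≤ A := by
      rw [hA]; positivity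
    have : 0 ≤ Real.log (2 * x) := Real.log_nonneg (by linarith)
    positivity
  have h3' : 2 + (M * x ^ ε) ^ k * Real.exp (3 * x ^ (1 + ε) / (M * x ^ ε)) * (1 + x) ≤
      3 * (Real.exp A * Real.exp (θ / 4 * x) * Real.exp (Real.log (2 * x))) := by linarith
  refine h3'.trans ?_
  have h33 : (3 : ℝ) = Real.exp (Real.log 3) := (Real.exp_log (by norm_num)).symm
  rw [← Real.exp_add, ← Real.exp_add]
  nth_rw 1 [h33]
  rw [← Real.exp_add]
  apply Real.exp_le_exp.mpr
  have h9 : Real.log (2 * x) = Real.log 2 + Real.log x := Real.log_mul (by norm_num) hx0.ne'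
  have h10 : Real.log 6 = Real.log 2 + Real.log 3 := by
    rw [← Real.log_mul (by norm_num) (by norm_num)]; norm_num
  rw [h9]
  nlinarith

end A53
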