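import Mathlib

set_option autoImplicit false

open Finset Filter

namespace A53

private theorem asyA_ev (κ δ ε : ℝ) (hκ : 1 ≤ κ) (hδ : 0 < δ) (hε : 0 < ε) : ∀ᶠ x : ℝ in atTop,
    Real.log 4 + 2 * κ * Real.log x + 2 * (x ^ (1 - δ) * Real.log x) ≤ ε / 2 * x := by
  have hκ0 : 0 < κ := by linarith
  have h1 : ∀ᶠ x : ℝ in atTop, Real.log 4 ≤ (ε / 6) * x := by
    have ht : Tendsto (fun x : ℝ => (ε / 6) * x) atTop atTop :=
      tendsto_id.const_mul_atTop (by positivity)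
    exact ht.eventually_ge_atTop _
  have h2 : ∀ᶠ x : ℝ in atTop, ‖Real.log x‖ ≤ (ε / (12 * κ)) * ‖id x‖ :=
    Real.isLittleO_log_id_atTop.bound (by positivity)
  have h3 : ∀ᶠ x : ℝ in atTop, ‖Real.log x‖ ≤ (ε / 12) * ‖x ^ δ‖ :=
    (isLittleO_log_rpow_atTop hδ).bound (by positivity)
  filter_upwards [h1, h2, h3, eventually_ge_atTop (1 : ℝ)] with x h1 h2 h3 hx
  have hx0 : (0 : ℝ) < x := by linarith
  have hp : 0 ≤ x ^ δ := Real.rpow_nonneg hx0.le _
  have hq : 0 ≤ x ^ (1 - δ) := Real.rpow_nonneg hx0.le _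
  rw [Real.norm_of_nonneg hp] at h3
  simp only [id, Real.norm_of_nonneg hx0.le] at h2
  have h2' : Real.log x ≤ (ε / (12 * κ)) * x := (Real.le_norm_self _).trans h2
  have h3' : Real.log x ≤ (ε / 12) * x ^ δ := (Real.le_norm_self _).trans h3
  have hmul : x ^ (1 - δ) * x ^ δ = x := by
    rw [← Real.rpow_add hx0]
    simp
  have h4 : x ^ (1 - δ) * Real.log x ≤ (ε / 12) * x := by
    calc x ^ (1 - δ) * Real.log x ≤ x ^ (1 - δ) * ((ε / 12) * x ^ δ) :=
          mul_le_mul_of_nonneg_left h3' hq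
      _ = (ε / 12) * (x ^ (1 - δ) * x ^ δ) := by ring
      _ = (ε / 12) * x := by rw [hmul]
  have h5 : 2 * κ * Real.log x ≤ ε / 6 * x := by
    calc 2 * κ * Real.log x ≤ 2 * κ * ((ε / (12 * κ)) * x) :=
          mul_le_mul_of_nonneg_left h2' (by positivity)
      _ = ε / 6 * x := by field_simp; ring
  linarith

/-- asymptotic choice of parameters for `omega`. -/
theorem asyA (κ ε : ℝ) (hκ : 1 ≤ κ) (hε : 0 < ε) : ∀ᶠ x : ℝ in atTop,
    ∃ (k j : ℕ) (V : ℝ), κ * Real.log x / Real.log 2 < (k : ℝ) + 1 ∧ j ≤ k ∧ 1 ≤ V ∧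
      Real.exp x * (V⁻¹ ^ j * (1 + x) ^ (2 ^ j)) +
        Real.exp (3 / 4 * x) * (2 + 4 ^ k * V ^ (k - j) * (1 + x) ^ (2 ^ j)) ≤
      Real.exp ((1 - 1 / (4 * κ) + ε) * x) := by
  have hκ0 : 0 < κ := by linarith
  set δ := ε / (1 + 2 * ε) with hδdef
  have hδ : 0 < δ := by positivity
  have hδ1 : (1 + 2 * ε) * (1 - δ) = 1 + ε := by
    rw [hδdef]; field_simp; ring
  have hδ2 : 0 < 1 - δ := by
    by_contra h
    push Not at h
    nlinarith
  have hl2 : 0 < Real.log 2 := Real.log_pos (by norm_num)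
  have hlog : Tendsto (fun x : ℝ => Real.log x / Real.log 2) atTop atTop :=
    Real.tendsto_log_atTop.atTop_div_const hl2
  have hℓ1 : ∀ᶠ x : ℝ in atTop, (1 + 2 * ε) / ε ≤ Real.log x / Real.log 2 :=
    hlog.eventually_ge_atTop _
  have hℓ2 : ∀ᶠ x : ℝ in atTop, 2 / (1 - δ) ≤ Real.log x / Real.log 2 :=
    hlog.eventually_ge_atTop _
  filter_upwards [asyA_ev κ δ ε hκ hδ hε, hℓ1, hℓ2, eventually_ge_atTop (2 : ℝ)]
    with x hx hℓ1 hℓ2 hx2
  have hx0 : (0 : ℝ) < x := by linarith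
  have hx1 : (1 : ℝ) ≤ x := by linarith
  set ℓ := Real.log x / Real.log 2 with hℓ
  have hℓpos : 0 < ℓ := lt_of_lt_of_le (by positivity) hℓ2
  have hℓlog : ℓ * Real.log 2 = Real.log x := by rw [hℓ]; field_simp
  set k := ⌊κ * ℓ⌋₊ with hk
  set j := ⌊(1 - δ) * ℓ⌋₊ with hj
  have hkle : (k : ℝ) ≤ κ * ℓ := Nat.floor_le (by positivity)
  have hjle : (j : ℝ) ≤ (1 - δ) * ℓ := Nat.floor_le (by positivity)
  have hjlt : (1 - δ) * ℓ < j + 1 := Nat.lt_floor_add_one _
  have hj2 : 2 ≤ (1 - δ) * ℓ := by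
    rw [div_le_iff₀ hδ2] at hℓ2
    linarith
  have hj1 : (1 : ℝ) < j := by linarith
  have hj0 : (0 : ℝ) < j := by linarith
  have hjne : j ≠ 0 := by
    intro h
    rw [h] at hj0
    simp at hj0
  have hjk : j ≤ k := Nat.floor_le_floor (by nlinarith)
  have hjkR : (j : ℝ) ≤ k := by exact_mod_cast hjk
  set θ := 1 / (4 * κ) with hθ
  have hθ0 : 0 < θ := by positivity
  refine ⟨k, j, Real.exp (θ * x / j), ?_, hjk, Real.one_le_exp (by positivity), ?_⟩
  · rw [mul_div_assoc]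
    exact Nat.lt_floor_add_one _
  -- the powers of `V`
  have hVj : (Real.exp (θ * x / j))⁻¹ ^ j = Real.exp (-(θ * x)) := by
    rw [inv_pow, ← Real.exp_nat_mul, Real.exp_neg]
    congr 2
    field_simp
  have hVk : (Real.exp (θ * x / j)) ^ (k - j) ≤ Real.exp ((1 / 4 + ε / 2 - θ) * x) := by
    rw [← Real.exp_nat_mul, Real.exp_le_exp, Nat.cast_sub hjk]
    have h1 : (k : ℝ) / j ≤ κ * (1 + 2 * ε) := by
      rw [div_le_iff₀ hj0]
      refine hkle.trans ?_
      have h2 : ℓ ≤ (1 + 2 * ε) * j := by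
        have h3 : (1 + 2 * ε) * ((1 - δ) * ℓ) ≤ (1 + 2 * ε) * (j + 1) :=
          mul_le_mul_of_nonneg_left hjlt.le (by positivity)
        rw [← mul_assoc, hδ1] at h3
        have h4 : 1 + 2 * ε ≤ ε * ℓ := by
          rw [div_le_iff₀ hε] at hℓ1
          linarith
        linarith
      calc κ * ℓ ≤ κ * ((1 + 2 * ε) * j) := mul_le_mul_of_nonneg_left h2 hκ0.le
        _ = κ * (1 + 2 * ε) * j := by ring
    have h2 : ((k : ℝ) - j) * (θ * x / j) = ((k : ℝ) / j * θ - θ) * x := by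
      field_simp
    rw [h2]
    apply mul_le_mul_of_nonneg_right _ hx0.le
    have h3 : (k : ℝ) / j * θ ≤ κ * (1 + 2 * ε) * θ := mul_le_mul_of_nonneg_right h1 hθ0.le
    have h4 : κ * (1 + 2 * ε) * θ = 1 / 4 + ε / 2 := by
      rw [hθ]; field_simp; ring
    linarith
  -- the factor `4 ^ k * (1 + x) ^ (2 ^ j)`
  have h4k : (4 : ℝ) ^ k ≤ Real.exp (2 * κ * Real.log x) := by
    have e : (4 : ℝ) ^ k = Real.exp ((k : ℝ) * Real.log 4) := by
      rw [mul_comm, Real.exp_mul, Real.exp_log (by norm_num), Real.rpow_natCast]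
    have e4 : Real.log 4 = 2 * Real.log 2 := by
      rw [show (4 : ℝ) = 2 ^ 2 by norm_num, Real.log_pow]; norm_num
    rw [e, Real.exp_le_exp, e4, ← hℓlog]
    calc (k : ℝ) * (2 * Real.log 2) ≤ κ * ℓ * (2 * Real.log 2) :=
          mul_le_mul_of_nonneg_right hkle (by positivity)
      _ = 2 * κ * (ℓ * Real.log 2) := by ring
  have h2j : (2 : ℝ) ^ j ≤ x ^ (1 - δ) := by
    have e1 : (2 : ℝ) ^ j = Real.exp ((j : ℝ) * Real.log 2) := by
      rw [mul_comm, Real.exp_mul, Real.exp_log (by norm_num), Real.rpow_natCast]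
    have e2 : x ^ (1 - δ) = Real.exp ((1 - δ) * Real.log x) := by
      rw [Real.rpow_def_of_pos hx0, mul_comm]
    rw [e1, e2, Real.exp_le_exp, ← hℓlog, ← mul_assoc]
    exact mul_le_mul_of_nonneg_right hjle hl2.le
  have hlog1 : Real.log (1 + x) ≤ 2 * Real.log x := by
    have : 1 + x ≤ x ^ 2 := by nlinarith
    calc Real.log (1 + x) ≤ Real.log (x ^ 2) := Real.log_le_log (by linarith) this
      _ = 2 * Real.log x := by rw [Real.log_pow]; norm_num
  have hlog0 : 0 ≤ Real.log (1 + x) := Real.log_nonneg (by linarith)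
  have hpow : (1 + x) ^ (2 ^ j) ≤ Real.exp (2 * (x ^ (1 - δ) * Real.log x)) := by
    have e1 : (1 + x) ^ (2 ^ j) = Real.exp ((2 : ℝ) ^ j * Real.log (1 + x)) := by
      rw [mul_comm, Real.exp_mul, Real.exp_log (by linarith)]
      rw [← Real.rpow_natCast]
      push_cast
      rfl
    rw [e1]
    apply Real.exp_le_exp.mpr
    calc (2 : ℝ) ^ j * Real.log (1 + x) ≤ x ^ (1 - δ) * (2 * Real.log x) :=
          mul_le_mul h2j hlog1 hlog0 (Real.rpow_nonneg hx0.le _)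
      _ = 2 * (x ^ (1 - δ) * Real.log x) := by ring
  set P := (1 + x) ^ (2 ^ j) with hP
  have hP1 : 1 ≤ P := one_le_pow₀ (by linarith)
  have h4k1 : (1 : ℝ) ≤ 4 ^ k := one_le_pow₀ (by norm_num)
  have hmain : 4 * (4 ^ k * P) ≤ Real.exp (ε / 2 * x) := by
    have e : Real.exp (Real.log 4 + 2 * κ * Real.log x + 2 * (x ^ (1 - δ) * Real.log x)) =
        4 * (Real.exp (2 * κ * Real.log x) * Real.exp (2 * (x ^ (1 - δ) * Real.log x))) := by
      rw [Real.exp_add, Real.exp_add, Real.exp_log (by norm_num)]; ring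
    refine le_trans ?_ (Real.exp_le_exp.2 hx)
    rw [e]
    apply mul_le_mul_of_nonneg_left _ (by norm_num)
    exact mul_le_mul h4k hpow (by positivity) (by positivity)
  set E := Real.exp ((1 - θ + ε / 2) * x) with hE
  have hE0 : 0 < E := Real.exp_pos _
  have t1 : Real.exp x * ((Real.exp (θ * x / j))⁻¹ ^ j * P) ≤ E * (4 ^ k * P) := by
    rw [hVj, ← mul_assoc, ← Real.exp_add]
    have h1 : Real.exp (x + -(θ * x)) ≤ E := by
      rw [hE, Real.exp_le_exp]
      nlinarith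
    have h2 : P ≤ 4 ^ k * P := le_mul_of_one_le_left (by linarith) h4k1
    exact mul_le_mul h1 h2 (by linarith) hE0.le
  have hVk0 : 1 ≤ (Real.exp (θ * x / j)) ^ (k - j) :=
    one_le_pow₀ (Real.one_le_exp (by positivity))
  have t2 : Real.exp (3 / 4 * x) * (2 + 4 ^ k * (Real.exp (θ * x / j)) ^ (k - j) * P) ≤
      3 * (E * (4 ^ k * P)) := by
    set W := (Real.exp (θ * x / j)) ^ (k - j) with hW
    have hWP : 1 ≤ 4 ^ k * W * P :=
      one_le_mul_of_one_le_of_one_le (one_le_mul_of_one_le_of_one_le h4k1 hVk0) hP1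
    have h1 : 2 + 4 ^ k * W * P ≤ 3 * (4 ^ k * W * P) := by linarith
    have h2 : Real.exp (3 / 4 * x) * W ≤ E := by
      calc Real.exp (3 / 4 * x) * W
          ≤ Real.exp (3 / 4 * x) * Real.exp ((1 / 4 + ε / 2 - θ) * x) :=
            mul_le_mul_of_nonneg_left hVk (Real.exp_pos _).le
        _ = E := by rw [← Real.exp_add, hE]; congr 1; ring
    calc Real.exp (3 / 4 * x) * (2 + 4 ^ k * W * P)
        ≤ Real.exp (3 / 4 * x) * (3 * (4 ^ k * W * P)) :=
          mul_le_mul_of_nonneg_left h1 (Real.exp_pos _).le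
      _ = 3 * ((Real.exp (3 / 4 * x) * W) * (4 ^ k * P)) := by ring
      _ ≤ 3 * (E * (4 ^ k * P)) := by
          apply mul_le_mul_of_nonneg_left _ (by norm_num)
          exact mul_le_mul_of_nonneg_right h2 (by positivity)
  calc Real.exp x * ((Real.exp (θ * x / j))⁻¹ ^ j * P) +
        Real.exp (3 / 4 * x) * (2 + 4 ^ k * (Real.exp (θ * x / j)) ^ (k - j) * P)
      ≤ E * (4 ^ k * P) + 3 * (E * (4 ^ k * P)) := add_le_add t1 t2
    _ = E * (4 * (4 ^ k * P)) := by ring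
    _ ≤ E * Real.exp (ε / 2 * x) := mul_le_mul_of_nonneg_left hmain hE0.le
    _ = Real.exp ((1 - θ + ε) * x) := by rw [hE, ← Real.exp_add]; congr 1; ring

end A53
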