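import Mathlib

set_option autoImplicit false

open Finset Filter

namespace A53

private theorem rpow_small (δ η : ℝ) (hδ : 0 < δ) (hη : 0 < η) : ∀ᶠ x : ℝ in atTop,
    x ^ (1 - δ) ≤ η * x := by
  have h1 : ∀ᶠ x : ℝ in atTop, x ^ (-δ) < η :=
    (tendsto_rpow_neg_atTop hδ).eventually_lt_const hη
  filter_upwards [h1, eventually_gt_atTop (0 : ℝ)] with x h1 hx
  rw [sub_eq_add_neg, Real.rpow_add hx, Real.rpow_one, mul_comm]
  exact mul_le_mul_of_nonneg_right h1.le hx.le

private theorem log_small (η : ℝ) (hη : 0 < η) : ∀ᶠ x : ℝ in atTop,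
    Real.log (1 + x) ≤ η * x := by
  have h2 : ∀ᶠ x : ℝ in atTop, ‖Real.log x‖ ≤ (η / 2) * ‖id x‖ :=
    Real.isLittleO_log_id_atTop.bound (by positivity)
  filter_upwards [h2, eventually_ge_atTop (2 : ℝ)] with x h2 hx
  have hx0 : (0 : ℝ) < x := by linarith
  simp only [id, Real.norm_of_nonneg hx0.le] at h2
  have h2' : Real.log x ≤ (η / 2) * x := (Real.le_norm_self _).trans h2
  have : 1 + x ≤ x ^ 2 := by nlinarith
  calc Real.log (1 + x) ≤ Real.log (x ^ 2) := Real.log_le_log (by linarith) this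
    _ = 2 * Real.log x := by rw [Real.log_pow]; norm_num
    _ ≤ η * x := by linarith

/-- choice of parameters for `omega (n) ≤ (log N) ^ c` -/
theorem asyAs (c ε : ℝ) (hc0 : 0 ≤ c) (hc1 : c < 1) (hε : 0 < ε) :
    ∃ a : ℝ, 0 < a ∧ a < 1 ∧ ∀ D : ℝ, 0 < D → ∀ᶠ x : ℝ in atTop, ∃ A : ℝ, 1 ≤ A ∧
      ∀ k w : ℕ, (k : ℝ) ≤ x ^ c → (w : ℝ) ≤ 2 * x →
      2 * Real.exp (3 / 4 * x) + Real.exp ((3 + a) / 4 * x) *
        (A ^ k * Real.exp (2 / (1 - a) * Real.exp (D * (w : ℝ) ^ (1 - a)) / A) * (1 + x)) ≤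
      Real.exp (((3 + c) / 4 + ε) * x) := by
  set a := min (c + ε) ((1 + c) / 2) with ha
  have ha0 : 0 < a := lt_min (by linarith) (by linarith)
  have ha1 : a < 1 := lt_of_le_of_lt (min_le_right _ _) (by linarith)
  have hac : c < a := lt_min (by linarith) (by linarith)
  have hae : a ≤ c + ε := min_le_left _ _
  have h1a : 0 < 1 - a := by linarith
  refine ⟨a, ha0, ha1, fun D hD => ?_⟩
  set B := 2 / (1 - a) with hB
  have hB1 : 1 ≤ B := by
    rw [hB, le_div_iff₀ h1a]
    linarith
  have hB0 : 0 < B := by linarith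
  have hlB : 0 ≤ Real.log B := Real.log_nonneg hB1
  set D' := D * (2 : ℝ) ^ (1 - a) with hD'
  have hD'0 : 0 < D' := by positivity
  have e1 := rpow_small (1 - c) (ε / (8 * (Real.log B + 1))) (by linarith) (by positivity)
  have e2 := rpow_small (a - c) (ε / (8 * D')) (by linarith) (by positivity)
  have e3 := log_small (ε / 8) (by positivity)
  have e4 : ∀ᶠ x : ℝ in atTop, 2 ≤ (ε / 8) * x := by
    have ht : Tendsto (fun x : ℝ => (ε / 8) * x) atTop atTop :=
      tendsto_id.const_mul_atTop (by positivity)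
    exact ht.eventually_ge_atTop _
  filter_upwards [e1, e2, e3, e4, eventually_ge_atTop (1 : ℝ)] with x e1 e2 e3 e4 hx
  have hx0 : 0 < x := by linarith
  set A := B * Real.exp (D * (2 * x) ^ (1 - a)) with hA
  have hA1 : 1 ≤ A := one_le_mul_of_one_le_of_one_le hB1 (Real.one_le_exp (by positivity))
  have hA0 : 0 < A := by linarith
  refine ⟨A, hA1, fun k w hk hw => ?_⟩
  have hq : B * Real.exp (D * (w : ℝ) ^ (1 - a)) / A ≤ 1 := by
    rw [div_le_one hA0, hA]
    apply mul_le_mul_of_nonneg_left _ hB0.le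
    rw [Real.exp_le_exp]
    apply mul_le_mul_of_nonneg_left _ hD.le
    exact Real.rpow_le_rpow (by positivity) hw h1a.le
  have hlA : Real.log A = Real.log B + D' * x ^ (1 - a) := by
    rw [hA, Real.log_mul hB0.ne' (Real.exp_pos _).ne', Real.log_exp,
      Real.mul_rpow (by norm_num) hx0.le, hD']
    ring
  have hlA0 : 0 ≤ Real.log A := Real.log_nonneg hA1
  have hAk : A ^ k ≤ Real.exp (ε / 4 * x) := by
    have f1 : A ^ k = Real.exp ((k : ℝ) * Real.log A) := by
      rw [mul_comm, Real.exp_mul, Real.exp_log hA0, Real.rpow_natCast]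
    rw [f1, Real.exp_le_exp]
    refine (mul_le_mul_of_nonneg_right hk hlA0).trans ?_
    rw [hlA, mul_add]
    have f2 : x ^ c * Real.log B ≤ ε / 8 * x := by
      have g1 : x ^ c ≤ ε / (8 * (Real.log B + 1)) * x := by
        have : 1 - (1 - c) = c := by ring
        rwa [this] at e1
      calc x ^ c * Real.log B ≤ x ^ c * (Real.log B + 1) := by
            apply mul_le_mul_of_nonneg_left _ (by positivity)
            linarith
        _ ≤ ε / (8 * (Real.log B + 1)) * x * (Real.log B + 1) := by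
            apply mul_le_mul_of_nonneg_right g1
            linarith
        _ = ε / 8 * x := by field_simp
    have f3 : x ^ c * (D' * x ^ (1 - a)) ≤ ε / 8 * x := by
      calc x ^ c * (D' * x ^ (1 - a)) = D' * (x ^ c * x ^ (1 - a)) := by ring
        _ = D' * x ^ (1 - (a - c)) := by
            rw [← Real.rpow_add hx0]
            congr 2
            ring
        _ ≤ D' * (ε / (8 * D') * x) := mul_le_mul_of_nonneg_left e2 hD'0.le
        _ = ε / 8 * x := by field_simp
    linarith
  have h1x : 1 + x ≤ Real.exp (ε / 8 * x) := by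
    rw [← Real.log_le_iff_le_exp (by linarith)]
    exact e3
  set F := Real.exp (((3 + c) / 4 + ε) * x) with hF
  have hhalf : Real.exp (((3 + c) / 4 + ε) * x - Real.log 2) = F / 2 := by
    rw [Real.exp_sub, Real.exp_log (by norm_num)]
  have hl2 : Real.log 2 ≤ 1 := by
    have := Real.log_two_lt_d9
    linarith
  have hεx : 0 < ε * x := by positivity
  have hcx : 0 ≤ c * x := by positivity
  have t1 : 2 * Real.exp (3 / 4 * x) ≤ F / 2 := by
    rw [← hhalf]
    have g : (2 : ℝ) = Real.exp (Real.log 2) := (Real.exp_log (by norm_num)).symm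
    calc 2 * Real.exp (3 / 4 * x) = Real.exp (Real.log 2) * Real.exp (3 / 4 * x) := by rw [← g]
      _ = Real.exp (Real.log 2 + 3 / 4 * x) := by rw [Real.exp_add]
      _ ≤ _ := by
          rw [Real.exp_le_exp]
          have : ((3 + c) / 4 + ε) * x = 3 / 4 * x + 1 / 4 * (c * x) + ε * x := by ring
          rw [this]
          linarith
  have t2 : Real.exp ((3 + a) / 4 * x) *
      (A ^ k * Real.exp (B * Real.exp (D * (w : ℝ) ^ (1 - a)) / A) * (1 + x)) ≤ F / 2 := by
    rw [← hhalf]
    calc Real.exp ((3 + a) / 4 * x) *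
        (A ^ k * Real.exp (B * Real.exp (D * (w : ℝ) ^ (1 - a)) / A) * (1 + x))
        ≤ Real.exp ((3 + a) / 4 * x) *
          (Real.exp (ε / 4 * x) * Real.exp 1 * Real.exp (ε / 8 * x)) := by
          apply mul_le_mul_of_nonneg_left _ (Real.exp_pos _).le
          apply mul_le_mul _ h1x (by linarith) (by positivity)
          exact mul_le_mul hAk (Real.exp_le_exp.2 hq) (Real.exp_pos _).le (Real.exp_pos _).le
      _ = Real.exp ((3 + a) / 4 * x + (ε / 4 * x + 1 + ε / 8 * x)) := by
          rw [Real.exp_add, Real.exp_add, Real.exp_add]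
      _ ≤ _ := by
          rw [Real.exp_le_exp]
          have g1 : a * x ≤ (c + ε) * x := mul_le_mul_of_nonneg_right hae hx0.le
          have g2 : (3 + a) / 4 * x = 3 / 4 * x + 1 / 4 * (a * x) := by ring
          have g3 : ((3 + c) / 4 + ε) * x = 3 / 4 * x + 1 / 4 * (c * x) + ε * x := by ring
          have g4 : (c + ε) * x = c * x + ε * x := by ring
          rw [g2, g3]
          rw [g4] at g1
          linarith
  linarith

end A53
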