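import Mathlib

set_option autoImplicit false

open Finset Filter

namespace A53

private theorem asyB_ev (C δ ε : ℝ) (hC : 0 < C) (hδ : 0 < δ) (hε : 0 < ε) :
    ∀ᶠ x : ℝ in atTop,
    2 + C * (x / Real.log x) + 2 * Real.log x + 2 * (x ^ (1 - δ) * Real.log x) ≤ ε / 2 * x := by
  have h1 : ∀ᶠ x : ℝ in atTop, 2 ≤ (ε / 8) * x := by
    have ht : Tendsto (fun x : ℝ => (ε / 8) * x) atTop atTop :=
      tendsto_id.const_mul_atTop (by positivity)
    exact ht.eventually_ge_atTop _
  have h2 : ∀ᶠ x : ℝ in atTop, ‖Real.log x‖ ≤ (ε / 16) * ‖id x‖ :=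
    Real.isLittleO_log_id_atTop.bound (by positivity)
  have h3 : ∀ᶠ x : ℝ in atTop, ‖Real.log x‖ ≤ (ε / 16) * ‖x ^ δ‖ :=
    (isLittleO_log_rpow_atTop hδ).bound (by positivity)
  have h4 : ∀ᶠ x : ℝ in atTop, 8 * C / ε ≤ Real.log x :=
    Real.tendsto_log_atTop.eventually_ge_atTop _
  filter_upwards [h1, h2, h3, h4, eventually_ge_atTop (1 : ℝ)] with x h1 h2 h3 h4 hx
  have hx0 : (0 : ℝ) < x := by linarith
  have hp : 0 ≤ x ^ δ := Real.rpow_nonneg hx0.le _
  have hq : 0 ≤ x ^ (1 - δ) := Real.rpow_nonneg hx0.le _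
  rw [Real.norm_of_nonneg hp] at h3
  simp only [id, Real.norm_of_nonneg hx0.le] at h2
  have h2' : Real.log x ≤ (ε / 16) * x := (Real.le_norm_self _).trans h2
  have h3' : Real.log x ≤ (ε / 16) * x ^ δ := (Real.le_norm_self _).trans h3
  have hmul : x ^ (1 - δ) * x ^ δ = x := by
    rw [← Real.rpow_add hx0]
    simp
  have h5 : x ^ (1 - δ) * Real.log x ≤ (ε / 16) * x := by
    calc x ^ (1 - δ) * Real.log x ≤ x ^ (1 - δ) * ((ε / 16) * x ^ δ) :=
          mul_le_mul_of_nonneg_left h3' hq
      _ = (ε / 16) * (x ^ (1 - δ) * x ^ δ) := by ring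
      _ = (ε / 16) * x := by rw [hmul]
  have hlog0 : 0 < Real.log x := lt_of_lt_of_le (by positivity) h4
  have h6 : C * (x / Real.log x) ≤ ε / 8 * x := by
    rw [← mul_div_assoc, div_le_iff₀ hlog0]
    have h7 : 8 * C ≤ Real.log x * ε := by rwa [div_le_iff₀ hε] at h4
    have h8 : x * (8 * C) ≤ x * (Real.log x * ε) := mul_le_mul_of_nonneg_left h7 hx0.le
    linarith
  linarith

private theorem exp5 (a l b c d : ℝ) :
    Real.exp (a + (l + (b + c + d))) =
      Real.exp a * (Real.exp l * (Real.exp b * Real.exp c * Real.exp d)) := by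
  rw [Real.exp_add, Real.exp_add, Real.exp_add, Real.exp_add]

private theorem one_add_le_sq {x : ℝ} (hx : 2 ≤ x) : 1 + x ≤ x ^ 2 := by nlinarith

private theorem log_six_le : Real.log 6 ≤ 2 := by
  rw [Real.log_le_iff_le_exp (by norm_num)]
  have e3 : (2.7182818283 : ℝ) < Real.exp 1 := Real.exp_one_gt_d9
  have e4 : Real.exp 2 = Real.exp 1 * Real.exp 1 := by
    rw [← Real.exp_add]; norm_num
  rw [e4]
  nlinarith

/-- asymptotic choice of parameters for `tau (n - 1)`. -/
theorem asyB (B ε : ℝ) (hB : 1 ≤ B) (hε : 0 < ε) : ∀ᶠ x : ℝ in atTop,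
    ∃ (k j : ℕ) (A : ℝ), 1 ≤ A ∧
      Real.exp x * (((2 : ℝ) ^ k)⁻¹ ^ j * (1 + x) ^ (2 ^ j)) +
        Real.exp (3 / 4 * x) * (2 + A ^ k * Real.exp (3 * x ^ B / A) * (1 + x)) ≤
      Real.exp ((1 - 1 / (4 * B) + ε) * x) := by
  have hB0 : 0 < B := by linarith
  set δ := min ε (1 / 2) with hδdef
  have hδ : 0 < δ := lt_min hε (by norm_num)
  have hδε : δ ≤ ε := min_le_left _ _
  have hδ2 : δ ≤ 1 / 2 := min_le_right _ _
  set v := 1 / (4 * B) with hv
  have hv0 : 0 < v := by positivity
  have hv4 : v ≤ 1 / 4 := by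
    rw [hv]
    apply one_div_le_one_div_of_le (by norm_num)
    linarith
  have hvB : v * B = 1 / 4 := by rw [hv]; field_simp
  set M := 12 / ε + 1 with hM
  have hM1 : 1 ≤ M := by
    have : 0 ≤ 12 / ε := by positivity
    linarith
  have hM0 : 0 < M := by linarith
  have hMε : 3 / M ≤ ε / 4 := by
    rw [div_le_div_iff₀ hM0 (by norm_num)]
    have : ε * M = 12 + ε := by rw [hM]; field_simp
    linarith
  have hl2 : 0 < Real.log 2 := Real.log_pos (by norm_num)
  have hlM : 0 ≤ Real.log M := Real.log_nonneg hM1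
  set C := v * Real.log 2 + v * Real.log M with hC
  have hC0 : 0 < C := by positivity
  have hg1 : ∀ᶠ x : ℝ in atTop, 2 ≤ Real.log x := Real.tendsto_log_atTop.eventually_ge_atTop _
  have hg2 : ∀ᶠ x : ℝ in atTop, ‖Real.log x‖ ≤ v * ‖id x‖ :=
    Real.isLittleO_log_id_atTop.bound hv0
  filter_upwards [asyB_ev C δ ε hC0 hδ hε, hg1, hg2, eventually_ge_atTop (2 : ℝ)]
    with x hx hg1 hg2 hx2
  have hx0 : (0 : ℝ) < x := by linarith
  have hx1 : (1 : ℝ) ≤ x := by linarith
  have hlx : 0 < Real.log x := by linarith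
  simp only [id, Real.norm_of_nonneg hx0.le, Real.norm_of_nonneg hlx.le] at hg2
  set k := ⌊v * x / Real.log x⌋₊ with hk
  set j := ⌊(1 - δ) * Real.log x / Real.log 2⌋₊ with hj
  have h1δ : 0 < 1 - δ := by linarith
  have hkle : (k : ℝ) ≤ v * x / Real.log x := Nat.floor_le (by positivity)
  have hklt : v * x / Real.log x < k + 1 := Nat.lt_floor_add_one _
  have hjle : (j : ℝ) ≤ (1 - δ) * Real.log x / Real.log 2 := Nat.floor_le (by positivity)
  have hjlt : (1 - δ) * Real.log x / Real.log 2 < j + 1 := Nat.lt_floor_add_one _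
  have hjle' : (j : ℝ) * Real.log 2 ≤ (1 - δ) * Real.log x := by
    rwa [le_div_iff₀ hl2] at hjle
  have hjlt' : (1 - δ) * Real.log x - Real.log 2 ≤ j * Real.log 2 := by
    rw [div_lt_iff₀ hl2] at hjlt
    linarith
  -- `P`
  have h2j : (2 : ℝ) ^ j ≤ x ^ (1 - δ) := by
    have e1 : (2 : ℝ) ^ j = Real.exp ((j : ℝ) * Real.log 2) := by
      rw [mul_comm, Real.exp_mul, Real.exp_log (by norm_num), Real.rpow_natCast]
    have e2 : x ^ (1 - δ) = Real.exp ((1 - δ) * Real.log x) := by
      rw [Real.rpow_def_of_pos hx0, mul_comm]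
    rw [e1, e2, Real.exp_le_exp]
    exact hjle'
  have hlog1 : Real.log (1 + x) ≤ 2 * Real.log x := by
    have : 1 + x ≤ x ^ 2 := one_add_le_sq hx2
    calc Real.log (1 + x) ≤ Real.log (x ^ 2) := Real.log_le_log (by linarith) this
      _ = 2 * Real.log x := by rw [Real.log_pow]; norm_num
  have hlog0 : 0 ≤ Real.log (1 + x) := Real.log_nonneg (by linarith)
  have hpow : (1 + x) ^ (2 ^ j) ≤ Real.exp (2 * (x ^ (1 - δ) * Real.log x)) := by
    have e1 : (1 + x) ^ (2 ^ j) = Real.exp ((2 : ℝ) ^ j * Real.log (1 + x)) := by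
      rw [mul_comm, Real.exp_mul, Real.exp_log (by linarith)]
      rw [← Real.rpow_natCast]
      push_cast
      rfl
    rw [e1]
    apply Real.exp_le_exp.mpr
    calc (2 : ℝ) ^ j * Real.log (1 + x) ≤ x ^ (1 - δ) * (2 * Real.log x) :=
          mul_le_mul h2j hlog1 hlog0 (Real.rpow_nonneg hx0.le _)
      _ = 2 * (x ^ (1 - δ) * Real.log x) := by ring
  -- lower bound for `k * j * log 2`
  have hxl : 0 ≤ x / Real.log x := by positivity
  have hkj : v * (1 - δ) * x - v * Real.log 2 * (x / Real.log x) - Real.log x ≤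
      (k : ℝ) * (j * Real.log 2) := by
    have a0 : 0 ≤ v * x / Real.log x - 1 := by
      rw [sub_nonneg, le_div_iff₀ hlx, one_mul]
      exact hg2
    have a1 : v * x / Real.log x - 1 ≤ k := by linarith
    have b1 := hjlt'
    have b0 : 0 ≤ (j : ℝ) * Real.log 2 := by positivity
    have c1 : (v * x / Real.log x - 1) * ((1 - δ) * Real.log x - Real.log 2) ≤
        (v * x / Real.log x - 1) * (j * Real.log 2) := mul_le_mul_of_nonneg_left b1 a0
    have c2 : (v * x / Real.log x - 1) * (j * Real.log 2) ≤ k * (j * Real.log 2) :=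
      mul_le_mul_of_nonneg_right a1 b0
    have c3 : (v * x / Real.log x - 1) * ((1 - δ) * Real.log x - Real.log 2) =
        v * (1 - δ) * x - v * Real.log 2 * (x / Real.log x) - (1 - δ) * Real.log x +
          Real.log 2 := by
      field_simp
      ring
    have c4 : (1 - δ) * Real.log x ≤ Real.log x :=
      mul_le_of_le_one_left hlx.le (by linarith)
    linarith
  have h2kj : (((2 : ℝ) ^ k)⁻¹ ^ j) = Real.exp (-((k : ℝ) * (j * Real.log 2))) := by
    rw [← inv_pow, ← pow_mul, inv_pow, Real.exp_neg]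
    congr 1
    have e1 : (2 : ℝ) ^ (k * j) = Real.exp (((k * j : ℕ) : ℝ) * Real.log 2) := by
      rw [mul_comm _ (Real.log 2), Real.exp_mul, Real.exp_log (by norm_num), Real.rpow_natCast]
    rw [e1]
    push_cast
    rw [mul_assoc]
  -- first term
  have hlog2le : Real.log 2 ≤ 1 := by
    have := Real.log_two_lt_d9
    linarith
  have hCx1 : v * Real.log 2 * (x / Real.log x) ≤ C * (x / Real.log x) := by
    apply mul_le_mul_of_nonneg_right _ hxl
    rw [hC]
    have : 0 ≤ v * Real.log M := by positivity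
    linarith
  have hCx2 : v * Real.log M * (x / Real.log x) ≤ C * (x / Real.log x) := by
    apply mul_le_mul_of_nonneg_right _ hxl
    rw [hC]
    have : 0 ≤ v * Real.log 2 := by positivity
    linarith
  have hrq : 0 ≤ x ^ (1 - δ) * Real.log x := by positivity
  set F := Real.exp ((1 - v + ε) * x) with hF
  have hhalf : Real.exp ((1 - v + ε) * x - Real.log 2) = F / 2 := by
    rw [Real.exp_sub, Real.exp_log (by norm_num)]
  have t1 : Real.exp x * (((2 : ℝ) ^ k)⁻¹ ^ j * (1 + x) ^ (2 ^ j)) ≤ F / 2 := by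
    rw [← hhalf]
    calc Real.exp x * (((2 : ℝ) ^ k)⁻¹ ^ j * (1 + x) ^ (2 ^ j))
        ≤ Real.exp x * (Real.exp (-((k : ℝ) * (j * Real.log 2))) *
          Real.exp (2 * (x ^ (1 - δ) * Real.log x))) := by
          rw [h2kj]
          apply mul_le_mul_of_nonneg_left _ (Real.exp_pos _).le
          exact mul_le_mul_of_nonneg_left hpow (Real.exp_pos _).le
      _ = Real.exp (x + (-((k : ℝ) * (j * Real.log 2)) + 2 * (x ^ (1 - δ) * Real.log x))) := by
          rw [Real.exp_add, Real.exp_add]
      _ ≤ Real.exp ((1 - v + ε) * x - Real.log 2) := by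
          rw [Real.exp_le_exp]
          have d1 : v * δ * x ≤ ε / 4 * x := by
            apply mul_le_mul_of_nonneg_right _ hx0.le
            calc v * δ ≤ 1 / 4 * ε := mul_le_mul hv4 hδε hδ.le (by norm_num)
              _ = ε / 4 := by ring
          have d2 : v * (1 - δ) * x = v * x - v * δ * x := by ring
          have d3 : 0 ≤ ε * x := by positivity
          have d4 : (1 - v + ε) * x = x - v * x + ε * x := by ring
          rw [d4]
          linarith
  -- second term
  set A := M * x ^ (B - 1) with hA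
  have hxB1 : 1 ≤ x ^ (B - 1) := Real.one_le_rpow hx1 (by linarith)
  have hA1 : 1 ≤ A := one_le_mul_of_one_le_of_one_le hM1 hxB1
  have hA0 : 0 < A := by linarith
  have hlogA : Real.log A = Real.log M + (B - 1) * Real.log x := by
    rw [hA, Real.log_mul hM0.ne' (by positivity), Real.log_rpow hx0]
  have hlogA0 : 0 ≤ Real.log A := Real.log_nonneg hA1
  have hAk : A ^ k ≤ Real.exp (v * (B - 1) * x + v * Real.log M * (x / Real.log x)) := by
    have e1 : A ^ k = Real.exp ((k : ℝ) * Real.log A) := by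
      rw [mul_comm, Real.exp_mul, Real.exp_log hA0, Real.rpow_natCast]
    rw [e1, Real.exp_le_exp]
    refine (mul_le_mul_of_nonneg_right hkle hlogA0).trans (le_of_eq ?_)
    rw [hlogA]
    field_simp
    ring
  have hTA : 3 * x ^ B / A ≤ ε / 4 * x := by
    have e1 : x ^ B = x ^ (B - 1) * x := by
      rw [← Real.rpow_add_one hx0.ne']
      congr 1
      ring
    have e2 : 3 * x ^ B / A = 3 / M * x := by
      rw [e1, hA]
      field_simp
    rw [e2]
    exact mul_le_mul_of_nonneg_right hMε hx0.le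
  have h1x : 1 + x ≤ Real.exp (2 * Real.log x) := by
    have e1 : Real.exp (2 * Real.log x) = x ^ 2 := by
      rw [mul_comm, Real.exp_mul, Real.exp_log hx0]
      norm_num
    rw [e1]
    exact one_add_le_sq hx2
  have t2 : Real.exp (3 / 4 * x) * (2 + A ^ k * Real.exp (3 * x ^ B / A) * (1 + x)) ≤ F / 2 := by
    rw [← hhalf]
    have f1 : 1 ≤ A ^ k * Real.exp (3 * x ^ B / A) * (1 + x) :=
      one_le_mul_of_one_le_of_one_le (one_le_mul_of_one_le_of_one_le (one_le_pow₀ hA1)
        (Real.one_le_exp (by positivity))) (by linarith)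
    have f2 : A ^ k * Real.exp (3 * x ^ B / A) * (1 + x) ≤
        Real.exp (v * (B - 1) * x + v * Real.log M * (x / Real.log x)) *
          Real.exp (ε / 4 * x) * Real.exp (2 * Real.log x) := by
      apply mul_le_mul _ h1x (by linarith) (by positivity)
      exact mul_le_mul hAk (Real.exp_le_exp.2 hTA) (Real.exp_pos _).le (Real.exp_pos _).le
    have f3 : (3 : ℝ) = Real.exp (Real.log 3) := (Real.exp_log (by norm_num)).symm
    calc Real.exp (3 / 4 * x) * (2 + A ^ k * Real.exp (3 * x ^ B / A) * (1 + x))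
        ≤ Real.exp (3 / 4 * x) * (3 * (Real.exp (v * (B - 1) * x +
            v * Real.log M * (x / Real.log x)) *
          Real.exp (ε / 4 * x) * Real.exp (2 * Real.log x))) := by
          apply mul_le_mul_of_nonneg_left _ (Real.exp_pos _).le
          linarith
      _ = Real.exp (3 / 4 * x + (Real.log 3 + (v * (B - 1) * x +
            v * Real.log M * (x / Real.log x) + ε / 4 * x + 2 * Real.log x))) := by
          rw [exp5, ← f3]
      _ ≤ Real.exp ((1 - v + ε) * x - Real.log 2) := by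
          rw [Real.exp_le_exp]
          have g1 : 3 / 4 * x + v * (B - 1) * x = (1 - v) * x := by
            have : v * (B - 1) = 1 / 4 - v := by rw [mul_sub, hvB, mul_one]
            rw [this]; ring
          have g2 : Real.log 3 ≤ 2 - Real.log 2 := by
            have e1 : Real.log 3 + Real.log 2 = Real.log 6 := by
              rw [← Real.log_mul (by norm_num) (by norm_num)]; norm_num
            have e2 := log_six_le
            linarith
          have g3 : (1 - v + ε) * x = (1 - v) * x + ε * x := by ring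
          have g4 : 0 ≤ ε * x := by positivity
          rw [g3]
          linarith
  refine ⟨k, j, A, hA1, ?_⟩
  linarith

end A53
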