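import Mathlib

set_option autoImplicit false

open Finset Filter

namespace A53

private theorem rpow_log_small (ρ η : ℝ) (hρ : 0 < ρ) (hη : 0 < η) : ∀ᶠ x : ℝ in atTop,
    (Real.log x) ^ (1 - ρ) ≤ η * Real.log x := by
  have h1 : ∀ᶠ x : ℝ in atTop, x ^ (-ρ) < η :=
    (tendsto_rpow_neg_atTop hρ).eventually_lt_const hη
  filter_upwards [Real.tendsto_log_atTop.eventually h1,
    Real.tendsto_log_atTop.eventually_gt_atTop 0] with x h1 hx
  rw [sub_eq_add_neg, Real.rpow_add hx, Real.rpow_one, mul_comm]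
  exact mul_le_mul_of_nonneg_right h1.le hx.le

private theorem sqrt_small (η : ℝ) (hη : 0 < η) : ∀ᶠ x : ℝ in atTop,
    x ^ (1 / 2 : ℝ) ≤ η * x := by
  have h1 : ∀ᶠ x : ℝ in atTop, x ^ (-(1 / 2) : ℝ) < η :=
    (tendsto_rpow_neg_atTop (by norm_num)).eventually_lt_const hη
  filter_upwards [h1, eventually_gt_atTop (0 : ℝ)] with x h1 hx
  have h2 : x ^ (1 / 2 : ℝ) = x ^ (-(1 / 2) : ℝ) * x := by
    rw [← Real.rpow_add_one hx.ne']
    norm_num
  rw [h2]
  exact mul_le_mul_of_nonneg_right h1.le hx.le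

private theorem log_small' (η : ℝ) (hη : 0 < η) : ∀ᶠ x : ℝ in atTop,
    Real.log (1 + x) ≤ η * x := by
  have h2 : ∀ᶠ x : ℝ in atTop, ‖Real.log x‖ ≤ (η / 2) * ‖id x‖ :=
    Real.isLittleO_log_id_atTop.bound (by positivity)
  filter_upwards [h2, eventually_ge_atTop (2 : ℝ)] with x h2 hx
  have hx0 : (0 : ℝ) < x := by linarith
  simp only [id, Real.norm_of_nonneg hx0.le] at h2
  have h2' : Real.log x ≤ (η / 2) * x := (Real.le_norm_self _).trans h2
  have : 1 + x ≤ x ^ 2 := by nlinarith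
  calc Real.log (1 + x) ≤ Real.log (x ^ 2) := Real.log_le_log (by linarith) this
    _ = 2 * Real.log x := by rw [Real.log_pow]; norm_num
    _ ≤ η * x := by linarith

/-- choice of parameters for `omega (n - 1) ≤ C * (log log N) ^ K` -/
theorem asyBs (K C ε : ℝ) (hK : 1 ≤ K) (hC : 0 < C) (hε : 0 < ε) :
    ∃ a : ℝ, 0 < a ∧ a < 1 ∧ ∀ D : ℝ, 0 < D → ∀ᶠ x : ℝ in atTop, ∀ w : ℕ,
      (w : ℝ) ≤ C * (Real.log x) ^ K →
      2 * Real.exp (3 / 4 * x) + Real.exp ((3 + a) / 4 * x) *
        (Real.exp (2 / (1 - a) * Real.exp (D * (w : ℝ) ^ (1 - a))) * (1 + x)) ≤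
      Real.exp ((1 - 1 / (4 * K) + ε) * x) := by
  have hK0 : 0 < K := by linarith
  set m := min ε (1 / (2 * K)) with hm
  have hm0 : 0 < m := lt_min hε (by positivity)
  have hmε : m ≤ ε := min_le_left _ _
  have hmK : m ≤ 1 / (2 * K) := min_le_right _ _
  have hKm : K * m ≤ 1 / 2 := by
    calc K * m ≤ K * (1 / (2 * K)) := mul_le_mul_of_nonneg_left hmK hK0.le
      _ = 1 / 2 := by field_simp
  have hK1 : 1 / K ≤ 1 := by rw [div_le_one hK0]; exact hK
  have hKpos : 0 < 1 / K := by positivity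
  set a := 1 - 1 / K + m with ha
  have ha0 : 0 < a := by rw [ha]; linarith
  have ha1 : a < 1 := by
    have : 1 / (2 * K) = 1 / K / 2 := by field_simp
    rw [this] at hmK
    rw [ha]
    linarith
  have h1a : 0 < 1 - a := by linarith
  have hKa : K * (1 - a) = 1 - K * m := by
    rw [ha]
    field_simp
    ring
  refine ⟨a, ha0, ha1, fun D hD => ?_⟩
  set B := 2 / (1 - a) with hB
  have hB0 : 0 < B := by positivity
  set D' := D * C ^ (1 - a) with hD'
  have hD'0 : 0 < D' := by positivity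
  have e1 := rpow_log_small (K * m) (1 / (2 * D')) (by positivity) (by positivity)
  have e2 := sqrt_small (ε / (8 * B)) (by positivity)
  have e3 := log_small' (ε / 8) (by positivity)
  have e4 : ∀ᶠ x : ℝ in atTop, 2 ≤ (ε / 8) * x := by
    have ht : Tendsto (fun x : ℝ => (ε / 8) * x) atTop atTop :=
      tendsto_id.const_mul_atTop (by positivity)
    exact ht.eventually_ge_atTop _
  filter_upwards [e1, e2, e3, e4, eventually_ge_atTop (1 : ℝ),
    Real.tendsto_log_atTop.eventually_gt_atTop 0] with x e1 e2 e3 e4 hx hlx w hw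
  have hx0 : 0 < x := by linarith
  have hw1 : D * (w : ℝ) ^ (1 - a) ≤ 1 / 2 * Real.log x := by
    calc D * (w : ℝ) ^ (1 - a) ≤ D * (C * (Real.log x) ^ K) ^ (1 - a) := by
          apply mul_le_mul_of_nonneg_left _ hD.le
          exact Real.rpow_le_rpow (by positivity) hw h1a.le
      _ = D' * (Real.log x) ^ (1 - K * m) := by
          rw [Real.mul_rpow hC.le (by positivity), ← Real.rpow_mul hlx.le, hKa, hD']
          ring
      _ ≤ D' * (1 / (2 * D') * Real.log x) := mul_le_mul_of_nonneg_left e1 hD'0.le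
      _ = 1 / 2 * Real.log x := by field_simp
  have hw2 : Real.exp (D * (w : ℝ) ^ (1 - a)) ≤ x ^ (1 / 2 : ℝ) := by
    rw [Real.rpow_def_of_pos hx0, Real.exp_le_exp]
    linarith
  have hw3 : B * Real.exp (D * (w : ℝ) ^ (1 - a)) ≤ ε / 8 * x := by
    calc B * Real.exp (D * (w : ℝ) ^ (1 - a)) ≤ B * (ε / (8 * B) * x) :=
          mul_le_mul_of_nonneg_left (hw2.trans e2) hB0.le
      _ = ε / 8 * x := by field_simp
  have h1x : 1 + x ≤ Real.exp (ε / 8 * x) := by
    rw [← Real.log_le_iff_le_exp (by linarith)]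
    exact e3
  set F := Real.exp ((1 - 1 / (4 * K) + ε) * x) with hF
  have hhalf : Real.exp ((1 - 1 / (4 * K) + ε) * x - Real.log 2) = F / 2 := by
    rw [Real.exp_sub, Real.exp_log (by norm_num)]
  have hl2 : Real.log 2 ≤ 1 := by
    have := Real.log_two_lt_d9
    linarith
  have hεx : 0 < ε * x := by positivity
  have h4K : 1 / (4 * K) = 1 / 4 * (1 / K) := by field_simp
  have hKx : 1 / K * x ≤ x := by
    calc 1 / K * x ≤ 1 * x := mul_le_mul_of_nonneg_right hK1 hx0.le
      _ = x := one_mul x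
  have hmx : m * x ≤ ε * x := mul_le_mul_of_nonneg_right hmε hx0.le
  have g3 : (1 - 1 / (4 * K) + ε) * x = x - 1 / 4 * (1 / K * x) + ε * x := by
    rw [h4K]; ring
  have t1 : 2 * Real.exp (3 / 4 * x) ≤ F / 2 := by
    rw [← hhalf]
    have g : (2 : ℝ) = Real.exp (Real.log 2) := (Real.exp_log (by norm_num)).symm
    calc 2 * Real.exp (3 / 4 * x) = Real.exp (Real.log 2) * Real.exp (3 / 4 * x) := by rw [← g]
      _ = Real.exp (Real.log 2 + 3 / 4 * x) := by rw [Real.exp_add]
      _ ≤ _ := by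
          rw [Real.exp_le_exp, g3]
          linarith
  have t2 : Real.exp ((3 + a) / 4 * x) *
      (Real.exp (B * Real.exp (D * (w : ℝ) ^ (1 - a))) * (1 + x)) ≤ F / 2 := by
    rw [← hhalf]
    calc Real.exp ((3 + a) / 4 * x) *
        (Real.exp (B * Real.exp (D * (w : ℝ) ^ (1 - a))) * (1 + x))
        ≤ Real.exp ((3 + a) / 4 * x) * (Real.exp (ε / 8 * x) * Real.exp (ε / 8 * x)) := by
          apply mul_le_mul_of_nonneg_left _ (Real.exp_pos _).le
          exact mul_le_mul (Real.exp_le_exp.2 hw3) h1x (by linarith) (Real.exp_pos _).le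
      _ = Real.exp ((3 + a) / 4 * x + (ε / 8 * x + ε / 8 * x)) := by
          rw [Real.exp_add, Real.exp_add]
      _ ≤ _ := by
          rw [Real.exp_le_exp, g3]
          have g2 : (3 + a) / 4 * x = x - 1 / 4 * (1 / K * x) + 1 / 4 * (m * x) := by
            rw [ha]; ring
          rw [g2]
          linarith
  linarith

end A53
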