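import Mathlib

/-!
# Orders of 2 and prime powers (base 2 pseudoprimes, MP_a53e25_nt)
-/

set_option autoImplicit false

open Finset

namespace A53

/-- the order of 2 modulo `d` -/
noncomputable def ord (d : ℕ) : ℕ := orderOf (2 : ZMod d)

lemma dvd_iff (d t : ℕ) : d ∣ 2 ^ t - 1 ↔ ord d ∣ t := by
  rw [ord, orderOf_dvd_iff_pow_eq_one, ← ZMod.natCast_eq_zero_iff,
    Nat.cast_sub Nat.one_le_two_pow]
  push_cast
  exact sub_eq_zero

lemma ord_dvd_ord {q d : ℕ} (h : q ∣ d) : ord q ∣ ord d :=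
  (dvd_iff q _).1 (h.trans ((dvd_iff d _).2 dvd_rfl))

lemma ord_dvd_sub_one {p e : ℕ} (hp : p.Prime) (he : 0 < e) (hodd : p ≠ 2)
    (h : Nat.Coprime p (ord (p ^ e))) : ord (p ^ e) ∣ p - 1 := by
  have h2 : Nat.Coprime 2 (p ^ e) :=
    Nat.Coprime.pow_right _ ((Nat.coprime_primes Nat.prime_two hp).2 (Ne.symm hodd))
  have h3 : ord (p ^ e) ∣ Nat.totient (p ^ e) := by
    rw [ord]
    apply orderOf_dvd_of_pow_eq_one
    have h4 : ((ZMod.unitOfCoprime 2 h2 : (ZMod (p ^ e))ˣ) : ZMod (p ^ e)) ^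
        Nat.totient (p ^ e) = 1 := by
      rw [← Units.val_pow_eq_pow_val, ZMod.pow_totient, Units.val_one]
    rw [ZMod.coe_unitOfCoprime] at h4
    exact_mod_cast h4
  rw [Nat.totient_prime_pow hp he] at h3
  exact (Nat.Coprime.pow_right _ h.symm).dvd_of_dvd_mul_left h3

lemma sub_one_dvd_pow_sub_one (p e : ℕ) : p - 1 ∣ p ^ e - 1 := by
  simpa using Nat.sub_dvd_pow_sub_pow p 1 e

/-- at most `l` prime powers divide `2 ^ l - 1` -/
lemma card_primePow' (l : ℕ) (hl : 0 < l) (A : Finset ℕ)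
    (hA : ∀ q ∈ A, IsPrimePow q ∧ q ∣ 2 ^ l - 1) : A.card ≤ l := by
  have hM : 2 ^ l - 1 ≠ 0 := by
    have : 2 ^ 1 ≤ 2 ^ l := Nat.pow_le_pow_right (by norm_num) hl
    omega
  have hsub : A ⊆ (2 ^ l - 1).divisors := by
    intro q hq
    rw [Nat.mem_divisors]
    exact ⟨(hA q hq).2, hM⟩
  have h1 : (A.card : ℝ) * Real.log 2 ≤ ∑ q ∈ A, ArithmeticFunction.vonMangoldt q := by
    rw [← nsmul_eq_mul]
    apply Finset.card_nsmul_le_sum
    intro q hq
    rw [ArithmeticFunction.vonMangoldt_apply, if_pos (hA q hq).1]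
    apply Real.log_le_log (by norm_num)
    have h2 : q ≠ 1 := (hA q hq).1.ne_one
    exact_mod_cast (Nat.minFac_prime h2).two_le
  have h2 : ∑ q ∈ A, ArithmeticFunction.vonMangoldt q ≤
      ∑ q ∈ (2 ^ l - 1).divisors, ArithmeticFunction.vonMangoldt q :=
    Finset.sum_le_sum_of_subset_of_nonneg hsub
      (fun _ _ _ => ArithmeticFunction.vonMangoldt_nonneg)
  rw [ArithmeticFunction.vonMangoldt_sum] at h2
  have h3 : Real.log ((2 ^ l - 1 : ℕ) : ℝ) ≤ l * Real.log 2 := by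
    rw [← Real.log_pow]
    apply Real.log_le_log
    · exact_mod_cast Nat.pos_of_ne_zero hM
    · have : ((2 ^ l - 1 : ℕ) : ℝ) ≤ ((2 ^ l : ℕ) : ℝ) := by exact_mod_cast Nat.sub_le _ _
      exact this.trans (le_of_eq (by push_cast; ring))
  have h4 : 0 < Real.log 2 := Real.log_pos (by norm_num)
  have h5 : (A.card : ℝ) * Real.log 2 ≤ l * Real.log 2 := by linarith
  exact_mod_cast le_of_mul_le_mul_right h5 h4

/-- at most `l` prime powers have order `l` -/
lemma card_primePow (l : ℕ) (hl : 0 < l) (A : Finset ℕ)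
    (hA : ∀ q ∈ A, IsPrimePow q ∧ ord q = l) : A.card ≤ l :=
  card_primePow' l hl A fun q hq =>
    ⟨(hA q hq).1, (dvd_iff q l).2 (by rw [(hA q hq).2])⟩

lemma sum_Icc_inv_sqrt (m : ℕ) : ∑ i ∈ Icc 1 m, 1 / Real.sqrt i ≤ 2 * Real.sqrt m := by
  induction m with
  | zero => simp
  | succ m ih =>
    rw [Finset.sum_Icc_succ_top (by omega)]
    have h1 : 0 < Real.sqrt ((m + 1 : ℕ) : ℝ) := Real.sqrt_pos.2 (by positivity)
    have h2 : Real.sqrt ((m + 1 : ℕ) : ℝ) ^ 2 = (m : ℝ) + 1 := by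
      rw [Real.sq_sqrt (by positivity)]; push_cast; ring
    have h3 : Real.sqrt (m : ℝ) ^ 2 = (m : ℝ) := Real.sq_sqrt (by positivity)
    have h4 : 0 ≤ Real.sqrt (m : ℝ) := Real.sqrt_nonneg _
    have h5 : 1 / Real.sqrt ((m + 1 : ℕ) : ℝ) ≤
        2 * Real.sqrt ((m + 1 : ℕ) : ℝ) - 2 * Real.sqrt m := by
      rw [div_le_iff₀ h1]
      nlinarith [sq_nonneg (Real.sqrt ((m + 1 : ℕ) : ℝ) - Real.sqrt m)]
    linarith

lemma sum_inv_sqrt (B : Finset ℕ) (m : ℕ) (h1 : ∀ i ∈ B, 1 ≤ i) (h2 : B.card ≤ m) :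
    ∑ i ∈ B, 1 / Real.sqrt i ≤ 3 * Real.sqrt m := by
  rcases Nat.eq_zero_or_pos m with h0 | hm
  · have : B = ∅ := by
      apply Finset.card_eq_zero.1; omega
    subst this
    simp [h0]
  rw [← Finset.sum_filter_add_sum_filter_not B (fun i => i ≤ m)]
  have h3 : ∑ i ∈ B.filter (fun i => i ≤ m), 1 / Real.sqrt i ≤ 2 * Real.sqrt m := by
    refine le_trans (Finset.sum_le_sum_of_subset_of_nonneg (t := Icc 1 m) ?_ ?_)
      (sum_Icc_inv_sqrt m)
    · intro i hi
      rw [mem_filter] at hi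
      rw [mem_Icc]
      exact ⟨h1 i hi.1, hi.2⟩
    · intros; positivity
  have hs : 0 < Real.sqrt (m : ℝ) := Real.sqrt_pos.2 (by exact_mod_cast hm)
  have h4 : ∑ i ∈ B.filter (fun i => ¬ i ≤ m), 1 / Real.sqrt i ≤ Real.sqrt m := by
    have h5 : ∑ i ∈ B.filter (fun i => ¬ i ≤ m), 1 / Real.sqrt i ≤
        (B.filter (fun i => ¬ i ≤ m)).card • (1 / Real.sqrt (m : ℝ)) := by
      apply Finset.sum_le_card_nsmul
      intro i hi
      rw [mem_filter] at hi
      apply one_div_le_one_div_of_le hs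
      apply Real.sqrt_le_sqrt
      exact_mod_cast (not_le.1 hi.2).le
    have h6 : ((B.filter (fun i => ¬ i ≤ m)).card : ℝ) ≤ m := by
      exact_mod_cast (Finset.card_filter_le _ _).trans h2
    rw [nsmul_eq_mul] at h5
    calc _ ≤ _ := h5
      _ ≤ (m : ℝ) * (1 / Real.sqrt m) := by
        apply mul_le_mul_of_nonneg_right h6; positivity
      _ = Real.sqrt m := by
        rw [mul_one_div, div_eq_iff hs.ne', ← sq, Real.sq_sqrt (by positivity)]
  linarith

/-- the prime powers of given order have a bounded sum of `q ^ (-1/2)` -/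
lemma sum_order (l : ℕ) (hl : 0 < l) (A : Finset ℕ)
    (hA : ∀ q ∈ A, IsPrimePow q ∧ ord q = l ∧ l ∣ q - 1) :
    ∑ q ∈ A, 1 / Real.sqrt q ≤ 3 := by
  have hc : A.card ≤ l := card_primePow l hl A (fun q hq => ⟨(hA q hq).1, (hA q hq).2.1⟩)
  have hq1 : ∀ q ∈ A, 1 < q := fun q hq => (hA q hq).1.one_lt
  have hqe : ∀ q ∈ A, l * ((q - 1) / l) = q - 1 := fun q hq => Nat.mul_div_cancel' (hA q hq).2.2
  have hinj : Set.InjOn (fun q => (q - 1) / l) (A : Set ℕ) := by
    intro q hq q' hq' h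
    have h1 := hqe q hq
    have h2 := hqe q' hq'
    have h3 := hq1 q hq
    have h4 := hq1 q' hq'
    simp only at h
    rw [h] at h1
    omega
  have hB := sum_inv_sqrt (A.image (fun q => (q - 1) / l)) l (by
      intro i hi
      rw [mem_image] at hi
      obtain ⟨q, hq, rfl⟩ := hi
      have h1 := hqe q hq
      have h3 := hq1 q hq
      refine Nat.pos_of_ne_zero fun h5 => ?_
      rw [h5] at h1
      omega) ((Finset.card_image_le).trans hc)
  rw [Finset.sum_image hinj] at hB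
  have hls : 0 < Real.sqrt (l : ℝ) := Real.sqrt_pos.2 (by exact_mod_cast hl)
  have h6 : ∑ q ∈ A, 1 / Real.sqrt q ≤
      ∑ q ∈ A, (1 / Real.sqrt l) * (1 / Real.sqrt (((q - 1) / l : ℕ) : ℝ)) := by
    apply Finset.sum_le_sum
    intro q hq
    have h1 := hqe q hq
    have h3 := hq1 q hq
    have h5 : 0 < (q - 1) / l := by
      refine Nat.pos_of_ne_zero fun h5 => ?_
      rw [h5] at h1
      omega
    rw [one_div_mul_one_div, ← Real.sqrt_mul (by positivity)]
    apply one_div_le_one_div_of_le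
    · apply Real.sqrt_pos.2
      positivity
    · apply Real.sqrt_le_sqrt
      have : l * ((q - 1) / l) ≤ q := by omega
      exact_mod_cast this
  rw [← Finset.mul_sum] at h6
  calc _ ≤ _ := h6
    _ ≤ (1 / Real.sqrt l) * (3 * Real.sqrt l) := by
      apply mul_le_mul_of_nonneg_left hB; positivity
    _ = 3 := by field_simp

/-- the prime powers `q` with `ord q ∣ L` -/
noncomputable def QL (N L : ℕ) : Finset ℕ := by
  classical exact (Icc 1 N).filter (fun q => IsPrimePow q ∧ ord q ∣ L ∧ ord q ∣ q - 1)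

lemma sum_QL (N L : ℕ) (hL : 0 < L) :
    ∑ q ∈ QL N L, 1 / Real.sqrt q ≤ 3 * L.divisors.card := by
  classical
  have h1 : ∀ q ∈ QL N L, ord q ∈ L.divisors := by
    intro q hq
    simp only [QL, mem_filter] at hq
    rw [Nat.mem_divisors]
    exact ⟨hq.2.2.1, hL.ne'⟩
  rw [← Finset.sum_fiberwise_of_maps_to h1]
  have h2 : ∀ l ∈ L.divisors, ∑ q ∈ (QL N L).filter (fun q => ord q = l), 1 / Real.sqrt q ≤ 3 := by
    intro l hl
    apply sum_order l (Nat.pos_of_mem_divisors hl)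
    intro q hq
    simp only [QL, mem_filter] at hq
    refine ⟨hq.1.2.1, hq.2, ?_⟩
    rw [← hq.2]
    exact hq.1.2.2.2
  refine (Finset.sum_le_sum h2).trans ?_
  rw [Finset.sum_const, nsmul_eq_mul, mul_comm]

end A53
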