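import Mathlib

/-!
# Moments of the divisor function with weight `1 / L`
-/

set_option autoImplicit false

open Finset

namespace A53

lemma card_divisors_mul_le (a b : ℕ) (ha : a ≠ 0) (hb : b ≠ 0) :
    (a * b).divisors.card ≤ a.divisors.card * b.divisors.card := by
  rw [← Finset.card_product]
  have : (a * b).divisors ⊆ (a.divisors ×ˢ b.divisors).image (fun x => x.1 * x.2) := by
    intro d hd
    have h1 := Nat.dvd_of_mem_divisors hd
    obtain ⟨k1, k2, h2, h3, h4⟩ := Nat.dvd_mul.1 h1
    rw [mem_image]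
    exact ⟨(k1, k2), mem_product.2 ⟨Nat.mem_divisors.2 ⟨h2, ha⟩, Nat.mem_divisors.2 ⟨h3, hb⟩⟩, h4⟩
  exact (Finset.card_le_card this).trans Finset.card_image_le

lemma sum_tau (N k : ℕ) :
    ∑ L ∈ Icc 1 N, (L.divisors.card : ℝ) ^ k / L ≤ (1 + Real.log N) ^ (2 ^ k) := by
  induction k with
  | zero =>
    have h := harmonic_le_one_add_log N
    rw [harmonic_eq_sum_Icc] at h
    push_cast at h
    simpa [one_div] using h
  | succ k ih =>
    set f : ℕ → ℝ := fun a => (a.divisors.card : ℝ) ^ k / a with hf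
    have hf0 : ∀ a, 0 ≤ f a := fun a => by simp only [hf]; positivity
    set R := (Icc 1 N ×ˢ Icc 1 N).filter (fun x : ℕ × ℕ => x.1 * x.2 ≤ N) with hR
    have h1 : ∑ x ∈ R, f x.1 * f x.2 ≤ (∑ a ∈ Icc 1 N, f a) * ∑ b ∈ Icc 1 N, f b := by
      rw [Finset.sum_mul_sum, ← Finset.sum_product']
      exact Finset.sum_le_sum_of_subset_of_nonneg (Finset.filter_subset _ _)
        (fun x _ _ => mul_nonneg (hf0 _) (hf0 _))
    have hmaps : ∀ x ∈ R, x.1 * x.2 ∈ Icc 1 N := by
      intro x hx
      rw [hR, mem_filter, mem_product, mem_Icc, mem_Icc] at hx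
      rw [mem_Icc]
      exact ⟨Nat.mul_pos hx.1.1.1 hx.1.2.1, hx.2⟩
    have h2 : ∑ L ∈ Icc 1 N, (L.divisors.card : ℝ) ^ (k + 1) / L ≤ ∑ x ∈ R, f x.1 * f x.2 := by
      rw [← Finset.sum_fiberwise_of_maps_to hmaps]
      apply Finset.sum_le_sum
      intro L hL
      rw [mem_Icc] at hL
      have hcard : L.divisors.card ≤ (R.filter (fun x => x.1 * x.2 = L)).card := by
        apply Finset.card_le_card_of_injOn (fun a => (a, L / a))
        · intro a ha
          have h3 := Nat.dvd_of_mem_divisors ha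
          have h4 : 0 < a := Nat.pos_of_dvd_of_pos h3 hL.1
          have h5 : a * (L / a) = L := Nat.mul_div_cancel' h3
          have h6 : 0 < L / a := Nat.div_pos (Nat.le_of_dvd hL.1 h3) h4
          simp only [hR, coe_filter, mem_filter, mem_product, mem_Icc, Set.mem_ofPred_eq]
          refine ⟨⟨⟨⟨h4, (Nat.le_of_dvd hL.1 h3).trans hL.2⟩, h6, (Nat.div_le_self _ _).trans hL.2⟩,
            by rw [h5]; exact hL.2⟩, h5⟩
        · intro a _ b _ h
          exact (Prod.mk.inj h).1
      have hterm : ∀ x ∈ R.filter (fun x => x.1 * x.2 = L),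
          (L.divisors.card : ℝ) ^ k / L ≤ f x.1 * f x.2 := by
        intro x hx
        rw [mem_filter, hR, mem_filter, mem_product, mem_Icc, mem_Icc] at hx
        obtain ⟨⟨⟨⟨h3, _⟩, h4, _⟩, _⟩, h5⟩ := hx
        simp only [hf]
        rw [div_mul_div_comm, ← mul_pow, ← h5]
        have h6 : (0 : ℝ) < (x.1 : ℝ) * (x.2 : ℝ) := by
          have : (0 : ℝ) < (x.1 : ℝ) := by exact_mod_cast h3
          have : (0 : ℝ) < (x.2 : ℝ) := by exact_mod_cast h4
          positivity
        push_cast
        apply div_le_div_of_nonneg_right _ h6.le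
        apply pow_le_pow_left₀ (by positivity)
        exact_mod_cast card_divisors_mul_le x.1 x.2 (by omega) (by omega)
      have h3 := Finset.card_nsmul_le_sum _ _ _ hterm
      rw [nsmul_eq_mul] at h3
      refine le_trans ?_ h3
      rw [pow_succ, mul_comm ((L.divisors.card : ℝ) ^ k), mul_div_assoc]
      apply mul_le_mul_of_nonneg_right
      · exact_mod_cast hcard
      · positivity
    refine h2.trans (h1.trans ?_)
    rw [pow_succ 2 k, pow_mul, sq]
    have h7 : 0 ≤ ∑ a ∈ Icc 1 N, f a := Finset.sum_nonneg fun a _ => hf0 a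
    exact mul_le_mul ih ih h7 (h7.trans ih)

end A53
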