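import Pool.Agent.Lib.A53.Gen
import Pool.Agent.Lib.A53.Tau

/-!
# Counting base 2 pseudoprimes
-/

set_option autoImplicit false

open Finset

namespace A53

lemma psp_ord {n d : ℕ} (h : Nat.FermatPsp n 2) (hd : d ∣ n) : ord d ∣ n - 1 :=
  (dvd_iff d (n - 1)).1 (hd.trans h.1)

lemma psp_good {n d : ℕ} (h : Nat.FermatPsp n 2) (hd : d ∣ n) : Good d := by
  have hn : 1 < n := h.2.2
  have h1 := psp_ord h hd
  refine ⟨Nat.pos_of_dvd_of_pos hd (by omega), Nat.pos_of_dvd_of_pos h1 (by omega), ?_⟩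
  have h2 : Nat.Coprime n (n - 1) := by
    have h3 : Nat.gcd n (n - 1) ∣ n - (n - 1) :=
      Nat.dvd_sub (Nat.gcd_dvd_left _ _) (Nat.gcd_dvd_right _ _)
    have h4 : n - (n - 1) = 1 := by omega
    rw [h4] at h3
    exact Nat.dvd_one.1 h3
  exact Nat.Coprime.coprime_dvd_left hd (Nat.Coprime.coprime_dvd_right h1 h2)

/-- a divisor between `n ^ (1/2)` and `n ^ (3/4)`, or a prime factor beyond `n ^ (3/4)` -/
lemma exists_divisor {n : ℕ} (hn : 1 < n) :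
    ∃ d, d ∣ n ∧ n ≤ d ^ 2 ∧ (d ^ 4 ≤ n ^ 3 ∨ (d.Prime ∧ n ^ 3 < d ^ 4)) := by
  classical
  have hex : ∃ d, d ∣ n ∧ n ≤ d ^ 2 := ⟨n, dvd_rfl, by nlinarith⟩
  set d := Nat.find hex with hd
  obtain ⟨h1, h2⟩ := Nat.find_spec hex
  rw [← hd] at h1 h2
  have hmin : ∀ m, m ∣ n → n ≤ m ^ 2 → d ≤ m := fun m hm hm2 => Nat.find_min' hex ⟨hm, hm2⟩
  refine ⟨d, h1, h2, ?_⟩
  rcases le_or_gt (d ^ 4) (n ^ 3) with h | h
  · exact Or.inl h
  refine Or.inr ⟨?_, h⟩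
  obtain ⟨e, he⟩ := h1
  have he0 : 0 < e := by
    rcases Nat.eq_zero_or_pos e with h0 | h0
    · subst h0; omega
    · exact h0
  have hd0 : 0 < d := by
    rcases Nat.eq_zero_or_pos d with h0 | h0
    · rw [h0] at he; omega
    · exact h0
  have hd1 : d ≠ 1 := by
    intro h0
    rw [h0] at h2
    omega
  have h3 : e ^ 3 < d := by
    have h4 : d ^ 3 * e ^ 3 < d ^ 3 * d := by
      calc d ^ 3 * e ^ 3 = n ^ 3 := by rw [he]; ring
        _ < d ^ 4 := h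
        _ = d ^ 3 * d := by ring
    exact lt_of_mul_lt_mul_left h4 (by positivity)
  -- every proper quotient `a = d / p` satisfies `a ≤ e`
  have key : ∀ p a : ℕ, 1 < p → d = p * a → a ≤ e := by
    intro p a hp ha
    have ha0 : 0 < a := by
      rcases Nat.eq_zero_or_pos a with h0 | h0
      · subst h0; omega
      · exact h0
    have h5 : a < d := by rw [ha]; nlinarith
    have h6 : ¬ n ≤ a ^ 2 := fun h7 =>
      absurd (hmin a ⟨p * e, by rw [he, ha]; ring⟩ h7) (by omega)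
    push Not at h6
    have h7 : a < p * e := by
      have : a * a < a * (p * e) := by
        calc a * a = a ^ 2 := by ring
          _ < n := h6
          _ = a * (p * e) := by rw [he, ha]; ring
      exact lt_of_mul_lt_mul_left this (by positivity)
    have h8 : n ≤ (p * e) ^ 2 := by
      calc n = a * (p * e) := by rw [he, ha]; ring
        _ ≤ (p * e) * (p * e) := Nat.mul_le_mul_right _ h7.le
        _ = (p * e) ^ 2 := by ring
    have h9 : p * e ∣ n := ⟨a, by rw [he, ha]; ring⟩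
    have h10 := hmin _ h9 h8
    rw [ha] at h10
    exact le_of_mul_le_mul_left h10 (by omega)
  by_contra hnp
  set p := d.minFac with hp
  have hpp : p.Prime := Nat.minFac_prime hd1
  obtain ⟨a, ha⟩ := Nat.minFac_dvd d
  rw [← hp] at ha
  have ha1 : 1 < a := by
    rcases Nat.lt_trichotomy a 1 with h0 | h0 | h0
    · have : a = 0 := by omega
      subst this; omega
    · subst h0
      rw [mul_one] at ha
      exact absurd (ha ▸ hpp) hnp
    · exact h0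
  have h11 := key p a hpp.one_lt ha
  have h12 := key a p ha1 (by rw [ha]; ring)
  have h13 : d ≤ e * e := by rw [ha]; exact Nat.mul_le_mul h12 h11
  have h14 : e * e ≤ e ^ 3 := by
    calc e * e = e ^ 2 := by ring
      _ ≤ e ^ 3 := Nat.pow_le_pow_right he0 (by norm_num)
  omega

lemma prime_case {n p : ℕ} (h : Nat.FermatPsp n 2) (hp : p.Prime) (hpn : p ∣ n)
    (hbig : n ^ 3 < p ^ 4) : ∃ m, 2 ≤ m ∧ m ^ 4 < n ∧ n = p * m ∧ p ∣ 2 ^ (m - 1) - 1 := by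
  obtain ⟨m, hm⟩ := hpn
  have hn : 1 < n := h.2.2
  have hm0 : m ≠ 0 := by rintro rfl; omega
  have hm1 : m ≠ 1 := by
    rintro rfl
    rw [mul_one] at hm
    exact h.2.1 (hm ▸ hp)
  refine ⟨m, by omega, ?_, hm, ?_⟩
  · have h1 : n ^ 3 * m ^ 4 < n ^ 3 * n := by
      calc n ^ 3 * m ^ 4 < p ^ 4 * m ^ 4 := Nat.mul_lt_mul_of_pos_right hbig (by positivity)
        _ = n ^ 3 * n := by rw [hm]; ring
    exact lt_of_mul_lt_mul_left h1 (by positivity)
  · have hg := psp_good h (⟨m, hm⟩ : p ∣ n)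
    have hodd : p ≠ 2 := by
      rintro rfl
      exact hg.odd dvd_rfl
    have h1 : ord p ∣ p - 1 := by
      have := ord_dvd_sub_one (e := 1) hp one_pos hodd (by rw [pow_one]; exact hg.2.2)
      rwa [pow_one] at this
    have h2 : ord p ∣ n - 1 := psp_ord h ⟨m, hm⟩
    rw [dvd_iff]
    have h3 : n - 1 = m * (p - 1) + (m - 1) := by
      rw [hm]
      have hp1 := hp.one_lt
      obtain ⟨p', rfl⟩ : ∃ p', p = p' + 1 := ⟨p - 1, by omega⟩
      obtain ⟨m', rfl⟩ : ∃ m', m = m' + 1 := ⟨m - 1, by omega⟩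
      simp only [Nat.add_sub_cancel]
      have : (p' + 1) * (m' + 1) = (m' + 1) * p' + m' + 1 := by ring
      omega
    rw [h3] at h2
    exact (Nat.dvd_add_right (h1.mul_left m)).1 h2

open scoped Classical in
lemma card_prime_case (N : ℕ) :
    ((Icc 1 N).filter (fun n => Nat.FermatPsp n 2 ∧
      ∃ p, p.Prime ∧ p ∣ n ∧ n ^ 3 < p ^ 4)).card ≤ Nat.sqrt N := by
  set M := Nat.sqrt (Nat.sqrt N) with hM
  have hsub : (Icc 1 N).filter (fun n => Nat.FermatPsp n 2 ∧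
      ∃ p, p.Prime ∧ p ∣ n ∧ n ^ 3 < p ^ 4) ⊆
      (Icc 2 M).biUnion (fun m => ((2 ^ (m - 1) - 1).primeFactors).image (fun p => p * m)) := by
    intro n hn
    rw [mem_filter, mem_Icc] at hn
    obtain ⟨⟨_, hnN⟩, hpsp, p, hp, hpn, hbig⟩ := hn
    obtain ⟨m, h1, h2, h3, h4⟩ := prime_case hpsp hp hpn hbig
    rw [mem_biUnion]
    refine ⟨m, ?_, ?_⟩
    · rw [mem_Icc]
      refine ⟨h1, ?_⟩
      rw [hM, Nat.le_sqrt, Nat.le_sqrt]
      calc m * m * (m * m) = m ^ 4 := by ring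
        _ ≤ N := h2.le.trans hnN
    · rw [mem_image]
      refine ⟨p, Nat.mem_primeFactors.2 ⟨hp, h4, ?_⟩, h3.symm⟩
      have : 2 ^ 1 ≤ 2 ^ (m - 1) := Nat.pow_le_pow_right (by norm_num) (by omega)
      omega
  refine (Finset.card_le_card hsub).trans (Finset.card_biUnion_le.trans ?_)
  have hterm : ∀ m ∈ Icc 2 M,
      (((2 ^ (m - 1) - 1).primeFactors).image (fun p => p * m)).card ≤ M := by
    intro m hm
    rw [mem_Icc] at hm
    refine Finset.card_image_le.trans ?_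
    refine (card_primePow' (m - 1) (by omega) _ ?_).trans (by omega)
    intro q hq
    rw [Nat.mem_primeFactors] at hq
    exact ⟨hq.1.isPrimePow, hq.2.1⟩
  refine (Finset.sum_le_card_nsmul _ _ _ hterm).trans ?_
  rw [smul_eq_mul, Nat.card_Icc]
  calc (M + 1 - 2) * M ≤ M * M := Nat.mul_le_mul_right _ (by omega)
    _ ≤ Nat.sqrt N := Nat.sqrt_le _

lemma card_class (s : Finset ℕ) (m : ℕ) (hm : 0 < m) (U : ℝ) (hU0 : 0 ≤ U)
    (hU : ∀ n ∈ s, (n : ℝ) ≤ U) (h : ∀ n ∈ s, ∀ n' ∈ s, n % m = n' % m) :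
    (s.card : ℝ) ≤ U / m + 1 := by
  have h1 : s.card ≤ (range (⌊U / m⌋₊ + 1)).card := by
    apply Finset.card_le_card_of_injOn (fun n => n / m)
    · intro n hn
      simp only [coe_range, Set.mem_Iio]
      rw [Nat.lt_succ_iff]
      apply Nat.le_floor
      refine Nat.cast_div_le.trans ?_
      apply div_le_div_of_nonneg_right (hU n hn)
      positivity
    · intro n hn n' hn' h2
      simp only at h2
      have h3 := h n hn n' hn'
      rw [← Nat.div_add_mod n m, ← Nat.div_add_mod n' m, h2, h3]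
  rw [card_range] at h1
  have h2 : ((⌊U / m⌋₊ : ℕ) : ℝ) ≤ U / m := Nat.floor_le (by positivity)
  calc (s.card : ℝ) ≤ ((⌊U / m⌋₊ + 1 : ℕ) : ℝ) := by exact_mod_cast h1
    _ ≤ U / m + 1 := by push_cast; linarith

lemma card_fixed_divisor (N d : ℕ) (hd : 0 < d) (s : Finset ℕ)
    (hs : ∀ n ∈ s, n ≤ N ∧ Nat.FermatPsp n 2 ∧ d ∣ n ∧ n ≤ d ^ 2) (ho : 0 < ord d) :
    (s.card : ℝ) ≤ 1 + (N : ℝ) ^ (3 / 4 : ℝ) * (1 / Real.sqrt d * (1 / ord d)) := by
  rcases s.eq_empty_or_nonempty with h0 | ⟨n0, hn0⟩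
  · subst h0
    simp only [card_empty, Nat.cast_zero]
    positivity
  have hco : Nat.Coprime d (ord d) := (psp_good (hs n0 hn0).2.1 (hs n0 hn0).2.2.1).2.2
  have h1 := card_class s (d * ord d) (Nat.mul_pos hd ho)
    ((N : ℝ) ^ (3 / 4 : ℝ) * Real.sqrt d) (by positivity) ?_ ?_
  · refine h1.trans (le_of_eq ?_)
    rw [add_comm]
    congr 1
    have hds : 0 < Real.sqrt (d : ℝ) := Real.sqrt_pos.2 (by exact_mod_cast hd)
    have h2 : (d : ℝ) = Real.sqrt d * Real.sqrt d := (Real.mul_self_sqrt (by positivity)).symm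
    have ho' : (0 : ℝ) < ord d := by exact_mod_cast ho
    push_cast
    rw [div_eq_iff (by positivity)]
    calc (N : ℝ) ^ (3 / 4 : ℝ) * Real.sqrt d
        = (N : ℝ) ^ (3 / 4 : ℝ) * (1 / Real.sqrt d * (1 / ord d)) *
          ((Real.sqrt d * Real.sqrt d) * ord d) := by field_simp
      _ = _ := by rw [← h2]
  · intro n hn
    obtain ⟨h2, h3, h4, h5⟩ := hs n hn
    have hn1 : (0 : ℝ) < n := by exact_mod_cast (lt_trans Nat.zero_lt_one h3.2.2)
    have h6 : (n : ℝ) = (n : ℝ) ^ (3 / 4 : ℝ) * (n : ℝ) ^ (1 / 4 : ℝ) := by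
      rw [← Real.rpow_add hn1]; norm_num
    have h7 : (n : ℝ) ^ (1 / 4 : ℝ) ≤ Real.sqrt d := by
      calc (n : ℝ) ^ (1 / 4 : ℝ) ≤ ((d : ℝ) ^ (2 : ℕ)) ^ (1 / 4 : ℝ) := by
            apply Real.rpow_le_rpow hn1.le _ (by norm_num)
            exact_mod_cast h5
        _ = Real.sqrt d := by
            rw [Real.sqrt_eq_rpow, ← Real.rpow_natCast, ← Real.rpow_mul (by positivity)]
            norm_num
    have h8 : (n : ℝ) ^ (3 / 4 : ℝ) ≤ (N : ℝ) ^ (3 / 4 : ℝ) := by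
      apply Real.rpow_le_rpow hn1.le _ (by norm_num)
      exact_mod_cast h2
    rw [h6]
    exact mul_le_mul h8 h7 (by positivity) (by positivity)
  · intro n hn n' hn'
    obtain ⟨h2, h3, h4, h5⟩ := hs n hn
    obtain ⟨h2', h3', h4', h5'⟩ := hs n' hn'
    refine (Nat.modEq_and_modEq_iff_modEq_mul hco).1 ⟨?_, ?_⟩
    · exact ((Nat.modEq_zero_iff_dvd.2 h4).trans (Nat.modEq_zero_iff_dvd.2 h4').symm)
    · have ha : n ≡ 1 [MOD ord d] := ((Nat.modEq_iff_dvd' h3.2.2.le).2 (psp_ord h3 h4)).symm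
      have hb : n' ≡ 1 [MOD ord d] := ((Nat.modEq_iff_dvd' h3'.2.2.le).2 (psp_ord h3' h4')).symm
      exact ha.trans hb.symm

theorem main_count (N : ℕ) (P : ℕ → Prop) [DecidablePred P] (W : ℕ → ℝ)
    (hW : ∀ L, 0 < L → ∀ S : Finset ℕ, (∀ d ∈ S, ord d = L ∧ d ≤ N ∧
      ∃ n, Nat.FermatPsp n 2 ∧ P n ∧ d ∣ n) → ∑ d ∈ S, 1 / Real.sqrt d ≤ W L) :
    (((Icc 1 N).filter (fun n => Nat.FermatPsp n 2 ∧ P n)).card : ℝ) ≤
      (N : ℝ) ^ (3 / 4 : ℝ) * (2 + ∑ L ∈ Icc 1 N, W L / L) := by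
  classical
  rcases Nat.eq_zero_or_pos N with hN0 | hN0
  · subst hN0
    simp
  set X := (Icc 1 N).filter (fun n => Nat.FermatPsp n 2 ∧ P n) with hX
  set XA := (Icc 1 N).filter (fun n => Nat.FermatPsp n 2 ∧
      ∃ p, p.Prime ∧ p ∣ n ∧ n ^ 3 < p ^ 4) with hXA
  set S := (Icc 1 N).filter (fun d => d ^ 4 ≤ N ^ 3 ∧
      ∃ n, n ≤ N ∧ Nat.FermatPsp n 2 ∧ P n ∧ d ∣ n) with hS
  set F : ℕ → Finset ℕ := fun d => (Icc 1 N).filter
      (fun n => Nat.FermatPsp n 2 ∧ d ∣ n ∧ n ≤ d ^ 2) with hF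
  have hsub : X ⊆ XA ∪ S.biUnion F := by
    intro n hn
    rw [hX, mem_filter, mem_Icc] at hn
    obtain ⟨⟨h1, h2⟩, h3, h4⟩ := hn
    obtain ⟨d, h5, h6, h7⟩ := exists_divisor h3.2.2
    rw [mem_union]
    rcases h7 with h7 | h7
    · right
      rw [mem_biUnion]
      refine ⟨d, ?_, ?_⟩
      · rw [hS, mem_filter, mem_Icc]
        exact ⟨⟨Nat.pos_of_dvd_of_pos h5 (by omega), (Nat.le_of_dvd (by omega) h5).trans h2⟩,
          h7.trans (Nat.pow_le_pow_left h2 3), n, h2, h3, h4, h5⟩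
      · rw [hF, mem_filter, mem_Icc]
        exact ⟨⟨h1, h2⟩, h3, h5, h6⟩
    · left
      rw [hXA, mem_filter, mem_Icc]
      exact ⟨⟨h1, h2⟩, h3, d, h7.1, h5, h7.2⟩
  have hc1 : X.card ≤ XA.card + ∑ d ∈ S, (F d).card :=
    (Finset.card_le_card hsub).trans ((Finset.card_union_le _ _).trans
      (Nat.add_le_add_left Finset.card_biUnion_le _))
  have hN1 : (1 : ℝ) ≤ N := by exact_mod_cast hN0
  have hN34 : 0 ≤ (N : ℝ) ^ (3 / 4 : ℝ) := by positivity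
  have hA : (XA.card : ℝ) ≤ (N : ℝ) ^ (3 / 4 : ℝ) := by
    have h1 : (XA.card : ℝ) ≤ ((Nat.sqrt N : ℕ) : ℝ) := by exact_mod_cast card_prime_case N
    have h2 : ((Nat.sqrt N : ℕ) : ℝ) ≤ Real.sqrt N := Real.nat_sqrt_le_real_sqrt
    have h3 : Real.sqrt N ≤ (N : ℝ) ^ (3 / 4 : ℝ) := by
      rw [Real.sqrt_eq_rpow]
      exact Real.rpow_le_rpow_of_exponent_le hN1 (by norm_num)
    linarith
  have hSgood : ∀ d ∈ S, Good d ∧ ord d ∈ Icc 1 N := by
    intro d hd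
    rw [hS, mem_filter] at hd
    obtain ⟨_, _, n, h1, h2, _, h4⟩ := hd
    have h5 := psp_good h2 h4
    refine ⟨h5, ?_⟩
    rw [mem_Icc]
    have h6 := h2.2.2
    exact ⟨h5.2.1, (Nat.le_of_dvd (by omega) (psp_ord h2 h4)).trans (by omega)⟩
  have hB : ∀ d ∈ S, ((F d).card : ℝ) ≤
      1 + (N : ℝ) ^ (3 / 4 : ℝ) * (1 / Real.sqrt d * (1 / ord d)) := by
    intro d hd
    have hg := (hSgood d hd).1
    apply card_fixed_divisor N d hg.1 _ _ hg.2.1
    intro n hn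
    rw [hF, mem_filter, mem_Icc] at hn
    exact ⟨hn.1.2, hn.2.1, hn.2.2.1, hn.2.2.2⟩
  have hScard : (S.card : ℝ) ≤ (N : ℝ) ^ (3 / 4 : ℝ) := by
    have h1 : S ⊆ Icc 1 ⌊(N : ℝ) ^ (3 / 4 : ℝ)⌋₊ := by
      intro d hd
      rw [hS, mem_filter, mem_Icc] at hd
      rw [mem_Icc]
      refine ⟨hd.1.1, Nat.le_floor ?_⟩
      have h2 : (d : ℝ) ^ (4 : ℕ) ≤ (N : ℝ) ^ (3 : ℕ) := by exact_mod_cast hd.2.1
      calc (d : ℝ) = ((d : ℝ) ^ (4 : ℕ)) ^ (1 / 4 : ℝ) := by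
            rw [← Real.rpow_natCast, ← Real.rpow_mul (by positivity)]; norm_num
        _ ≤ ((N : ℝ) ^ (3 : ℕ)) ^ (1 / 4 : ℝ) :=
            Real.rpow_le_rpow (by positivity) h2 (by norm_num)
        _ = (N : ℝ) ^ (3 / 4 : ℝ) := by
            rw [← Real.rpow_natCast, ← Real.rpow_mul (by positivity)]; norm_num
    have h2 := Finset.card_le_card h1
    rw [Nat.card_Icc, Nat.add_sub_cancel] at h2
    exact (by exact_mod_cast h2 : (S.card : ℝ) ≤ _).trans (Nat.floor_le hN34)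
  have hsum : ∑ d ∈ S, (1 / Real.sqrt d * (1 / (ord d : ℝ))) ≤ ∑ L ∈ Icc 1 N, W L / L := by
    rw [← Finset.sum_fiberwise_of_maps_to (fun d hd => (hSgood d hd).2)]
    apply Finset.sum_le_sum
    intro L hL
    rw [mem_Icc] at hL
    have h1 := hW L hL.1 (S.filter (fun d => ord d = L)) (by
      intro d hd
      rw [mem_filter, hS, mem_filter, mem_Icc] at hd
      obtain ⟨⟨⟨_, h2⟩, _, n, _, h3, h4, h5⟩, h6⟩ := hd
      exact ⟨h6, h2, n, h3, h4, h5⟩)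
    calc ∑ d ∈ S.filter (fun d => ord d = L), (1 / Real.sqrt d * (1 / (ord d : ℝ)))
        = ∑ d ∈ S.filter (fun d => ord d = L), (1 / Real.sqrt d * (1 / (L : ℝ))) := by
          refine Finset.sum_congr rfl fun d hd => ?_
          rw [(mem_filter.1 hd).2]
      _ = (∑ d ∈ S.filter (fun d => ord d = L), 1 / Real.sqrt d) * (1 / (L : ℝ)) := by
          rw [Finset.sum_mul]
      _ ≤ W L * (1 / (L : ℝ)) := mul_le_mul_of_nonneg_right h1 (by positivity)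
      _ = W L / L := by ring
  have h3 : (X.card : ℝ) ≤ XA.card + ∑ d ∈ S, ((F d).card : ℝ) := by exact_mod_cast hc1
  have h4 : ∑ d ∈ S, ((F d).card : ℝ) ≤
      (S.card : ℝ) + (N : ℝ) ^ (3 / 4 : ℝ) * ∑ d ∈ S, (1 / Real.sqrt d * (1 / (ord d : ℝ))) := by
    refine (Finset.sum_le_sum hB).trans (le_of_eq ?_)
    rw [Finset.sum_add_distrib, ← Finset.mul_sum]
    simp
  have h5 := mul_le_mul_of_nonneg_left hsum hN34
  calc (X.card : ℝ) ≤ (N : ℝ) ^ (3 / 4 : ℝ) + ((N : ℝ) ^ (3 / 4 : ℝ) +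
        (N : ℝ) ^ (3 / 4 : ℝ) * ∑ L ∈ Icc 1 N, W L / L) := by linarith
    _ = _ := by ring

end A53
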