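import Pool.Agent.Lib.A53.Count

/-!
# Counting base 2 pseudoprimes, weight `d ^ (-s)`
-/

set_option autoImplicit false

open Finset

namespace A53

lemma card_fixed_divisor_s (N d : ℕ) (σ : ℝ) (h0 : 0 ≤ σ) (h1 : σ ≤ 1) (hd : 0 < d)
    (s : Finset ℕ)
    (hs : ∀ n ∈ s, n ≤ N ∧ Nat.FermatPsp n 2 ∧ d ∣ n ∧ n ≤ d ^ 2) (ho : 0 < ord d) :
    (s.card : ℝ) ≤ 1 + (N : ℝ) ^ ((1 + σ) / 2) * ((d : ℝ) ^ (-σ) * (1 / ord d)) := by
  rcases s.eq_empty_or_nonempty with h0 | ⟨n0, hn0⟩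
  · subst h0
    simp only [card_empty, Nat.cast_zero]
    positivity
  have hdR : (0 : ℝ) < d := by exact_mod_cast hd
  have hco : Nat.Coprime d (ord d) := (psp_good (hs n0 hn0).2.1 (hs n0 hn0).2.2.1).2.2
  have h1 := card_class s (d * ord d) (Nat.mul_pos hd ho)
    ((N : ℝ) ^ ((1 + σ) / 2) * (d : ℝ) ^ (1 - σ)) (by positivity) ?_ ?_
  · refine h1.trans (le_of_eq ?_)
    rw [add_comm]
    congr 1
    have ho' : (0 : ℝ) < ord d := by exact_mod_cast ho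
    have h2 : (d : ℝ) ^ (1 - σ) = (d : ℝ) ^ (-σ) * d := by
      rw [← Real.rpow_add_one hdR.ne']
      congr 1
      ring
    push_cast
    rw [h2, div_eq_iff (by positivity)]
    field_simp
  · intro n hn
    obtain ⟨h2, h3, h4, h5⟩ := hs n hn
    have hn1 : (0 : ℝ) < n := by exact_mod_cast (lt_trans Nat.zero_lt_one h3.2.2)
    have h6 : (n : ℝ) = (n : ℝ) ^ ((1 + σ) / 2) * (n : ℝ) ^ ((1 - σ) / 2) := by
      rw [← Real.rpow_add hn1]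
      have : (1 + σ) / 2 + (1 - σ) / 2 = 1 := by ring
      rw [this, Real.rpow_one]
    have h7 : (n : ℝ) ^ ((1 - σ) / 2) ≤ (d : ℝ) ^ (1 - σ) := by
      calc (n : ℝ) ^ ((1 - σ) / 2) ≤ ((d : ℝ) ^ (2 : ℕ)) ^ ((1 - σ) / 2) := by
            apply Real.rpow_le_rpow hn1.le _ (by linarith)
            exact_mod_cast h5
        _ = (d : ℝ) ^ (1 - σ) := by
            rw [← Real.rpow_natCast, ← Real.rpow_mul (by positivity)]
            congr 1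
            push_cast
            ring
    have h8 : (n : ℝ) ^ ((1 + σ) / 2) ≤ (N : ℝ) ^ ((1 + σ) / 2) := by
      apply Real.rpow_le_rpow hn1.le _ (by linarith)
      exact_mod_cast h2
    rw [h6]
    exact mul_le_mul h8 h7 (by positivity) (by positivity)
  · intro n hn n' hn'
    obtain ⟨h2, h3, h4, h5⟩ := hs n hn
    obtain ⟨h2', h3', h4', h5'⟩ := hs n' hn'
    refine (Nat.modEq_and_modEq_iff_modEq_mul hco).1 ⟨?_, ?_⟩
    · exact ((Nat.modEq_zero_iff_dvd.2 h4).trans (Nat.modEq_zero_iff_dvd.2 h4').symm)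
    · have ha : n ≡ 1 [MOD ord d] := ((Nat.modEq_iff_dvd' h3.2.2.le).2 (psp_ord h3 h4)).symm
      have hb : n' ≡ 1 [MOD ord d] := ((Nat.modEq_iff_dvd' h3'.2.2.le).2 (psp_ord h3' h4')).symm
      exact ha.trans hb.symm

theorem main_count_s (N : ℕ) (σ : ℝ) (hσ0 : 0 ≤ σ) (hσ1 : σ ≤ 1) (P : ℕ → Prop)
    (W : ℕ → ℝ)
    (hW : ∀ L, 0 < L → L ≤ N → ∀ S : Finset ℕ, (∀ d ∈ S, ord d = L ∧ d ≤ N ∧
      ∃ n, n ≤ N ∧ Nat.FermatPsp n 2 ∧ P n ∧ d ∣ n) → ∑ d ∈ S, (d : ℝ) ^ (-σ) ≤ W L) :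
    (({n : ℕ | n ≤ N ∧ Nat.FermatPsp n 2 ∧ P n}.ncard : ℕ) : ℝ) ≤
      2 * (N : ℝ) ^ (3 / 4 : ℝ) + (N : ℝ) ^ ((1 + σ) / 2) * ∑ L ∈ Icc 1 N, W L / L := by
  classical
  rcases Nat.eq_zero_or_pos N with hN0 | hN0
  · subst hN0
    have h : {n : ℕ | n ≤ 0 ∧ Nat.FermatPsp n 2 ∧ P n} = ∅ := by
      ext n
      simp only [Set.mem_ofPred_eq, Set.mem_empty_iff_false, iff_false]
      rintro ⟨h1, h2, _⟩
      have := h2.2.2
      omega
    have h' : Icc 1 0 = (∅ : Finset ℕ) := by simp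
    rw [h, h', sum_empty, mul_zero, add_zero]
    simp only [Set.ncard_empty, Nat.cast_zero]
    positivity
  have hset : {n : ℕ | n ≤ N ∧ Nat.FermatPsp n 2 ∧ P n} =
      ↑((Icc 1 N).filter (fun n => Nat.FermatPsp n 2 ∧ P n)) := by
    ext n
    simp only [Set.mem_ofPred_eq, coe_filter, mem_Icc]
    constructor
    · rintro ⟨h2, h3, h4⟩
      have := h3.2.2
      exact ⟨⟨by omega, h2⟩, h3, h4⟩
    · rintro ⟨h2, h3, h4⟩
      exact ⟨h2.2, h3, h4⟩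
  rw [hset, Set.ncard_coe_finset]
  set X := (Icc 1 N).filter (fun n => Nat.FermatPsp n 2 ∧ P n) with hX
  set XA := (Icc 1 N).filter (fun n => Nat.FermatPsp n 2 ∧
      ∃ p, p.Prime ∧ p ∣ n ∧ n ^ 3 < p ^ 4) with hXA
  set S := (Icc 1 N).filter (fun d => d ^ 4 ≤ N ^ 3 ∧
      ∃ n, n ≤ N ∧ Nat.FermatPsp n 2 ∧ P n ∧ d ∣ n) with hS
  set F : ℕ → Finset ℕ := fun d => (Icc 1 N).filter
      (fun n => Nat.FermatPsp n 2 ∧ d ∣ n ∧ n ≤ d ^ 2) with hF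
  have hsub : X ⊆ XA ∪ S.biUnion F := by
    intro n hn
    rw [hX, mem_filter, mem_Icc] at hn
    obtain ⟨⟨h1, h2⟩, h3, h4⟩ := hn
    obtain ⟨d, h5, h6, h7⟩ := exists_divisor h3.2.2
    rw [mem_union]
    rcases h7 with h7 | h7
    · right
      rw [mem_biUnion]
      refine ⟨d, ?_, ?_⟩
      · rw [hS, mem_filter, mem_Icc]
        exact ⟨⟨Nat.pos_of_dvd_of_pos h5 (by omega), (Nat.le_of_dvd (by omega) h5).trans h2⟩,
          h7.trans (Nat.pow_le_pow_left h2 3), n, h2, h3, h4, h5⟩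
      · rw [hF, mem_filter, mem_Icc]
        exact ⟨⟨h1, h2⟩, h3, h5, h6⟩
    · left
      rw [hXA, mem_filter, mem_Icc]
      exact ⟨⟨h1, h2⟩, h3, d, h7.1, h5, h7.2⟩
  have hc1 : X.card ≤ XA.card + ∑ d ∈ S, (F d).card :=
    (Finset.card_le_card hsub).trans ((Finset.card_union_le _ _).trans
      (Nat.add_le_add_left Finset.card_biUnion_le _))
  have hN1 : (1 : ℝ) ≤ N := by exact_mod_cast hN0
  have hN34 : 0 ≤ (N : ℝ) ^ (3 / 4 : ℝ) := by positivity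
  have hNσ : 0 ≤ (N : ℝ) ^ ((1 + σ) / 2) := by positivity
  have hA : (XA.card : ℝ) ≤ (N : ℝ) ^ (3 / 4 : ℝ) := by
    have h1 : (XA.card : ℝ) ≤ ((Nat.sqrt N : ℕ) : ℝ) := by exact_mod_cast card_prime_case N
    have h2 : ((Nat.sqrt N : ℕ) : ℝ) ≤ Real.sqrt N := Real.nat_sqrt_le_real_sqrt
    have h3 : Real.sqrt N ≤ (N : ℝ) ^ (3 / 4 : ℝ) := by
      rw [Real.sqrt_eq_rpow]
      exact Real.rpow_le_rpow_of_exponent_le hN1 (by norm_num)
    linarith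
  have hSgood : ∀ d ∈ S, Good d ∧ ord d ∈ Icc 1 N := by
    intro d hd
    rw [hS, mem_filter] at hd
    obtain ⟨_, _, n, h1, h2, _, h4⟩ := hd
    have h5 := psp_good h2 h4
    refine ⟨h5, ?_⟩
    rw [mem_Icc]
    have h6 := h2.2.2
    exact ⟨h5.2.1, (Nat.le_of_dvd (by omega) (psp_ord h2 h4)).trans (by omega)⟩
  have hB : ∀ d ∈ S, ((F d).card : ℝ) ≤
      1 + (N : ℝ) ^ ((1 + σ) / 2) * ((d : ℝ) ^ (-σ) * (1 / ord d)) := by
    intro d hd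
    have hg := (hSgood d hd).1
    apply card_fixed_divisor_s N d σ hσ0 hσ1 hg.1 _ _ hg.2.1
    intro n hn
    rw [hF, mem_filter, mem_Icc] at hn
    exact ⟨hn.1.2, hn.2.1, hn.2.2.1, hn.2.2.2⟩
  have hScard : (S.card : ℝ) ≤ (N : ℝ) ^ (3 / 4 : ℝ) := by
    have h1 : S ⊆ Icc 1 ⌊(N : ℝ) ^ (3 / 4 : ℝ)⌋₊ := by
      intro d hd
      rw [hS, mem_filter, mem_Icc] at hd
      rw [mem_Icc]
      refine ⟨hd.1.1, Nat.le_floor ?_⟩
      have h2 : (d : ℝ) ^ (4 : ℕ) ≤ (N : ℝ) ^ (3 : ℕ) := by exact_mod_cast hd.2.1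
      calc (d : ℝ) = ((d : ℝ) ^ (4 : ℕ)) ^ (1 / 4 : ℝ) := by
            rw [← Real.rpow_natCast, ← Real.rpow_mul (by positivity)]; norm_num
        _ ≤ ((N : ℝ) ^ (3 : ℕ)) ^ (1 / 4 : ℝ) :=
            Real.rpow_le_rpow (by positivity) h2 (by norm_num)
        _ = (N : ℝ) ^ (3 / 4 : ℝ) := by
            rw [← Real.rpow_natCast, ← Real.rpow_mul (by positivity)]; norm_num
    have h2 := Finset.card_le_card h1
    rw [Nat.card_Icc, Nat.add_sub_cancel] at h2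
    exact (by exact_mod_cast h2 : (S.card : ℝ) ≤ _).trans (Nat.floor_le hN34)
  have hsum : ∑ d ∈ S, ((d : ℝ) ^ (-σ) * (1 / (ord d : ℝ))) ≤ ∑ L ∈ Icc 1 N, W L / L := by
    rw [← Finset.sum_fiberwise_of_maps_to (fun d hd => (hSgood d hd).2)]
    apply Finset.sum_le_sum
    intro L hL
    rw [mem_Icc] at hL
    have h1 := hW L hL.1 hL.2 (S.filter (fun d => ord d = L)) (by
      intro d hd
      rw [mem_filter, hS, mem_filter, mem_Icc] at hd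
      obtain ⟨⟨⟨_, h2⟩, _, n, h7, h3, h4, h5⟩, h6⟩ := hd
      exact ⟨h6, h2, n, h7, h3, h4, h5⟩)
    calc ∑ d ∈ S.filter (fun d => ord d = L), ((d : ℝ) ^ (-σ) * (1 / (ord d : ℝ)))
        = ∑ d ∈ S.filter (fun d => ord d = L), ((d : ℝ) ^ (-σ) * (1 / (L : ℝ))) := by
          refine Finset.sum_congr rfl fun d hd => ?_
          rw [(mem_filter.1 hd).2]
      _ = (∑ d ∈ S.filter (fun d => ord d = L), (d : ℝ) ^ (-σ)) * (1 / (L : ℝ)) := by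
          rw [Finset.sum_mul]
      _ ≤ W L * (1 / (L : ℝ)) := mul_le_mul_of_nonneg_right h1 (by positivity)
      _ = W L / L := by ring
  have h3 : (X.card : ℝ) ≤ XA.card + ∑ d ∈ S, ((F d).card : ℝ) := by exact_mod_cast hc1
  have h4 : ∑ d ∈ S, ((F d).card : ℝ) ≤
      (S.card : ℝ) + (N : ℝ) ^ ((1 + σ) / 2) *
        ∑ d ∈ S, ((d : ℝ) ^ (-σ) * (1 / (ord d : ℝ))) := by
    refine (Finset.sum_le_sum hB).trans (le_of_eq ?_)
    rw [Finset.sum_add_distrib, ← Finset.mul_sum]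
    simp
  have h5 := mul_le_mul_of_nonneg_left hsum hNσ
  calc (X.card : ℝ) ≤ (N : ℝ) ^ (3 / 4 : ℝ) + ((N : ℝ) ^ (3 / 4 : ℝ) +
        (N : ℝ) ^ ((1 + σ) / 2) * ∑ L ∈ Icc 1 N, W L / L) := by linarith
    _ = _ := by ring

end A53
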