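import Mathlib

namespace A53

open Finset

theorem sum_coprime (f : ℕ → ℝ) (hf : ∀ x y, f (x * y) = f x * f y) {a b : ℕ}
    (ha : a ≠ 0) (hb : b ≠ 0) (h : Nat.Coprime a b) :
    ∑ d ∈ (a * b).divisors, f d = (∑ d ∈ a.divisors, f d) * ∑ d ∈ b.divisors, f d := by
  rw [sum_mul_sum, ← sum_product']
  refine sum_nbij' (fun d => (Nat.gcd d a, Nat.gcd d b)) (fun p => p.1 * p.2) ?_ ?_ ?_ ?_ ?_
  · intro d hd
    rw [mem_product, Nat.mem_divisors, Nat.mem_divisors]
    exact ⟨⟨Nat.gcd_dvd_right _ _, ha⟩, ⟨Nat.gcd_dvd_right _ _, hb⟩⟩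
  · rintro ⟨x, y⟩ hp
    rw [mem_product, Nat.mem_divisors, Nat.mem_divisors] at hp
    rw [Nat.mem_divisors]
    exact ⟨mul_dvd_mul hp.1.1 hp.2.1, mul_ne_zero ha hb⟩
  · intro d hd
    rw [Nat.mem_divisors] at hd
    change Nat.gcd d a * Nat.gcd d b = d
    rw [← Nat.Coprime.gcd_mul d h]
    exact Nat.gcd_eq_left hd.1
  · rintro ⟨x, y⟩ hp
    rw [mem_product, Nat.mem_divisors, Nat.mem_divisors] at hp
    obtain ⟨⟨hx, -⟩, ⟨hy, -⟩⟩ := hp
    have h1 : Nat.gcd (x * y) a = x := by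
      have : Nat.Coprime y a := (Nat.Coprime.coprime_dvd_right hy h).symm
      rw [Nat.Coprime.gcd_mul_right_cancel x this]
      exact Nat.gcd_eq_left hx
    have h2 : Nat.gcd (x * y) b = y := by
      have : Nat.Coprime x b := Nat.Coprime.coprime_dvd_left hx h
      rw [Nat.Coprime.gcd_mul_left_cancel y this]
      exact Nat.gcd_eq_left hy
    exact Prod.ext h1 h2
  · intro d hd
    rw [Nat.mem_divisors] at hd
    change f d = f (Nat.gcd d a) * f (Nat.gcd d b)
    rw [← hf, ← Nat.Coprime.gcd_mul d h, Nat.gcd_eq_left hd.1]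

theorem divsum {a : ℝ} (ha : 0 < a) (L : ℕ) (hL : 0 < L) :
    ∑ l ∈ L.divisors, (l : ℝ) ^ (-a) ≤
      Real.exp (1 / (1 - (2 : ℝ) ^ (-a)) * ∑ p ∈ L.primeFactors, (p : ℝ) ^ (-a)) := by
  have h2 : (2 : ℝ) ^ (-a) < 1 := Real.rpow_lt_one_of_one_lt_of_neg (by norm_num) (by linarith)
  have h2' : 0 < 1 - (2 : ℝ) ^ (-a) := by linarith
  induction L using Nat.recOnPosPrimePosCoprime with
  | prime_pow p n hp hn =>
    rw [Nat.sum_divisors_prime_pow hp, Nat.primeFactors_prime_pow hn.ne' hp, sum_singleton]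
    set x : ℝ := (p : ℝ) ^ (-a) with hx
    have hp2 : (2 : ℝ) ≤ p := by exact_mod_cast hp.two_le
    have hx0 : 0 < x := Real.rpow_pos_of_pos (by linarith) _
    have hx2 : x ≤ (2 : ℝ) ^ (-a) :=
      Real.rpow_le_rpow_of_nonpos (by norm_num) hp2 (by linarith)
    have hterm : ∀ j ∈ range (n + 1), ((p ^ j : ℕ) : ℝ) ^ (-a) = x ^ j := by
      intro j _
      rw [hx]
      push_cast
      rw [← Real.rpow_natCast, ← Real.rpow_natCast, ← Real.rpow_mul (by linarith),
        ← Real.rpow_mul (by linarith), mul_comm]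
    rw [sum_congr rfl hterm]
    have h3 : ∑ j ∈ range (n + 1), x ^ j ≤ 1 / (1 - x) := by
      rw [le_div_iff₀ (by linarith), geom_sum_mul_neg]
      have : 0 ≤ x ^ (n + 1) := by positivity
      linarith
    have h4 : 1 / (1 - x) = x / (1 - x) + 1 := by
      have : 1 - x ≠ 0 := by linarith
      field_simp
      ring
    have h5 : x / (1 - x) ≤ 1 / (1 - (2 : ℝ) ^ (-a)) * x := by
      rw [one_div, inv_mul_eq_div]
      exact div_le_div_of_nonneg_left hx0.le h2' (by linarith)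
    calc ∑ j ∈ range (n + 1), x ^ j ≤ x / (1 - x) + 1 := by rw [← h4]; exact h3
      _ ≤ Real.exp (x / (1 - x)) := Real.add_one_le_exp _
      _ ≤ _ := Real.exp_le_exp.2 h5
  | zero => omega
  | one => simp
  | coprime u v hu hv huv ihu ihv =>
    have hu0 : 0 < u := by omega
    have hv0 : 0 < v := by omega
    rw [sum_coprime (fun l : ℕ => (l : ℝ) ^ (-a)) (fun x y => by
      push_cast
      exact Real.mul_rpow (by positivity) (by positivity)) hu0.ne' hv0.ne' huv,
      Nat.Coprime.primeFactors_mul huv, sum_union (Nat.Coprime.disjoint_primeFactors huv), mul_add,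
      Real.exp_add]
    exact mul_le_mul (ihu hu0) (ihv hv0) (sum_nonneg fun _ _ => by positivity) (Real.exp_pos _).le

end A53
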