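import Mathlib

set_option autoImplicit false

open Finset Filter

namespace A53

/-- The product of `w` distinct positive integers is at least `w !`. -/
private theorem fact_le_prod : ∀ (w : ℕ) (S : Finset ℕ), S.card = w → (∀ a ∈ S, 1 ≤ a) →
    w.factorial ≤ ∏ a ∈ S, a := by
  intro w
  induction w with
  | zero =>
    intro S hS _
    rw [Finset.card_eq_zero.1 hS]
    simp
  | succ w ih =>
    intro S hS h1
    have hne : S.Nonempty := Finset.card_pos.1 (by omega)
    have hm := S.max'_mem hne
    have h2 := ih (S.erase (S.max' hne)) (by rw [Finset.card_erase_of_mem hm]; omega)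
      (fun a ha => h1 a (Finset.mem_of_mem_erase ha))
    have h3 : w + 1 ≤ S.max' hne := by
      have h4 : S ⊆ Finset.Icc 1 (S.max' hne) := fun a ha =>
        Finset.mem_Icc.2 ⟨h1 a ha, S.le_max' a ha⟩
      have h5 := Finset.card_le_card h4
      rw [Nat.card_Icc, hS] at h5
      omega
    rw [← Finset.mul_prod_erase S (fun a => a) hm, Nat.factorial_succ]
    exact Nat.mul_le_mul h3 h2

private theorem fact_omega_le {n : ℕ} (hn : 1 ≤ n) : (n.primeFactors.card).factorial ≤ n :=
  (fact_le_prod _ n.primeFactors rfl fun _ ha => (Nat.prime_of_mem_primeFactors ha).one_lt.le).trans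
    (Nat.le_of_dvd hn (Nat.prod_primeFactors_dvd n))

/-- The number of distinct prime factors. -/
theorem omega_le (δ : ℝ) (hδ : 0 < δ) : ∀ᶠ N : ℕ in atTop, ∀ n : ℕ, 1 ≤ n → n ≤ N →
    (n.primeFactors.card : ℝ) ≤ (1 + δ) * Real.log N / Real.log (Real.log N) := by
  have hd1 : 0 < 1 + δ := by linarith
  have h1 : ∀ᶠ y : ℝ in atTop, y < (1 + δ) * (y - Real.log y - 1) ∧ 0 < y := by
    have hc : 0 < δ / (2 * (1 + δ)) := by positivity
    filter_upwards [Real.isLittleO_log_id_atTop.bound hc, eventually_gt_atTop (2 * (1 + δ) / δ),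
      eventually_gt_atTop (0 : ℝ)] with y h2 h3 h4
    refine ⟨?_, h4⟩
    rw [Real.norm_eq_abs, Real.norm_eq_abs, id, abs_of_pos h4] at h2
    have h5 : Real.log y ≤ δ / (2 * (1 + δ)) * y := (le_abs_self _).trans h2
    have h6 : (1 + δ) * Real.log y ≤ δ / 2 * y := by
      have h7 := mul_le_mul_of_nonneg_left h5 hd1.le
      have h8 : (1 + δ) * (δ / (2 * (1 + δ)) * y) = δ / 2 * y := by
        field_simp
      linarith
    rw [div_lt_iff₀ hδ] at h3
    nlinarith
  have h2 : Tendsto (fun N : ℕ => Real.log (Real.log (N : ℝ))) atTop atTop :=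
    Real.tendsto_log_atTop.comp (Real.tendsto_log_atTop.comp tendsto_natCast_atTop_atTop)
  filter_upwards [h2.eventually h1] with N hN n hn1 hnN
  obtain ⟨hy1, hy0⟩ := hN
  set x : ℝ := Real.log (N : ℝ) with hx
  set y : ℝ := Real.log x with hy
  have hx0 : 0 < x := by
    rcases (Real.log_natCast_nonneg N).lt_or_eq with h | h
    · exact h
    · exfalso
      have : x = 0 := h.symm
      rw [hy, this, Real.log_zero] at hy0
      exact lt_irrefl _ hy0
  set w : ℕ := n.primeFactors.card with hw
  by_contra hcon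
  rw [not_le] at hcon
  have hK : 0 < (1 + δ) * x / y := by positivity
  have hw0 : (0 : ℝ) < w := hK.trans hcon
  -- the logarithm of `w`
  have hlog : y - Real.log y ≤ Real.log w := by
    have h3 : Real.log ((1 + δ) * x / y) ≤ Real.log w := Real.log_le_log hK hcon.le
    rw [Real.log_div (by positivity) hy0.ne', Real.log_mul hd1.ne' hx0.ne'] at h3
    have h4 : 0 ≤ Real.log (1 + δ) := Real.log_nonneg (by linarith)
    linarith
  -- the upper bound
  have hup : (w : ℝ) * (Real.log w - 1) ≤ x := by
    have h3 : (w : ℝ) ^ w / (w.factorial : ℝ) ≤ Real.exp w :=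
      Real.pow_div_factorial_le_exp (w : ℝ) hw0.le w
    have h4 : (w.factorial : ℝ) ≤ N := by
      exact_mod_cast (fact_omega_le hn1).trans hnN
    have h5 : (0 : ℝ) < (w.factorial : ℝ) := by exact_mod_cast Nat.factorial_pos w
    have h6 : (w : ℝ) ^ w ≤ Real.exp w * N := by
      rw [div_le_iff₀ h5] at h3
      exact h3.trans (mul_le_mul_of_nonneg_left h4 (Real.exp_pos _).le)
    have h7 := Real.log_le_log (pow_pos hw0 w) h6
    have hN0 : (0 : ℝ) < N := h5.trans_le h4
    rw [Real.log_pow, Real.log_mul (Real.exp_pos _).ne' hN0.ne', Real.log_exp] at h7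
    rw [mul_sub, mul_one]
    linarith
  have h8 : y / (1 + δ) < Real.log w - 1 := by
    rw [div_lt_iff₀ hd1]
    nlinarith
  have h9 : x < (w : ℝ) * (Real.log w - 1) := by
    have h10 : x = (1 + δ) * x / y * (y / (1 + δ)) := by
      field_simp
    have h11 : 0 < y / (1 + δ) := by positivity
    calc x = (1 + δ) * x / y * (y / (1 + δ)) := h10
      _ < w * (y / (1 + δ)) := mul_lt_mul_of_pos_right hcon h11
      _ ≤ w * (Real.log w - 1) := mul_le_mul_of_nonneg_left h8.le hw0.le
  linarith

end A53
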