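import Pool.Agent.Lib.A53.FewP
import Pool.Agent.Lib.A53.Omega
import Pool.Agent.Lib.A53.Asy2

/-!
# Few divisors of `n - 1`, asymptotic form
-/

set_option autoImplicit false

open Finset Filter

namespace A53

theorem few_divisors_asy (ε η : ℝ) (hε : 0 ≤ ε) (hη : ε < η) : ∀ᶠ N : ℕ in atTop,
    (({n : ℕ | n ≤ N ∧ Nat.FermatPsp n 2 ∧
      ((n - 1).divisors.card : ℝ) ≤ (Real.log N) ^ (1 + ε)}.ncard : ℕ) : ℝ) ≤
      (N : ℝ) ^ (3 / 4 + η) := by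
  obtain ⟨δ, hδ, M, hM, h0⟩ := asy2 ε η hε hη
  have h1 : Tendsto (fun N : ℕ => Real.log (N : ℝ)) atTop atTop :=
    Real.tendsto_log_atTop.comp tendsto_natCast_atTop_atTop
  filter_upwards [h1.eventually h0, omega_le δ hδ, eventually_ge_atTop 1] with N h2 h3 hN
  have hNpos : (0 : ℝ) < N := by exact_mod_cast hN
  set B := (1 + δ) * Real.log N / Real.log (Real.log N) with hB
  have hB0 : 0 ≤ B := le_trans (by positivity) (h3 1 le_rfl hN)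
  obtain ⟨h5, h6⟩ := h2 ⌊B⌋₊ (Nat.floor_le hB0)
  have h4 : {n : ℕ | n ≤ N ∧ Nat.FermatPsp n 2 ∧
        ((n - 1).divisors.card : ℝ) ≤ (Real.log N) ^ (1 + ε)} =
      {n : ℕ | n ≤ N ∧ Nat.FermatPsp n 2 ∧ n.primeFactors.card ≤ ⌊B⌋₊ ∧
        ((n - 1).divisors.card : ℝ) ≤ (Real.log N) ^ (1 + ε)} := by
    ext n
    simp only [Set.mem_ofPred_eq]
    constructor
    · rintro ⟨h7, h8, h9⟩
      exact ⟨h7, h8, Nat.le_floor (h3 n h8.2.2.le h7), h9⟩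
    · rintro ⟨h7, h8, _, h9⟩
      exact ⟨h7, h8, h9⟩
  rw [h4]
  refine (few_divisors N ⌊B⌋₊ _ _ h5).trans ?_
  rw [exp_mul_log_nat hN] at h6
  rw [Real.rpow_add hNpos]
  exact mul_le_mul_of_nonneg_left h6 (by positivity)

end A53
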