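import Pool.Agent.Lib.A53.Main
import Pool.Agent.Lib.A53.Asy1

/-!
# Few prime factors, asymptotic form
-/

set_option autoImplicit false

open Finset Filter

namespace A53

lemma exp_mul_log_nat {N : ℕ} (hN : 1 ≤ N) (c : ℝ) :
    Real.exp (c * Real.log N) = (N : ℝ) ^ c := by
  rw [Real.rpow_def_of_pos (by exact_mod_cast hN), mul_comm]

theorem few_primes_asy (ε : ℝ) (hε : 0 < ε) : ∀ᶠ N : ℕ in atTop,
    (({n : ℕ | n ≤ N ∧ Nat.FermatPsp n 2 ∧
      (n.primeFactors.card : ℝ) ≤ (1 - ε) * Real.log (Real.log N) / Real.log 2}.ncard : ℕ) : ℝ) ≤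
      (N : ℝ) ^ (3 / 4 + ε) := by
  have h1 : Tendsto (fun N : ℕ => Real.log (N : ℝ)) atTop atTop :=
    Real.tendsto_log_atTop.comp tendsto_natCast_atTop_atTop
  filter_upwards [h1.eventually (asy1 ε hε), eventually_ge_atTop 1] with N h2 hN
  have hNpos : (0 : ℝ) < N := by exact_mod_cast hN
  set B := (1 - ε) * Real.log (Real.log N) / Real.log 2 with hB
  rcases lt_or_ge B 0 with hB0 | hB0
  · have h3 : {n : ℕ | n ≤ N ∧ Nat.FermatPsp n 2 ∧ (n.primeFactors.card : ℝ) ≤ B} = ∅ := by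
      ext n
      simp only [Set.mem_ofPred_eq, Set.mem_empty_iff_false, iff_false]
      rintro ⟨_, _, h4⟩
      have : (0 : ℝ) ≤ n.primeFactors.card := by positivity
      linarith
    rw [h3]
    simp only [Set.ncard_empty, Nat.cast_zero]
    positivity
  have h4 : {n : ℕ | n ≤ N ∧ Nat.FermatPsp n 2 ∧ (n.primeFactors.card : ℝ) ≤ B} =
      {n : ℕ | n ≤ N ∧ Nat.FermatPsp n 2 ∧ n.primeFactors.card ≤ ⌊B⌋₊} := by
    ext n
    simp only [Set.mem_ofPred_eq, Nat.le_floor_iff hB0]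
  rw [h4]
  refine (few_primes N ⌊B⌋₊).trans ?_
  have h5 := h2 ⌊B⌋₊ (Nat.floor_le hB0)
  rw [exp_mul_log_nat hN] at h5
  rw [Real.rpow_add hNpos]
  exact mul_le_mul_of_nonneg_left h5 (by positivity)

end A53
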