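import Pool.Agent.Lib.A53.Basic

/-!
# Sums of `d ^ (-1/2)` over the `d` with given order of 2
-/

set_option autoImplicit false

open Finset

namespace A53

/-- products of at most `k` elements of `Q` -/
def Dk (Q : Finset ℕ) : ℕ → Finset ℕ
  | 0 => {1}
  | k + 1 => ((Dk Q k) ×ˢ (insert 1 Q)).image (fun x => x.1 * x.2)

lemma one_mem_Dk (Q : Finset ℕ) (k : ℕ) : 1 ∈ Dk Q k := by
  induction k with
  | zero => simp [Dk]
  | succ k ih =>
    simp only [Dk, mem_image, mem_product]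
    exact ⟨(1, 1), ⟨ih, mem_insert_self _ _⟩, rfl⟩

lemma mul_mem_Dk (Q : Finset ℕ) (k d q : ℕ) (hd : d ∈ Dk Q k) (hq : q ∈ Q) :
    q * d ∈ Dk Q (k + 1) := by
  simp only [Dk, mem_image, mem_product]
  exact ⟨(d, q), ⟨hd, mem_insert_of_mem hq⟩, mul_comm _ _⟩

lemma sum_Dk (Q : Finset ℕ) (s : ℝ) (hs : ∑ q ∈ Q, 1 / Real.sqrt q ≤ s) (k : ℕ) :
    ∑ d ∈ Dk Q k, 1 / Real.sqrt d ≤ (1 + s) ^ k := by
  induction k with
  | zero => simp [Dk]
  | succ k ih =>
    have h0 : ∑ q ∈ insert 1 Q, 1 / Real.sqrt q ≤ 1 + s := by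
      by_cases h1 : (1 : ℕ) ∈ Q
      · rw [insert_eq_of_mem h1]; linarith
      · rw [sum_insert h1]; simpa using hs
    have h0' : 0 ≤ ∑ q ∈ insert 1 Q, 1 / Real.sqrt (q : ℝ) :=
      Finset.sum_nonneg (fun _ _ => by positivity)
    have h1 : ∑ d ∈ Dk Q (k + 1), 1 / Real.sqrt d ≤
        ∑ x ∈ (Dk Q k) ×ˢ (insert 1 Q), 1 / Real.sqrt ((x.1 * x.2 : ℕ) : ℝ) := by
      simp only [Dk]
      exact Finset.sum_image_le_of_nonneg (f := fun d : ℕ => 1 / Real.sqrt (d : ℝ))
        (fun _ _ => by positivity)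
    have h2 : ∑ x ∈ (Dk Q k) ×ˢ (insert 1 Q), 1 / Real.sqrt ((x.1 * x.2 : ℕ) : ℝ) =
        (∑ d ∈ Dk Q k, 1 / Real.sqrt d) * ∑ q ∈ insert 1 Q, 1 / Real.sqrt q := by
      rw [Finset.sum_mul_sum, Finset.sum_product]
      refine Finset.sum_congr rfl fun a _ => Finset.sum_congr rfl fun b _ => ?_
      push_cast
      rw [Real.sqrt_mul (by positivity), one_div_mul_one_div]
    rw [h2] at h1
    refine h1.trans ?_
    rw [pow_succ]
    exact mul_le_mul ih h0 h0' (le_trans (Finset.sum_nonneg (fun _ _ => by positivity)) ih)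

/-- `d` is coprime to the (positive) order of 2 modulo `d` -/
def Good (d : ℕ) : Prop := 0 < d ∧ 0 < ord d ∧ Nat.Coprime d (ord d)

lemma Good.of_dvd {d d' : ℕ} (h : Good d) (hd : d' ∣ d) : Good d' := by
  refine ⟨Nat.pos_of_dvd_of_pos hd h.1, Nat.pos_of_dvd_of_pos (ord_dvd_ord hd) h.2.1, ?_⟩
  exact Nat.Coprime.coprime_dvd_left hd
    (Nat.Coprime.coprime_dvd_right (ord_dvd_ord hd) h.2.2)

lemma Good.odd {d : ℕ} (h : Good d) : ¬ 2 ∣ d := by
  intro h2
  have h3 := (dvd_iff d (ord d)).2 dvd_rfl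
  have h4 : 2 ∣ 2 ^ ord d - 1 := h2.trans h3
  have h5 : 2 ∣ 2 ^ ord d := dvd_pow_self 2 h.2.1.ne'
  have h6 : 1 ≤ 2 ^ ord d := Nat.one_le_two_pow
  omega

/-- the prime power components of a good `d` are in `QL` -/
lemma mem_QL {d p N L : ℕ} (h : Good d) (hN : d ≤ N) (hL : ord d ∣ L) (hp : p.Prime)
    (hpd : p ∣ d) : ordProj[p] d ∈ QL N L := by
  classical
  have he : 0 < d.factorization p := hp.factorization_pos_of_dvd h.1.ne' hpd
  have hq : ordProj[p] d ∣ d := Nat.ordProj_dvd d p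
  have hg := h.of_dvd hq
  have hodd : p ≠ 2 := by
    rintro rfl
    exact h.odd hpd
  have h1 : ord (ordProj[p] d) ∣ p - 1 := by
    apply ord_dvd_sub_one hp he hodd
    exact Nat.Coprime.coprime_dvd_left (dvd_pow_self p he.ne') hg.2.2
  simp only [QL, mem_filter, mem_Icc]
  refine ⟨⟨hg.1, (Nat.le_of_dvd h.1 hq).trans hN⟩, ?_, (ord_dvd_ord hq).trans hL,
    h1.trans (sub_one_dvd_pow_sub_one p _)⟩
  exact hp.isPrimePow.pow he.ne'

lemma mem_Dk {N L : ℕ} (k : ℕ) : ∀ d : ℕ, Good d → d ≤ N → ord d ∣ L →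
    d.primeFactors.card ≤ k → d ∈ Dk (QL N L) k := by
  induction k with
  | zero =>
    intro d hg _ _ hc
    have h1 : d.primeFactors = ∅ := Finset.card_eq_zero.1 (by omega)
    rcases Nat.primeFactors_eq_empty.1 h1 with h | h
    · exact absurd h hg.1.ne'
    · subst h; exact one_mem_Dk _ _
  | succ k ih =>
    intro d hg hN hL hc
    by_cases h1 : d = 1
    · subst h1; exact one_mem_Dk _ _
    set p := d.minFac with hp
    have hpp : p.Prime := Nat.minFac_prime h1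
    have hpd : p ∣ d := Nat.minFac_dvd d
    have h2 := mem_QL hg hN hL hpp hpd
    have h3 : ordCompl[p] d ∣ d := Nat.ordCompl_dvd d p
    have h4 : (ordCompl[p] d).primeFactors.card ≤ k := by
      have h5 : (ordCompl[p] d).primeFactors ⊂ d.primeFactors := by
        refine Finset.ssubset_iff_subset_ne.2 ⟨Nat.primeFactors_mono h3 hg.1.ne', ?_⟩
        intro h6
        have h7 : p ∈ d.primeFactors := Nat.mem_primeFactors.2 ⟨hpp, hpd, hg.1.ne'⟩
        rw [← h6, Nat.mem_primeFactors] at h7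
        exact Nat.not_dvd_ordCompl hpp hg.1.ne' h7.2.1
      have := Finset.card_lt_card h5
      omega
    have h5 := ih (ordCompl[p] d) (hg.of_dvd h3) ((Nat.le_of_dvd hg.1 h3).trans hN)
      ((ord_dvd_ord h3).trans hL) h4
    have h6 := mul_mem_Dk _ k _ _ h5 h2
    rwa [Nat.ordProj_mul_ordCompl_eq_self] at h6

/-- first bound: at most `k` prime factors -/
lemma sum_good_k {N L k : ℕ} (hL : 0 < L) (S : Finset ℕ)
    (hS : ∀ d ∈ S, Good d ∧ d ≤ N ∧ ord d ∣ L ∧ d.primeFactors.card ≤ k) :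
    ∑ d ∈ S, 1 / Real.sqrt d ≤ (4 * L.divisors.card) ^ k := by
  have h1 : S ⊆ Dk (QL N L) k := fun d hd =>
    mem_Dk k d (hS d hd).1 (hS d hd).2.1 (hS d hd).2.2.1 (hS d hd).2.2.2
  refine (Finset.sum_le_sum_of_subset_of_nonneg h1 (fun _ _ _ => by positivity)).trans ?_
  refine (sum_Dk _ _ (sum_QL N L hL) k).trans ?_
  apply pow_le_pow_left₀ (by positivity)
  have h2 : (1 : ℝ) ≤ L.divisors.card := by
    exact_mod_cast Finset.card_pos.2 ⟨1, Nat.one_mem_divisors.2 hL.ne'⟩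
  linarith

/-- the set of prime power components -/
def comps (d : ℕ) : Finset ℕ := d.primeFactors.image (fun p => ordProj[p] d)

lemma comps_inj (d : ℕ) : Set.InjOn (fun p => ordProj[p] d) (d.primeFactors : Set ℕ) := by
  intro p hp p' hp' h
  have hp := Nat.mem_primeFactors.1 hp
  have hp' := Nat.mem_primeFactors.1 hp'
  have h1 : p ∣ ordProj[p'] d := by
    have h2 : p ∣ ordProj[p] d := dvd_pow_self p (hp.1.factorization_pos_of_dvd hp.2.2 hp.2.1).ne'
    simp only at h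
    rwa [h] at h2
  exact (Nat.prime_dvd_prime_iff_eq hp.1 hp'.1).1 (hp.1.dvd_of_dvd_pow h1)

lemma prod_comps {d : ℕ} (hd : d ≠ 0) : ∏ q ∈ comps d, q = d := by
  rw [comps, Finset.prod_image (comps_inj d)]
  exact Nat.prod_factorization_pow_eq_self hd

lemma prod_comps_sqrt {d : ℕ} (hd : d ≠ 0) :
    ∏ q ∈ comps d, (1 / Real.sqrt q) = 1 / Real.sqrt d := by
  have h : ∀ T : Finset ℕ, ∏ q ∈ T, (1 / Real.sqrt (q : ℝ)) =
      1 / Real.sqrt ((∏ q ∈ T, q : ℕ) : ℝ) := by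
    intro T
    induction T using Finset.induction_on with
    | empty => simp
    | insert a s ha ih =>
      rw [Finset.prod_insert ha, Finset.prod_insert ha, ih]
      push_cast
      rw [Real.sqrt_mul (by positivity), one_div_mul_one_div]
  rw [h, prod_comps hd]

/-- second bound -/
lemma sum_good_exp {N L : ℕ} (hL : 0 < L) (S : Finset ℕ)
    (hS : ∀ d ∈ S, Good d ∧ d ≤ N ∧ ord d ∣ L) :
    ∑ d ∈ S, 1 / Real.sqrt d ≤ Real.exp (3 * L.divisors.card) := by
  have h1 : ∑ d ∈ S, 1 / Real.sqrt d = ∑ T ∈ S.image comps, ∏ q ∈ T, (1 / Real.sqrt (q : ℝ)) := by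
    rw [Finset.sum_image]
    · exact Finset.sum_congr rfl fun d hd => (prod_comps_sqrt (hS d hd).1.1.ne').symm
    · intro d hd d' hd' h
      rw [← prod_comps (hS d hd).1.1.ne', ← prod_comps (hS d' hd').1.1.ne', h]
  have h2 : S.image comps ⊆ (QL N L).powerset := by
    intro T hT
    rw [mem_image] at hT
    obtain ⟨d, hd, rfl⟩ := hT
    rw [mem_powerset]
    intro q hq
    rw [comps, mem_image] at hq
    obtain ⟨p, hp, rfl⟩ := hq
    rw [Nat.mem_primeFactors] at hp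
    exact mem_QL (hS d hd).1 (hS d hd).2.1 (hS d hd).2.2 hp.1 hp.2.1
  rw [h1]
  refine (Finset.sum_le_sum_of_subset_of_nonneg h2
    (fun _ _ _ => Finset.prod_nonneg fun _ _ => by positivity)).trans ?_
  rw [← Finset.prod_one_add]
  refine (Real.prod_one_add_le_exp_sum _ (fun _ => by positivity)).trans ?_
  exact Real.exp_le_exp.2 (sum_QL N L hL)

/-- third bound: at most `k` prime factors, with a free parameter `A` -/
lemma sum_good_A {N L k : ℕ} {A : ℝ} (hA : 1 ≤ A) (hL : 0 < L) (S : Finset ℕ)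
    (hS : ∀ d ∈ S, Good d ∧ d ≤ N ∧ ord d ∣ L ∧ d.primeFactors.card ≤ k) :
    ∑ d ∈ S, 1 / Real.sqrt d ≤ A ^ k * Real.exp (3 * L.divisors.card / A) := by
  have hA0 : 0 < A := by linarith
  have hcard : ∀ d, (comps d).card = d.primeFactors.card := fun d =>
    Finset.card_image_of_injOn (comps_inj d)
  have h0 : ∀ d ∈ S, 1 / Real.sqrt d ≤ A ^ k * ∏ q ∈ comps d, (1 / Real.sqrt (q : ℝ) / A) := by
    intro d hd
    obtain ⟨h1, _, _, h2⟩ := hS d hd
    rw [Finset.prod_div_distrib, prod_comps_sqrt h1.1.ne', Finset.prod_const, hcard,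
      mul_div_assoc', le_div_iff₀ (by positivity), mul_comm]
    apply mul_le_mul_of_nonneg_right _ (by positivity)
    exact pow_le_pow_right₀ hA h2
  have h1 : ∑ d ∈ S, ∏ q ∈ comps d, (1 / Real.sqrt (q : ℝ) / A) =
      ∑ T ∈ S.image comps, ∏ q ∈ T, (1 / Real.sqrt (q : ℝ) / A) := by
    rw [Finset.sum_image]
    intro d hd d' hd' h
    rw [← prod_comps (hS d hd).1.1.ne', ← prod_comps (hS d' hd').1.1.ne', h]
  have h2 : S.image comps ⊆ (QL N L).powerset := by
    intro T hT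
    rw [mem_image] at hT
    obtain ⟨d, hd, rfl⟩ := hT
    rw [mem_powerset]
    intro q hq
    rw [comps, mem_image] at hq
    obtain ⟨p, hp, rfl⟩ := hq
    rw [Nat.mem_primeFactors] at hp
    exact mem_QL (hS d hd).1 (hS d hd).2.1 (hS d hd).2.2.1 hp.1 hp.2.1
  refine (Finset.sum_le_sum h0).trans ?_
  rw [← Finset.mul_sum, h1]
  apply mul_le_mul_of_nonneg_left _ (by positivity)
  refine (Finset.sum_le_sum_of_subset_of_nonneg h2
    (fun _ _ _ => Finset.prod_nonneg fun _ _ => by positivity)).trans ?_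
  rw [← Finset.prod_one_add]
  refine (Real.prod_one_add_le_exp_sum _ (fun _ => by positivity)).trans ?_
  rw [Real.exp_le_exp, ← Finset.sum_div]
  exact div_le_div_of_nonneg_right (sum_QL N L hL) hA0.le

end A53
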