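import Mathlib

set_option autoImplicit false

open Finset

namespace A53

private lemma pow_step (a : ℝ) (ha0 : 0 < a) (ha1 : a < 1) (c : ℕ) :
    (c : ℝ) ^ (1 - a) / (1 - a) + ((c + 1 : ℕ) : ℝ) ^ (-a) ≤ ((c + 1 : ℕ) : ℝ) ^ (1 - a) / (1 - a) := by
  have h1a : 0 < 1 - a := by linarith
  have hc : (0 : ℝ) < ((c + 1 : ℕ) : ℝ) := by positivity
  have h1 : (c : ℝ) ^ (1 - a) ≤ ((c + 1 : ℕ) : ℝ) ^ (1 - a) * (1 - (1 - a) / ((c + 1 : ℕ) : ℝ)) := by
    have h2 : (c : ℝ) = ((c + 1 : ℕ) : ℝ) * (1 + -(1 / ((c + 1 : ℕ) : ℝ))) := by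
      field_simp
      push_cast
      ring
    have h3 : 1 / ((c + 1 : ℕ) : ℝ) ≤ 1 := by
      rw [div_le_one hc]
      push_cast
      have : (0 : ℝ) ≤ c := by positivity
      linarith
    have h4 : (1 + -(1 / ((c + 1 : ℕ) : ℝ))) ^ (1 - a) ≤ 1 + (1 - a) * -(1 / ((c + 1 : ℕ) : ℝ)) :=
      rpow_one_add_le_one_add_mul_self (by linarith) h1a.le (by linarith)
    calc (c : ℝ) ^ (1 - a) = (((c + 1 : ℕ) : ℝ) * (1 + -(1 / ((c + 1 : ℕ) : ℝ)))) ^ (1 - a) := by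
          rw [← h2]
      _ = ((c + 1 : ℕ) : ℝ) ^ (1 - a) * (1 + -(1 / ((c + 1 : ℕ) : ℝ))) ^ (1 - a) :=
          Real.mul_rpow hc.le (by linarith)
      _ ≤ ((c + 1 : ℕ) : ℝ) ^ (1 - a) * (1 + (1 - a) * -(1 / ((c + 1 : ℕ) : ℝ))) :=
          mul_le_mul_of_nonneg_left h4 (by positivity)
      _ = _ := by ring
  have h5 : ((c + 1 : ℕ) : ℝ) ^ (-a) = ((c + 1 : ℕ) : ℝ) ^ (1 - a) / ((c + 1 : ℕ) : ℝ) := by
    rw [← Real.rpow_sub_one hc.ne']
    congr 1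
    ring
  rw [h5, ← sub_nonneg]
  have h6 : ((c + 1 : ℕ) : ℝ) ^ (1 - a) / (1 - a) -
      ((c : ℝ) ^ (1 - a) / (1 - a) + ((c + 1 : ℕ) : ℝ) ^ (1 - a) / ((c + 1 : ℕ) : ℝ)) =
      (((c + 1 : ℕ) : ℝ) ^ (1 - a) * (1 - (1 - a) / ((c + 1 : ℕ) : ℝ)) - (c : ℝ) ^ (1 - a)) /
        (1 - a) := by
    field_simp
    ring
  rw [h6]
  exact div_nonneg (by linarith) h1a.le

/-- sums of `p ^ (-a)` over a finite set of positive integers -/
theorem powsum (a : ℝ) (ha0 : 0 < a) (ha1 : a < 1) : ∀ (c : ℕ) (S : Finset ℕ), S.card = c →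
    (∀ p ∈ S, 0 < p) → ∑ p ∈ S, (p : ℝ) ^ (-a) ≤ (c : ℝ) ^ (1 - a) / (1 - a) := by
  intro c
  induction c with
  | zero =>
    intro S hc _
    rw [Finset.card_eq_zero.1 hc]
    simp only [sum_empty, Nat.cast_zero]
    have : 0 < 1 - a := by linarith
    positivity
  | succ c ih =>
    intro S hc hS
    have hne : S.Nonempty := Finset.card_pos.1 (by omega)
    set m := S.max' hne with hm
    have hmS : m ∈ S := S.max'_mem hne
    have hcard : c + 1 ≤ m := by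
      have h1 : S ⊆ Icc 1 m := by
        intro p hp
        rw [mem_Icc]
        exact ⟨hS p hp, S.le_max' p hp⟩
      have h2 := Finset.card_le_card h1
      rw [Nat.card_Icc] at h2
      omega
    rw [← Finset.sum_erase_add S _ hmS]
    have h3 := ih (S.erase m) (by rw [Finset.card_erase_of_mem hmS]; omega)
      (fun p hp => hS p (Finset.mem_of_mem_erase hp))
    have h4 : (m : ℝ) ^ (-a) ≤ ((c + 1 : ℕ) : ℝ) ^ (-a) :=
      Real.rpow_le_rpow_of_nonpos (by positivity) (by exact_mod_cast hcard) (by linarith)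
    exact (add_le_add h3 h4).trans (pow_step a ha0 ha1 c)

end A53
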