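import Pool.Agent.Lib.A53.Gen
import Pool.Agent.Lib.A53.Powsum

/-!
# Sums of `d ^ (-s)` over the `d` with given order of 2
-/

set_option autoImplicit false

open Finset

namespace A53

/-- the prime powers of given order -/
lemma sum_order_s (s : ℝ) (hs0 : 0 < s) (hs1 : s < 1) (l : ℕ) (hl : 0 < l) (A : Finset ℕ)
    (hA : ∀ q ∈ A, IsPrimePow q ∧ ord q = l ∧ l ∣ q - 1) :
    ∑ q ∈ A, (q : ℝ) ^ (-s) ≤ (l : ℝ) ^ (1 - 2 * s) / (1 - s) := by
  have h1s : 0 < 1 - s := by linarith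
  have hlR : (0 : ℝ) < l := by exact_mod_cast hl
  have hc : A.card ≤ l := card_primePow l hl A (fun q hq => ⟨(hA q hq).1, (hA q hq).2.1⟩)
  have hq1 : ∀ q ∈ A, 1 < q := fun q hq => (hA q hq).1.one_lt
  have hqe : ∀ q ∈ A, l * ((q - 1) / l) = q - 1 := fun q hq => Nat.mul_div_cancel' (hA q hq).2.2
  have hpos : ∀ q ∈ A, 0 < (q - 1) / l := by
    intro q hq
    have h1 := hqe q hq
    have h3 := hq1 q hq
    refine Nat.pos_of_ne_zero fun h5 => ?_
    rw [h5] at h1
    omega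
  have hinj : Set.InjOn (fun q => (q - 1) / l) (A : Set ℕ) := by
    intro q hq q' hq' h
    have h1 := hqe q hq
    have h2 := hqe q' hq'
    have h3 := hq1 q hq
    have h4 := hq1 q' hq'
    simp only at h
    rw [h] at h1
    omega
  have hB := powsum s hs0 hs1 _ (A.image (fun q => (q - 1) / l)) rfl (by
      intro i hi
      rw [mem_image] at hi
      obtain ⟨q, hq, rfl⟩ := hi
      exact hpos q hq)
  rw [Finset.sum_image hinj, Finset.card_image_of_injOn hinj] at hB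
  have h6 : ∑ q ∈ A, (q : ℝ) ^ (-s) ≤
      ∑ q ∈ A, (l : ℝ) ^ (-s) * (((q - 1) / l : ℕ) : ℝ) ^ (-s) := by
    apply Finset.sum_le_sum
    intro q hq
    have h1 := hqe q hq
    have h3 := hq1 q hq
    have h5 := hpos q hq
    rw [← Real.mul_rpow (by positivity) (by positivity)]
    apply Real.rpow_le_rpow_of_nonpos
    · have : (0 : ℝ) < (((q - 1) / l : ℕ) : ℝ) := by exact_mod_cast h5
      positivity
    · have : l * ((q - 1) / l) ≤ q := by omega
      exact_mod_cast this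
    · linarith
  rw [← Finset.mul_sum] at h6
  have h7 : (A.card : ℝ) ^ (1 - s) ≤ (l : ℝ) ^ (1 - s) :=
    Real.rpow_le_rpow (by positivity) (by exact_mod_cast hc) h1s.le
  calc _ ≤ _ := h6
    _ ≤ (l : ℝ) ^ (-s) * ((A.card : ℝ) ^ (1 - s) / (1 - s)) :=
        mul_le_mul_of_nonneg_left hB (by positivity)
    _ ≤ (l : ℝ) ^ (-s) * ((l : ℝ) ^ (1 - s) / (1 - s)) := by
        apply mul_le_mul_of_nonneg_left _ (by positivity)
        exact div_le_div_of_nonneg_right h7 h1s.le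
    _ = (l : ℝ) ^ (1 - 2 * s) / (1 - s) := by
        rw [mul_div_assoc', ← Real.rpow_add hlR]
        congr 2
        ring

lemma sum_QL_s (s : ℝ) (hs0 : 0 < s) (hs1 : s < 1) (N L : ℕ) (hL : 0 < L) :
    ∑ q ∈ QL N L, (q : ℝ) ^ (-s) ≤ (∑ l ∈ L.divisors, (l : ℝ) ^ (1 - 2 * s)) / (1 - s) := by
  classical
  have h1 : ∀ q ∈ QL N L, ord q ∈ L.divisors := by
    intro q hq
    simp only [QL, mem_filter] at hq
    rw [Nat.mem_divisors]
    exact ⟨hq.2.2.1, hL.ne'⟩
  rw [← Finset.sum_fiberwise_of_maps_to h1, Finset.sum_div]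
  apply Finset.sum_le_sum
  intro l hl
  apply sum_order_s s hs0 hs1 l (Nat.pos_of_mem_divisors hl)
  intro q hq
  simp only [QL, mem_filter] at hq
  refine ⟨hq.1.2.1, hq.2, ?_⟩
  rw [← hq.2]
  exact hq.1.2.2.2

lemma prod_comps_rpow (s : ℝ) {d : ℕ} (hd : d ≠ 0) :
    ∏ q ∈ comps d, ((q : ℝ) ^ (-s)) = (d : ℝ) ^ (-s) := by
  have h : ∀ T : Finset ℕ, ∏ q ∈ T, ((q : ℝ) ^ (-s)) =
      ((∏ q ∈ T, q : ℕ) : ℝ) ^ (-s) := by
    intro T
    induction T using Finset.induction_on with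
    | empty => simp
    | insert a s ha ih =>
      rw [Finset.prod_insert ha, Finset.prod_insert ha, ih]
      push_cast
      rw [Real.mul_rpow (by positivity) (by positivity)]
  rw [h, prod_comps hd]

/-- at most `k` prime factors, with a free parameter `A` -/
lemma sum_good_s (s : ℝ) {N L k : ℕ} {A : ℝ} (hA : 1 ≤ A) (S : Finset ℕ)
    (hS : ∀ d ∈ S, Good d ∧ d ≤ N ∧ ord d ∣ L ∧ d.primeFactors.card ≤ k) :
    ∑ d ∈ S, (d : ℝ) ^ (-s) ≤ A ^ k * Real.exp ((∑ q ∈ QL N L, (q : ℝ) ^ (-s)) / A) := by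
  have hA0 : 0 < A := by linarith
  have hcard : ∀ d, (comps d).card = d.primeFactors.card := fun d =>
    Finset.card_image_of_injOn (comps_inj d)
  have h0 : ∀ d ∈ S, (d : ℝ) ^ (-s) ≤ A ^ k * ∏ q ∈ comps d, ((q : ℝ) ^ (-s) / A) := by
    intro d hd
    obtain ⟨h1, _, _, h2⟩ := hS d hd
    rw [Finset.prod_div_distrib, prod_comps_rpow s h1.1.ne', Finset.prod_const, hcard,
      mul_div_assoc', le_div_iff₀ (by positivity), mul_comm]
    apply mul_le_mul_of_nonneg_right _ (by positivity)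
    exact pow_le_pow_right₀ hA h2
  have h1 : ∑ d ∈ S, ∏ q ∈ comps d, ((q : ℝ) ^ (-s) / A) =
      ∑ T ∈ S.image comps, ∏ q ∈ T, ((q : ℝ) ^ (-s) / A) := by
    rw [Finset.sum_image]
    intro d hd d' hd' h
    rw [← prod_comps (hS d hd).1.1.ne', ← prod_comps (hS d' hd').1.1.ne', h]
  have h2 : S.image comps ⊆ (QL N L).powerset := by
    intro T hT
    rw [mem_image] at hT
    obtain ⟨d, hd, rfl⟩ := hT
    rw [mem_powerset]
    intro q hq
    rw [comps, mem_image] at hq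
    obtain ⟨p, hp, rfl⟩ := hq
    rw [Nat.mem_primeFactors] at hp
    exact mem_QL (hS d hd).1 (hS d hd).2.1 (hS d hd).2.2.1 hp.1 hp.2.1
  refine (Finset.sum_le_sum h0).trans ?_
  rw [← Finset.mul_sum, h1]
  apply mul_le_mul_of_nonneg_left _ (by positivity)
  refine (Finset.sum_le_sum_of_subset_of_nonneg h2
    (fun _ _ _ => Finset.prod_nonneg fun _ _ => by positivity)).trans ?_
  rw [← Finset.prod_one_add]
  refine (Real.prod_one_add_le_exp_sum _ (fun _ => by positivity)).trans ?_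
  rw [Real.exp_le_exp, ← Finset.sum_div]

end A53
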