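import Pool.Agent.Lib.A53.Count

/-!
# Base 2 pseudoprimes with few prime factors and with few divisors of `n - 1`
-/

set_option autoImplicit false

open Finset

namespace A53

theorem main_ncard (N : ℕ) (P : ℕ → Prop) (W : ℕ → ℝ)
    (hW : ∀ L, 0 < L → ∀ S : Finset ℕ, (∀ d ∈ S, ord d = L ∧ d ≤ N ∧
      ∃ n, Nat.FermatPsp n 2 ∧ P n ∧ d ∣ n) → ∑ d ∈ S, 1 / Real.sqrt d ≤ W L) :
    (({n : ℕ | n ≤ N ∧ Nat.FermatPsp n 2 ∧ P n}.ncard : ℕ) : ℝ) ≤
      (N : ℝ) ^ (3 / 4 : ℝ) * (2 + ∑ L ∈ Icc 1 N, W L / L) := by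
  classical
  have h := main_count N P W hW
  have h1 : {n : ℕ | n ≤ N ∧ Nat.FermatPsp n 2 ∧ P n} =
      ↑((Icc 1 N).filter (fun n => Nat.FermatPsp n 2 ∧ P n)) := by
    ext n
    simp only [Set.mem_ofPred_eq, coe_filter, mem_Icc]
    constructor
    · rintro ⟨h2, h3, h4⟩
      have := h3.2.2
      exact ⟨⟨by omega, h2⟩, h3, h4⟩
    · rintro ⟨h2, h3, h4⟩
      exact ⟨h2.2, h3, h4⟩
  rw [h1, Set.ncard_coe_finset]
  exact h

theorem few_primes (N k : ℕ) :
    (({n : ℕ | n ≤ N ∧ Nat.FermatPsp n 2 ∧ n.primeFactors.card ≤ k}.ncard : ℕ) : ℝ) ≤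
      (N : ℝ) ^ (3 / 4 : ℝ) * (2 + 4 ^ k * (1 + Real.log N) ^ (2 ^ k)) := by
  have h := main_ncard N (fun n => n.primeFactors.card ≤ k)
    (fun L => (4 * (L.divisors.card : ℝ)) ^ k) (by
      intro L hL S hS
      apply sum_good_k (N := N) hL
      intro d hd
      obtain ⟨h1, h2, n, h3, h4, h5⟩ := hS d hd
      have hn : n ≠ 0 := by have := h3.2.2; omega
      exact ⟨psp_good h3 h5, h2, h1 ▸ dvd_rfl,
        (Finset.card_le_card (Nat.primeFactors_mono h5 hn)).trans h4⟩)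
  refine h.trans ?_
  apply mul_le_mul_of_nonneg_left _ (by positivity)
  have h1 : ∑ L ∈ Icc 1 N, (4 * (L.divisors.card : ℝ)) ^ k / L =
      4 ^ k * ∑ L ∈ Icc 1 N, (L.divisors.card : ℝ) ^ k / L := by
    rw [Finset.mul_sum]
    exact Finset.sum_congr rfl fun L _ => by rw [mul_pow, mul_div_assoc]
  rw [h1]
  have h2 := mul_le_mul_of_nonneg_left (sum_tau N k) (by positivity : (0 : ℝ) ≤ 4 ^ k)
  linarith

theorem few_divisors (N k : ℕ) (T A : ℝ) (hA : 1 ≤ A) :
    (({n : ℕ | n ≤ N ∧ Nat.FermatPsp n 2 ∧ n.primeFactors.card ≤ k ∧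
      ((n - 1).divisors.card : ℝ) ≤ T}.ncard : ℕ) : ℝ) ≤
      (N : ℝ) ^ (3 / 4 : ℝ) * (2 + A ^ k * Real.exp (3 * T / A) * (1 + Real.log N)) := by
  have hA0 : 0 < A := by linarith
  have h := main_ncard N (fun n => n.primeFactors.card ≤ k ∧ ((n - 1).divisors.card : ℝ) ≤ T)
    (fun _ => A ^ k * Real.exp (3 * T / A)) (by
      intro L hL S hS
      rcases S.eq_empty_or_nonempty with h0 | ⟨d0, hd0⟩
      · subst h0
        simp only [sum_empty]
        positivity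
      have hT : (L.divisors.card : ℝ) ≤ T := by
        obtain ⟨h1, h2, n, h3, h4, h5⟩ := hS d0 hd0
        have hn : n - 1 ≠ 0 := by have := h3.2.2; omega
        refine le_trans ?_ h4.2
        have h6 : L ∣ n - 1 := h1 ▸ psp_ord h3 h5
        exact_mod_cast Finset.card_le_card (Nat.divisors_subset_of_dvd hn h6)
      have h6 := sum_good_A (N := N) (k := k) hA hL S (by
        intro d hd
        obtain ⟨h1, h2, n, h3, h4, h5⟩ := hS d hd
        have hn : n ≠ 0 := by have := h3.2.2; omega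
        exact ⟨psp_good h3 h5, h2, h1 ▸ dvd_rfl,
          (Finset.card_le_card (Nat.primeFactors_mono h5 hn)).trans h4.1⟩)
      refine h6.trans ?_
      apply mul_le_mul_of_nonneg_left _ (by positivity)
      rw [Real.exp_le_exp]
      apply div_le_div_of_nonneg_right _ hA0.le
      linarith)
  refine h.trans ?_
  apply mul_le_mul_of_nonneg_left _ (by positivity)
  have h1 : ∑ L ∈ Icc 1 N, A ^ k * Real.exp (3 * T / A) / (L : ℝ) =
      A ^ k * Real.exp (3 * T / A) * ∑ L ∈ Icc 1 N, (L.divisors.card : ℝ) ^ 0 / L := by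
    rw [Finset.mul_sum]
    exact Finset.sum_congr rfl fun L _ => by rw [pow_zero]; ring
  rw [h1]
  have h2 := sum_tau N 0
  rw [pow_zero, pow_one] at h2
  have h3 := mul_le_mul_of_nonneg_left h2
    (by positivity : (0 : ℝ) ≤ A ^ k * Real.exp (3 * T / A))
  linarith

end A53
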