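import Pool.Agent.Lib.A53.CountS
import Pool.Agent.Lib.A53.GenS
import Pool.Agent.Lib.A53.Divsum

/-!
# The general inequality with a free exponent
-/

set_option autoImplicit false

open Finset

namespace A53

/-- the constant of `sum_divisors_le` -/
noncomputable def DC (a : ℝ) : ℝ := 1 / (1 - (2 : ℝ) ^ (-a)) / (1 - a)

lemma two_rpow_neg_lt {a : ℝ} (ha : 0 < a) : (2 : ℝ) ^ (-a) < 1 :=
  Real.rpow_lt_one_of_one_lt_of_neg (by norm_num) (by linarith)

lemma DC_pos {a : ℝ} (ha0 : 0 < a) (ha1 : a < 1) : 0 < DC a := by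
  have h1 := two_rpow_neg_lt ha0
  have h2 : 0 < 1 - (2 : ℝ) ^ (-a) := by linarith
  have h3 : 0 < 1 - a := by linarith
  rw [DC]
  positivity

lemma sum_divisors_le {a : ℝ} (ha0 : 0 < a) (ha1 : a < 1) {L w : ℕ} (hL : 0 < L)
    (hw : L.primeFactors.card ≤ w) :
    ∑ l ∈ L.divisors, (l : ℝ) ^ (-a) ≤ Real.exp (DC a * (w : ℝ) ^ (1 - a)) := by
  have h1 := two_rpow_neg_lt ha0
  have h2 : 0 < 1 - (2 : ℝ) ^ (-a) := by linarith
  have h3 : 0 < 1 - a := by linarith
  refine (divsum ha0 L hL).trans ?_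
  rw [Real.exp_le_exp]
  have h4 := powsum a ha0 ha1 _ L.primeFactors rfl
    (fun p hp => (Nat.prime_of_mem_primeFactors hp).pos)
  have h5 : (L.primeFactors.card : ℝ) ^ (1 - a) ≤ (w : ℝ) ^ (1 - a) :=
    Real.rpow_le_rpow (by positivity) (by exact_mod_cast hw) h3.le
  calc 1 / (1 - (2 : ℝ) ^ (-a)) * ∑ p ∈ L.primeFactors, (p : ℝ) ^ (-a)
      ≤ 1 / (1 - (2 : ℝ) ^ (-a)) * ((w : ℝ) ^ (1 - a) / (1 - a)) := by
        apply mul_le_mul_of_nonneg_left _ (by positivity)
        exact h4.trans (div_le_div_of_nonneg_right h5 h3.le)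
    _ = DC a * (w : ℝ) ^ (1 - a) := by rw [DC]; ring

/-- base 2 pseudoprimes `n` with few prime factors such that the order of 2 modulo `n` has few prime
factors -/
theorem few_general (N k w : ℕ) (a A : ℝ) (ha0 : 0 < a) (ha1 : a < 1) (hA : 1 ≤ A) :
    (({n : ℕ | n ≤ N ∧ Nat.FermatPsp n 2 ∧ (n.primeFactors.card ≤ k ∧
      (ord n).primeFactors.card ≤ w)}.ncard : ℕ) : ℝ) ≤
      2 * (N : ℝ) ^ (3 / 4 : ℝ) + (N : ℝ) ^ ((3 + a) / 4) *
        (A ^ k * Real.exp (2 / (1 - a) * Real.exp (DC a * (w : ℝ) ^ (1 - a)) / A) *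
          (1 + Real.log N)) := by
  have hA0 : 0 < A := by linarith
  have h1a : 0 < 1 - a := by linarith
  set s := (1 + a) / 2 with hs
  set W := A ^ k * Real.exp (2 / (1 - a) * Real.exp (DC a * (w : ℝ) ^ (1 - a)) / A) with hW
  have h := main_count_s N s (by rw [hs]; linarith) (by rw [hs]; linarith)
    (fun n => n.primeFactors.card ≤ k ∧ (ord n).primeFactors.card ≤ w) (fun _ => W) (by
      intro L hL _ S hS
      rcases S.eq_empty_or_nonempty with h0 | ⟨d0, hd0⟩
      · subst h0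
        simp only [sum_empty]
        positivity
      have hT : L.primeFactors.card ≤ w := by
        obtain ⟨h1, h2, n, _, h3, h4, h5⟩ := hS d0 hd0
        have hn : ord n ≠ 0 := (psp_good h3 dvd_rfl).2.1.ne'
        have h6 : L ∣ ord n := h1 ▸ ord_dvd_ord h5
        exact (Finset.card_le_card (Nat.primeFactors_mono h6 hn)).trans h4.2
      have h6 := sum_good_s s (N := N) (L := L) (k := k) hA S (by
        intro d hd
        obtain ⟨h1, h2, n, _, h3, h4, h5⟩ := hS d hd
        have hn : n ≠ 0 := by have := h3.2.2; omega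
        exact ⟨psp_good h3 h5, h2, h1 ▸ dvd_rfl,
          (Finset.card_le_card (Nat.primeFactors_mono h5 hn)).trans h4.1⟩)
      refine h6.trans ?_
      rw [hW]
      apply mul_le_mul_of_nonneg_left _ (by positivity)
      rw [Real.exp_le_exp]
      apply div_le_div_of_nonneg_right _ hA0.le
      have h7 := sum_QL_s s (by rw [hs]; linarith) (by rw [hs]; linarith) N L hL
      refine h7.trans ?_
      have h8 : 1 - 2 * s = -a := by rw [hs]; ring
      have h9 : 1 - s = (1 - a) / 2 := by rw [hs]; ring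
      rw [h8, h9, div_div_eq_mul_div, mul_comm, ← div_mul_eq_mul_div]
      exact mul_le_mul_of_nonneg_left (sum_divisors_le ha0 ha1 hL hT) (by positivity))
  refine h.trans ?_
  have h10 : (1 + s) / 2 = (3 + a) / 4 := by rw [hs]; ring
  rw [h10]
  apply add_le_add_right
  apply mul_le_mul_of_nonneg_left _ (by positivity)
  have h1 : ∑ L ∈ Icc 1 N, W / (L : ℝ) = W * ∑ L ∈ Icc 1 N, (L.divisors.card : ℝ) ^ 0 / L := by
    rw [Finset.mul_sum]
    exact Finset.sum_congr rfl fun L _ => by rw [pow_zero]; ring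
  rw [h1]
  have h2 := sum_tau N 0
  rw [pow_zero, pow_one] at h2
  exact mul_le_mul_of_nonneg_left h2 (by positivity)

end A53
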