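import Pool.Agent.Lib.A53.Main

/-!
# Stronger explicit inequalities: large deviations of the divisor function
-/

set_option autoImplicit false

open Finset

namespace A53

/-- large deviations of the divisor function -/
lemma card_tau_ge (N j : ℕ) (V : ℝ) (hV : 0 < V) :
    (({n : ℕ | 1 ≤ n ∧ n ≤ N ∧ V ≤ (n.divisors.card : ℝ)}.ncard : ℕ) : ℝ) ≤
      N * (V⁻¹ ^ j * (1 + Real.log N) ^ (2 ^ j)) := by
  classical
  have h1 : {n : ℕ | 1 ≤ n ∧ n ≤ N ∧ V ≤ (n.divisors.card : ℝ)} =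
      ↑((Icc 1 N).filter (fun n => V ≤ (n.divisors.card : ℝ))) := by
    ext n
    simp only [Set.mem_ofPred_eq, coe_filter, mem_Icc, and_assoc]
  rw [h1, Set.ncard_coe_finset]
  have h2 : ∀ n ∈ (Icc 1 N).filter (fun n => V ≤ (n.divisors.card : ℝ)),
      (1 : ℝ) ≤ N * (V⁻¹ ^ j * ((n.divisors.card : ℝ) ^ j / n)) := by
    intro n hn
    rw [mem_filter, mem_Icc] at hn
    obtain ⟨⟨h3, h4⟩, h5⟩ := hn
    have hn0 : (0 : ℝ) < n := by exact_mod_cast h3
    have h6 : (1 : ℝ) ≤ V⁻¹ * (n.divisors.card : ℝ) := by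
      rw [inv_mul_eq_div, le_div_iff₀ hV, one_mul]
      exact h5
    have h7 : (1 : ℝ) ≤ V⁻¹ ^ j * (n.divisors.card : ℝ) ^ j := by
      rw [← mul_pow]
      exact one_le_pow₀ h6
    have h8 : (1 : ℝ) ≤ N / n := by
      rw [le_div_iff₀ hn0, one_mul]
      exact_mod_cast h4
    calc (1 : ℝ) ≤ N / n * (V⁻¹ ^ j * (n.divisors.card : ℝ) ^ j) :=
          one_le_mul_of_one_le_of_one_le h8 h7
      _ = _ := by ring
  have h3 := Finset.card_nsmul_le_sum _ _ _ h2
  rw [nsmul_eq_mul, mul_one] at h3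
  refine h3.trans ?_
  rw [← Finset.mul_sum, ← Finset.mul_sum]
  apply mul_le_mul_of_nonneg_left _ (by positivity)
  apply mul_le_mul_of_nonneg_left _ (by positivity)
  refine le_trans ?_ (sum_tau N j)
  exact Finset.sum_le_sum_of_subset_of_nonneg (Finset.filter_subset _ _)
    (fun _ _ _ => by positivity)

lemma two_pow_card_le {n : ℕ} (hn : n ≠ 0) : 2 ^ n.primeFactors.card ≤ n.divisors.card := by
  rw [Nat.card_divisors hn]
  apply Finset.pow_card_le_prod
  intro p hp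
  rw [Nat.mem_primeFactors] at hp
  have := hp.1.factorization_pos_of_dvd hn hp.2.1
  omega

theorem few_primes_strong (N k j : ℕ) (V : ℝ) (hjk : j ≤ k) (hV : 1 ≤ V) :
    (({n : ℕ | n ≤ N ∧ Nat.FermatPsp n 2 ∧ n.primeFactors.card ≤ k}.ncard : ℕ) : ℝ) ≤
      N * (V⁻¹ ^ j * (1 + Real.log N) ^ (2 ^ j)) +
      (N : ℝ) ^ (3 / 4 : ℝ) * (2 + 4 ^ k * V ^ (k - j) * (1 + Real.log N) ^ (2 ^ j)) := by
  have hV0 : 0 < V := by linarith
  set X := {n : ℕ | n ≤ N ∧ Nat.FermatPsp n 2 ∧ n.primeFactors.card ≤ k} with hX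
  set Y := {n : ℕ | 1 ≤ n ∧ n ≤ N ∧ V ≤ (n.divisors.card : ℝ)} with hY
  set Z := {n : ℕ | n ≤ N ∧ Nat.FermatPsp n 2 ∧
    (n.primeFactors.card ≤ k ∧ ((n - 1).divisors.card : ℝ) < V)} with hZ
  have hYfin : Y.Finite := (Set.finite_Iic N).subset (fun n hn => hn.2.1)
  have hZfin : Z.Finite := (Set.finite_Iic N).subset (fun n hn => hn.1)
  have hsub : X ⊆ ((fun n => n + 1) '' Y) ∪ Z := by
    intro n hn
    obtain ⟨h1, h2, h3⟩ := hn
    have h4 := h2.2.2
    rcases lt_or_ge ((n - 1).divisors.card : ℝ) V with h | h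
    · exact Or.inr ⟨h1, h2, h3, h⟩
    · exact Or.inl ⟨n - 1, ⟨by omega, by omega, h⟩, by simp only; omega⟩
  have h1 : X.ncard ≤ Y.ncard + Z.ncard :=
    (Set.ncard_le_ncard hsub ((hYfin.image _).union hZfin)).trans
      ((Set.ncard_union_le _ _).trans (Nat.add_le_add_right (Set.ncard_image_le hYfin) _))
  have h2 : (Y.ncard : ℝ) ≤ N * (V⁻¹ ^ j * (1 + Real.log N) ^ (2 ^ j)) :=
    card_tau_ge N j V hV0
  have h3 : (Z.ncard : ℝ) ≤
      (N : ℝ) ^ (3 / 4 : ℝ) * (2 + 4 ^ k * V ^ (k - j) * (1 + Real.log N) ^ (2 ^ j)) := by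
    have h := main_ncard N (fun n => n.primeFactors.card ≤ k ∧ ((n - 1).divisors.card : ℝ) < V)
      (fun L => 4 ^ k * V ^ (k - j) * (L.divisors.card : ℝ) ^ j) (by
        intro L hL S hS
        rcases S.eq_empty_or_nonempty with h0 | ⟨d0, hd0⟩
        · subst h0
          simp only [sum_empty]
          positivity
        have hT : (L.divisors.card : ℝ) ≤ V := by
          obtain ⟨h1, h2, n, h3, h4, h5⟩ := hS d0 hd0
          have hn : n - 1 ≠ 0 := by have := h3.2.2; omega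
          refine le_trans ?_ h4.2.le
          have h6 : L ∣ n - 1 := h1 ▸ psp_ord h3 h5
          exact_mod_cast Finset.card_le_card (Nat.divisors_subset_of_dvd hn h6)
        have h6 := sum_good_k (N := N) (k := k) hL S (by
          intro d hd
          obtain ⟨h1, h2, n, h3, h4, h5⟩ := hS d hd
          have hn : n ≠ 0 := by have := h3.2.2; omega
          exact ⟨psp_good h3 h5, h2, h1 ▸ dvd_rfl,
            (Finset.card_le_card (Nat.primeFactors_mono h5 hn)).trans h4.1⟩)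
        refine h6.trans ?_
        have h7 : (L.divisors.card : ℝ) ^ k ≤ V ^ (k - j) * (L.divisors.card : ℝ) ^ j := by
          calc (L.divisors.card : ℝ) ^ k
              = (L.divisors.card : ℝ) ^ (k - j) * (L.divisors.card : ℝ) ^ j := by
                rw [← pow_add, Nat.sub_add_cancel hjk]
            _ ≤ V ^ (k - j) * (L.divisors.card : ℝ) ^ j :=
                mul_le_mul_of_nonneg_right (pow_le_pow_left₀ (by positivity) hT _)
                  (by positivity)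
        rw [mul_pow, mul_assoc]
        exact mul_le_mul_of_nonneg_left h7 (by positivity))
    refine h.trans ?_
    apply mul_le_mul_of_nonneg_left _ (by positivity)
    have h1 : ∑ L ∈ Icc 1 N, 4 ^ k * V ^ (k - j) * (L.divisors.card : ℝ) ^ j / L =
        4 ^ k * V ^ (k - j) * ∑ L ∈ Icc 1 N, (L.divisors.card : ℝ) ^ j / L := by
      rw [Finset.mul_sum]
      exact Finset.sum_congr rfl fun L _ => by rw [mul_div_assoc]
    rw [h1]
    have h2 := mul_le_mul_of_nonneg_left (sum_tau N j)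
      (by positivity : (0 : ℝ) ≤ 4 ^ k * V ^ (k - j))
    linarith
  have h4 : (X.ncard : ℝ) ≤ (Y.ncard : ℝ) + (Z.ncard : ℝ) := by exact_mod_cast h1
  linarith

theorem few_divisors_strong (N k j : ℕ) (T A : ℝ) (hA : 1 ≤ A) :
    (({n : ℕ | n ≤ N ∧ Nat.FermatPsp n 2 ∧ ((n - 1).divisors.card : ℝ) ≤ T}.ncard : ℕ) : ℝ) ≤
      N * (((2 : ℝ) ^ k)⁻¹ ^ j * (1 + Real.log N) ^ (2 ^ j)) +
      (N : ℝ) ^ (3 / 4 : ℝ) * (2 + A ^ k * Real.exp (3 * T / A) * (1 + Real.log N)) := by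
  set X := {n : ℕ | n ≤ N ∧ Nat.FermatPsp n 2 ∧ ((n - 1).divisors.card : ℝ) ≤ T} with hX
  set Y := {n : ℕ | 1 ≤ n ∧ n ≤ N ∧ (2 : ℝ) ^ k ≤ (n.divisors.card : ℝ)} with hY
  set Z := {n : ℕ | n ≤ N ∧ Nat.FermatPsp n 2 ∧ n.primeFactors.card ≤ k ∧
    ((n - 1).divisors.card : ℝ) ≤ T} with hZ
  have hYfin : Y.Finite := (Set.finite_Iic N).subset (fun n hn => hn.2.1)
  have hZfin : Z.Finite := (Set.finite_Iic N).subset (fun n hn => hn.1)
  have hsub : X ⊆ Y ∪ Z := by
    intro n hn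
    obtain ⟨h1, h2, h3⟩ := hn
    have h4 := h2.2.2
    rcases le_or_gt n.primeFactors.card k with h | h
    · exact Or.inr ⟨h1, h2, h, h3⟩
    · refine Or.inl ⟨by omega, h1, ?_⟩
      have h5 : 2 ^ k ≤ n.divisors.card :=
        (Nat.pow_le_pow_right (by norm_num) h.le).trans (two_pow_card_le (by omega))
      exact_mod_cast h5
  have h1 : X.ncard ≤ Y.ncard + Z.ncard :=
    (Set.ncard_le_ncard hsub (hYfin.union hZfin)).trans (Set.ncard_union_le _ _)
  have h2 : (Y.ncard : ℝ) ≤ N * (((2 : ℝ) ^ k)⁻¹ ^ j * (1 + Real.log N) ^ (2 ^ j)) :=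
    card_tau_ge N j _ (by positivity)
  have h3 := few_divisors N k T A hA
  have h4 : (X.ncard : ℝ) ≤ (Y.ncard : ℝ) + (Z.ncard : ℝ) := by exact_mod_cast h1
  linarith

end A53
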