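import Pool.Agent.Lib.A53.MainS
import Pool.Agent.Lib.A53.Strong
import Pool.Agent.Lib.A53.AsyAs
import Pool.Agent.Lib.A53.AsyBs

/-!
# Base 2 pseudoprimes with at most `(log N) ^ c` prime factors, and with few primes in the order of 2
-/

set_option autoImplicit false

open Finset Filter

namespace A53

lemma exp_log_nat {N : ℕ} (hN : 1 ≤ N) (c : ℝ) : Real.exp (c * Real.log N) = (N : ℝ) ^ c := by
  rw [Real.rpow_def_of_pos (by exact_mod_cast hN), mul_comm]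

lemma omega_le_two_log {m N : ℕ} (hm : 1 ≤ m) (hmN : m ≤ N) :
    (m.primeFactors.card : ℝ) ≤ 2 * Real.log N := by
  have h1 : 2 ^ m.primeFactors.card ≤ m :=
    (two_pow_card_le (by omega)).trans (Nat.card_divisors_le_self m)
  have h2 : (2 : ℝ) ^ m.primeFactors.card ≤ N := by exact_mod_cast h1.trans hmN
  have h3 : (m.primeFactors.card : ℝ) * Real.log 2 ≤ Real.log N := by
    rw [← Real.log_pow]
    exact Real.log_le_log (by positivity) h2
  have h4 : (1 / 2 : ℝ) ≤ Real.log 2 := by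
    have := Real.log_two_gt_d9
    linarith
  have h5 : (m.primeFactors.card : ℝ) * (1 / 2) ≤ m.primeFactors.card * Real.log 2 :=
    mul_le_mul_of_nonneg_left h4 (by positivity)
  linarith

theorem few_primes_log (c ε : ℝ) (hc0 : 0 ≤ c) (hc1 : c < 1) (hε : 0 < ε) :
    ∀ᶠ N : ℕ in atTop,
    (({n : ℕ | n ≤ N ∧ Nat.FermatPsp n 2 ∧
      (n.primeFactors.card : ℝ) ≤ (Real.log N) ^ c}.ncard : ℕ) : ℝ) ≤
      (N : ℝ) ^ ((3 + c) / 4 + ε) := by
  obtain ⟨a, ha0, ha1, h0⟩ := asyAs c ε hc0 hc1 hε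
  have h1 : Tendsto (fun N : ℕ => Real.log (N : ℝ)) atTop atTop :=
    Real.tendsto_log_atTop.comp tendsto_natCast_atTop_atTop
  filter_upwards [h1.eventually (h0 (DC a) (DC_pos ha0 ha1)), eventually_ge_atTop 1]
    with N h2 hN
  have hNpos : (0 : ℝ) < N := by exact_mod_cast hN
  have hlog : 0 ≤ Real.log N := Real.log_nonneg (by exact_mod_cast hN)
  obtain ⟨A, hA, h3⟩ := h2
  set k := ⌊(Real.log N) ^ c⌋₊ with hk
  set w := ⌊2 * Real.log N⌋₊ with hw
  have hkle : (k : ℝ) ≤ (Real.log N) ^ c := Nat.floor_le (by positivity)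
  have hwle : (w : ℝ) ≤ 2 * Real.log N := Nat.floor_le (by positivity)
  have h4 := h3 k w hkle hwle
  have h5 : {n : ℕ | n ≤ N ∧ Nat.FermatPsp n 2 ∧
      (n.primeFactors.card : ℝ) ≤ (Real.log N) ^ c} ⊆
      {n : ℕ | n ≤ N ∧ Nat.FermatPsp n 2 ∧ (n.primeFactors.card ≤ k ∧
        (ord n).primeFactors.card ≤ w)} := by
    rintro n ⟨h8, h9, h10⟩
    have h11 := h9.2.2
    have h12 : 0 < ord n := (psp_good h9 dvd_rfl).2.1
    have h13 : ord n ≤ N := (Nat.le_of_dvd (by omega) (psp_ord h9 dvd_rfl)).trans (by omega)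
    exact ⟨h8, h9, Nat.le_floor h10, Nat.le_floor (omega_le_two_log h12 h13)⟩
  have hfin : {n : ℕ | n ≤ N ∧ Nat.FermatPsp n 2 ∧ (n.primeFactors.card ≤ k ∧
        (ord n).primeFactors.card ≤ w)}.Finite :=
    (Set.finite_Iic N).subset (fun n hn => hn.1)
  have h6 : (({n : ℕ | n ≤ N ∧ Nat.FermatPsp n 2 ∧
      (n.primeFactors.card : ℝ) ≤ (Real.log N) ^ c}.ncard : ℕ) : ℝ) ≤
      (({n : ℕ | n ≤ N ∧ Nat.FermatPsp n 2 ∧ (n.primeFactors.card ≤ k ∧
        (ord n).primeFactors.card ≤ w)}.ncard : ℕ) : ℝ) := by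
    exact_mod_cast Set.ncard_le_ncard h5 hfin
  refine h6.trans ((few_general N k w a A ha0 ha1 hA).trans ?_)
  rw [exp_log_nat hN, exp_log_nat hN, exp_log_nat hN] at h4
  exact h4

theorem few_order (K C ε : ℝ) (hK : 1 ≤ K) (hC : 0 < C) (hε : 0 < ε) :
    ∀ᶠ N : ℕ in atTop,
    (({n : ℕ | n ≤ N ∧ Nat.FermatPsp n 2 ∧
      ((orderOf (2 : ZMod n)).primeFactors.card : ℝ) ≤
        C * (Real.log (Real.log N)) ^ K}.ncard : ℕ) : ℝ) ≤
      (N : ℝ) ^ (1 - 1 / (4 * K) + ε) := by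
  obtain ⟨a, ha0, ha1, h0⟩ := asyBs K C ε hK hC hε
  have h1 : Tendsto (fun N : ℕ => Real.log (N : ℝ)) atTop atTop :=
    Real.tendsto_log_atTop.comp tendsto_natCast_atTop_atTop
  filter_upwards [h1.eventually (h0 (DC a) (DC_pos ha0 ha1)), eventually_ge_atTop 1,
    h1.eventually_ge_atTop 1] with N h2 hN hlog1
  have hNpos : (0 : ℝ) < N := by exact_mod_cast hN
  have hll : 0 ≤ Real.log (Real.log N) := Real.log_nonneg hlog1
  set w := ⌊C * (Real.log (Real.log N)) ^ K⌋₊ with hw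
  have hwle : (w : ℝ) ≤ C * (Real.log (Real.log N)) ^ K := Nat.floor_le (by positivity)
  have h4 := h2 w hwle
  have h5 : {n : ℕ | n ≤ N ∧ Nat.FermatPsp n 2 ∧
      ((orderOf (2 : ZMod n)).primeFactors.card : ℝ) ≤ C * (Real.log (Real.log N)) ^ K} ⊆
      {n : ℕ | n ≤ N ∧ Nat.FermatPsp n 2 ∧ (n.primeFactors.card ≤ N ∧
        (ord n).primeFactors.card ≤ w)} := by
    rintro n ⟨h8, h9, h10⟩
    have h11 := h9.2.2
    refine ⟨h8, h9, ?_, Nat.le_floor h10⟩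
    have h12 : 2 ^ n.primeFactors.card ≤ n :=
      (two_pow_card_le (by omega)).trans (Nat.card_divisors_le_self n)
    exact ((Nat.lt_two_pow_self).le.trans h12).trans h8
  have hfin : {n : ℕ | n ≤ N ∧ Nat.FermatPsp n 2 ∧ (n.primeFactors.card ≤ N ∧
        (ord n).primeFactors.card ≤ w)}.Finite :=
    (Set.finite_Iic N).subset (fun n hn => hn.1)
  have h6 : (({n : ℕ | n ≤ N ∧ Nat.FermatPsp n 2 ∧
      ((orderOf (2 : ZMod n)).primeFactors.card : ℝ) ≤
        C * (Real.log (Real.log N)) ^ K}.ncard : ℕ) : ℝ) ≤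
      (({n : ℕ | n ≤ N ∧ Nat.FermatPsp n 2 ∧ (n.primeFactors.card ≤ N ∧
        (ord n).primeFactors.card ≤ w)}.ncard : ℕ) : ℝ) := by
    exact_mod_cast Set.ncard_le_ncard h5 hfin
  refine h6.trans ((few_general N N w a 1 ha0 ha1 le_rfl).trans ?_)
  rw [exp_log_nat hN, exp_log_nat hN, exp_log_nat hN] at h4
  rw [one_pow, one_mul, div_one]
  exact h4

end A53
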