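import Pool.Agent.Lib.A53.Strong
import Pool.Agent.Lib.A53.AsyA
import Pool.Agent.Lib.A53.AsyB

/-!
# Power savings for every multiple of `log log N` and every power of `log N`
-/

set_option autoImplicit false

open Finset Filter

namespace A53

lemma exp_mul_log_nat' {N : ℕ} (hN : 1 ≤ N) (c : ℝ) :
    Real.exp (c * Real.log N) = (N : ℝ) ^ c := by
  rw [Real.rpow_def_of_pos (by exact_mod_cast hN), mul_comm]

theorem few_primes_power (κ ε : ℝ) (hκ : 1 ≤ κ) (hε : 0 < ε) : ∀ᶠ N : ℕ in atTop,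
    (({n : ℕ | n ≤ N ∧ Nat.FermatPsp n 2 ∧
      (n.primeFactors.card : ℝ) ≤ κ * Real.log (Real.log N) / Real.log 2}.ncard : ℕ) : ℝ) ≤
      (N : ℝ) ^ (1 - 1 / (4 * κ) + ε) := by
  have h1 : Tendsto (fun N : ℕ => Real.log (N : ℝ)) atTop atTop :=
    Real.tendsto_log_atTop.comp tendsto_natCast_atTop_atTop
  filter_upwards [h1.eventually (asyA κ ε hκ hε), eventually_ge_atTop 1] with N h2 hN
  have hNpos : (0 : ℝ) < N := by exact_mod_cast hN
  obtain ⟨k, j, V, h3, h4, h5, h6⟩ := h2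
  have h7 : {n : ℕ | n ≤ N ∧ Nat.FermatPsp n 2 ∧
      (n.primeFactors.card : ℝ) ≤ κ * Real.log (Real.log N) / Real.log 2} ⊆
      {n : ℕ | n ≤ N ∧ Nat.FermatPsp n 2 ∧ n.primeFactors.card ≤ k} := by
    rintro n ⟨h8, h9, h10⟩
    refine ⟨h8, h9, ?_⟩
    have h11 : (n.primeFactors.card : ℝ) < ((k + 1 : ℕ) : ℝ) := by
      push_cast
      exact lt_of_le_of_lt h10 h3
    exact Nat.lt_succ_iff.1 (by exact_mod_cast h11)
  have hfin : {n : ℕ | n ≤ N ∧ Nat.FermatPsp n 2 ∧ n.primeFactors.card ≤ k}.Finite :=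
    (Set.finite_Iic N).subset (fun n hn => hn.1)
  have h8 : (({n : ℕ | n ≤ N ∧ Nat.FermatPsp n 2 ∧
      (n.primeFactors.card : ℝ) ≤ κ * Real.log (Real.log N) / Real.log 2}.ncard : ℕ) : ℝ) ≤
      (({n : ℕ | n ≤ N ∧ Nat.FermatPsp n 2 ∧ n.primeFactors.card ≤ k}.ncard : ℕ) : ℝ) := by
    exact_mod_cast Set.ncard_le_ncard h7 hfin
  refine h8.trans ((few_primes_strong N k j V h4 h5).trans ?_)
  rw [Real.exp_log hNpos, exp_mul_log_nat' hN, exp_mul_log_nat' hN] at h6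
  exact h6

theorem few_divisors_power (B ε : ℝ) (hB : 1 ≤ B) (hε : 0 < ε) : ∀ᶠ N : ℕ in atTop,
    (({n : ℕ | n ≤ N ∧ Nat.FermatPsp n 2 ∧
      ((n - 1).divisors.card : ℝ) ≤ (Real.log N) ^ B}.ncard : ℕ) : ℝ) ≤
      (N : ℝ) ^ (1 - 1 / (4 * B) + ε) := by
  have h1 : Tendsto (fun N : ℕ => Real.log (N : ℝ)) atTop atTop :=
    Real.tendsto_log_atTop.comp tendsto_natCast_atTop_atTop
  filter_upwards [h1.eventually (asyB B ε hB hε), eventually_ge_atTop 1] with N h2 hN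
  have hNpos : (0 : ℝ) < N := by exact_mod_cast hN
  obtain ⟨k, j, A, h3, h6⟩ := h2
  refine (few_divisors_strong N k j ((Real.log N) ^ B) A h3).trans ?_
  rw [Real.exp_log hNpos, exp_mul_log_nat' hN, exp_mul_log_nat' hN] at h6
  exact h6

end A53
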